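import Pool.Agent.MP_48b1c3_nt.H69.Defs

/-! Row 8: lower sieves in many fields against one upper sieve. -/

namespace Pool.Agent.MP_48b1c3_nt.H69

open Finset NumberField H54 H91 H48 Filter
open scoped Classical nonZeroDivisors Topology

theorem num_avg {N h φ n x V l B XQ SQ a T C1 C2 k : ℝ} (hN : 0 < N) (hh : 0 < h) (hφ : 0 < φ)
    (hn : 0 < n) (hx : 0 < x) (hl : 0 < l) (hk : 0 < k) (hV : k / l ≤ V)
    (h1 : 0.99 * (B * V) - C1 * x / l ^ 2 ≤ a) (h2 : N * x / (100 * h) ≤ φ * B)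
    (h3 : a ≤ N * SQ / (2800 * h) + n * N * l * T)
    (h4 : SQ ≤ 1.01 * (XQ * V) + 4 * (C2 * x / l ^ 2)) (h5 : φ * XQ ≤ 6 * x)
    (h6 : C1 + N * (4 * C2) / (2800 * h) ≤ 0.004 * (N * k / (h * φ)) * l) :
    0.003 * k / (n * h * φ) * x / l ^ 2 ≤ T := by
  have V0 : 0 < V := lt_of_lt_of_le (div_pos hk hl) hV
  obtain ⟨u, hu⟩ : ∃ u, u = N * x * V / (h * φ) := ⟨_, rfl⟩
  obtain ⟨w, hw⟩ : ∃ w, w = N * k * x / (h * φ * l) := ⟨_, rfl⟩
  obtain ⟨y, hy⟩ : ∃ y, y = x / l ^ 2 := ⟨_, rfl⟩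
  have y0 : 0 < y := by rw [hy]; positivity
  have w0 : 0 < w := by rw [hw]; positivity
  have e1 : u / 100 ≤ B * V := by
    have : N * x / (100 * h) / φ ≤ B := by rw [div_le_iff₀ hφ]; linarith
    calc u / 100 = N * x / (100 * h) / φ * V := by rw [hu]; field_simp
      _ ≤ B * V := mul_le_mul_of_nonneg_right this V0.le
  have e2 : N * (XQ * V) / h ≤ 6 * u := by
    have : XQ ≤ 6 * x / φ := by rw [le_div_iff₀ hφ]; linarith
    calc N * (XQ * V) / h ≤ N * (6 * x / φ * V) / h := by gcongr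
      _ = 6 * u := by rw [hu]; field_simp
  have e3 : w ≤ u := by
    calc w = N * x * (k / l) / (h * φ) := by rw [hw]; field_simp
      _ ≤ N * x * V / (h * φ) := by gcongr
      _ = u := hu.symm
  have e4 : N * SQ / (2800 * h) ≤
      1.01 / 2800 * (N * (XQ * V) / h) + N * (4 * C2) / (2800 * h) * y := by
    calc N * SQ / (2800 * h) ≤ N * (1.01 * (XQ * V) + 4 * (C2 * x / l ^ 2)) / (2800 * h) := by
          gcongr
      _ = _ := by rw [hy]; field_simp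
  have e5 : (C1 + N * (4 * C2) / (2800 * h)) * y ≤ 0.004 * w := by
    calc _ ≤ 0.004 * (N * k / (h * φ)) * l * y := mul_le_mul_of_nonneg_right h6 y0.le
      _ = _ := by rw [hw, hy]; field_simp
  have e6 : C1 * x / l ^ 2 = C1 * y := by rw [hy]; ring
  have e7 : 0.003 * w ≤ n * N * l * T := by
    rw [e6] at h1
    rw [add_mul] at e5
    linarith
  have e8 : 0.003 * k / (n * h * φ) * x / l ^ 2 * (n * N * l) = 0.003 * w := by
    rw [hw]; field_simp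
  have p : 0 < n * N * l := by positivity
  refine le_of_mul_le_mul_right ?_ p
  rw [e8]
  linarith

theorem pt_avg {ι : Type} [Fintype ι] (f : ι → ℝ) {c : ℝ} (h : ∀ i, 0 ≤ f i ∧ f i ≤ c) :
    ∑ i, |f i| ≤ #(univ.filter fun i => f i ≠ 0) * c := by
  calc ∑ i, |f i| ≤ ∑ i, if f i ≠ 0 then c else 0 := by
        refine sum_le_sum fun i _ => ?_
        split_ifs with g
        · rw [abs_of_nonneg (h i).1]; exact (h i).2
        · rw [not_not.1 g, abs_zero]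
    _ = _ := by rw [← sum_filter, sum_const, nsmul_eq_mul]

theorem mark_avg {ι : Type} [Fintype ι] {n h : ℕ} (L : ι → ℕ → ℝ) (hh : 0 < h) (F : Finset ℕ)
    (β : ℕ → ℝ) {l : ℝ} (hβ : ∀ p, 0 ≤ β p ∧ β p ≤ 1)
    (hF : ∀ p ∈ F, Real.log p ≤ l ∧ ∀ i, 0 ≤ L i p ∧ L i p ≤ n * Real.log p) :
    ∑ i, ∑ p ∈ F, |L i p| * β p ≤
      (Fintype.card ι : ℝ) * (∑ p ∈ F, |Real.log p| * β p) / (2800 * h) +
        n * (Fintype.card ι : ℝ) * l * #(F.filter fun p =>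
          Fintype.card ι ≤ 2800 * n * h * #(univ.filter fun i => L i p ≠ 0)) := by
  have h0 : (0 : ℝ) < h := Nat.cast_pos.2 hh
  rw [sum_comm, mul_sum, sum_div, mul_comm _ ((#_ : ℕ) : ℝ), ← nsmul_eq_mul, ← sum_const,
    sum_filter, ← sum_add_distrib]
  refine sum_le_sum fun p hp => ?_
  obtain ⟨h1, h2⟩ := hF p hp
  have l0 := Real.log_natCast_nonneg p
  obtain ⟨b0, b1⟩ := hβ p
  have a := mul_le_mul_of_nonneg_right (pt_avg (fun i => L i p) h2) b0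
  rw [← sum_mul, abs_of_nonneg l0]
  have t1 : ((#(univ.filter fun i => L i p ≠ 0) : ℕ) : ℝ) ≤ Fintype.card ι :=
    Nat.cast_le.2 (card_le_univ _)
  obtain ⟨t, ht⟩ : ∃ t : ℕ, t = #(univ.filter fun i => L i p ≠ 0) := ⟨_, rfl⟩
  rw [← ht] at a t1 ⊢
  have q0 : (0 : ℝ) ≤ (Fintype.card ι : ℝ) * (Real.log p * β p) / (2800 * h) := by positivity
  split_ifs with g
  · have : (t : ℝ) * (n * Real.log p) * β p ≤ (Fintype.card ι : ℝ) * (n * l) * 1 := by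
      have l1 : 0 ≤ l := l0.trans h1
      gcongr
    linarith
  · have g' : (2800 * n * h * t : ℝ) ≤ Fintype.card ι := by exact_mod_cast (not_le.1 g).le
    have : (t : ℝ) * (n * Real.log p) * β p ≤
        (Fintype.card ι : ℝ) * (Real.log p * β p) / (2800 * h) := by
      rw [le_div_iff₀ (by positivity)]
      calc _ = (2800 * n * h * t : ℝ) * (Real.log p * β p) := by ring
        _ ≤ _ := mul_le_mul_of_nonneg_right g' (mul_nonneg l0 b0)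
    linarith

theorem average : ∃ s : ℝ, 1 ≤ s ∧ ∀ {ι : Type} [Fintype ι] [Nonempty ι] {n h M b : ℕ} {θ : ℝ}
    (L : ι → ℕ → ℝ), 0 < n → 0 < h → 0 < M → 2 ∣ M → 0 < θ →
    (∀ i (p : ℕ), p.Prime → 0 ≤ L i p ∧ L i p ≤ n * Real.log p) →
    (∀ i, ∃ C : ℝ, ∀ᶠ x : ℝ in atTop, ∀ z : ℝ,
      (prob (L i) M b x (x ^ θ)).R M ∅ z ≤ C * x / Real.log x ^ 2) →
    (∃ C : ℝ, ∀ᶠ x : ℝ in atTop, ∀ z : ℝ,
      (prob (fun m => Real.log m) M b x (x ^ θ)).R M ∅ z ≤ C * x / Real.log x ^ 2) →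
    (∀ᶠ x : ℝ in atTop, ∀ D : ℝ,
      M.totient * (prob (fun m => Real.log m) M b x D).X ≤ 6 * x) →
    (∃ᶠ x : ℕ in atTop, ∀ D : ℝ, (Fintype.card ι : ℝ) * x / (100 * h) ≤
      M.totient * ∑ i, (prob (L i) M b x D).X) →
    ∃ c : ℝ, 0 < c ∧ ∃ᶠ x : ℕ in atTop, ∃ T : Finset ℕ, c * x / Real.log x ^ 2 ≤ #T ∧
      ∀ p ∈ T, p.Prime ∧ p ≤ x ∧ p ≡ b [MOD M] ∧
        (∀ l : ℕ, l.Prime → l ∣ p - 1 → l ∣ M ∨ (x : ℝ) ^ (θ / s) ≤ l) ∧
        Fintype.card ι ≤ 2800 * n * h * #(univ.filter fun i => L i p ≠ 0) := by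
  obtain ⟨s, s1, hs⟩ := fl_unif
  refine ⟨s, s1, ?_⟩
  intro ι _ _ n h M b θ L hn hh hM h2 hθ hL hR hQ hX hB
  have s0 : 0 < s := by linarith
  have α0 : 0 < θ / s := div_pos hθ s0
  obtain ⟨c0, C0, c00, -, hV⟩ := VV_bounds hM h2
  choose C hC using hR
  obtain ⟨C2, hC2⟩ := hQ
  have N0 : (0 : ℝ) < Fintype.card ι := Nat.cast_pos.2 Fintype.card_pos
  have n0 : (0 : ℝ) < n := Nat.cast_pos.2 hn
  have h0 : (0 : ℝ) < h := Nat.cast_pos.2 hh
  have φ0 : (0 : ℝ) < M.totient := Nat.cast_pos.2 (Nat.totient_pos.2 hM)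
  have k0 : 0 < c0 / (θ / s) := div_pos c00 α0
  refine ⟨0.003 * (c0 / (θ / s)) / (n * h * M.totient), by positivity, ?_⟩
  have g0 : 0 < 0.004 * ((Fintype.card ι : ℝ) * (c0 / (θ / s)) / (h * M.totient)) := by positivity
  have E1 : ∀ᶠ x : ℝ in atTop, (∑ i, C i) + (Fintype.card ι : ℝ) * (4 * C2) / (2800 * h) ≤
      0.004 * ((Fintype.card ι : ℝ) * (c0 / (θ / s)) / (h * M.totient)) * Real.log x :=
    (Real.tendsto_log_atTop.const_mul_atTop g0).eventually_ge_atTop _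
  have E2 : ∀ᶠ x : ℝ in atTop, 2 ≤ x ^ (θ / s) :=
    (tendsto_rpow_atTop α0).eventually_ge_atTop _
  have E := (tendsto_natCast_atTop_atTop (R := ℝ)).eventually
    (E1.and (E2.and ((eventually_all.2 hC).and (hC2.and (hX.and (eventually_gt_atTop 1))))))
  refine (hB.and_eventually E).mono ?_
  rintro x ⟨hB, E1, E2, E3, E4, E5, x1⟩
  have x0 : (0 : ℝ) < x := by linarith
  have l0 := Real.log_pos x1
  obtain ⟨z, hz⟩ : ∃ z : ℝ, z = (x : ℝ) ^ (θ / s) := ⟨_, rfl⟩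
  rw [← hz] at E2 ⊢
  have lev : z ^ s * pe ∅ ≤ (x : ℝ) ^ θ := by
    rw [hz, ← Real.rpow_mul x0.le, div_mul_cancel₀ _ s0.ne', pe, prod_empty, mul_one]
  have adm : Adm M ∅ z := fun p hp => absurd hp (notMem_empty p)
  have V1 : c0 / (θ / s) / Real.log x ≤ VV M z := by
    have := (hV z E2).1
    rwa [hz, Real.log_rpow x0, ← div_div, ← hz] at this
  obtain ⟨F, hF⟩ : ∃ F : Finset ℕ, F = (Om M b x).filter fun p =>
      (∀ l ∈ (∅ : Finset ℕ), l ∣ p - 1) ∧ ∀ l ∈ Pw M z, ¬ l ∣ p - 1 := ⟨_, rfl⟩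
  have mF : ∀ p ∈ F, p.Prime ∧ p ≤ x ∧ p ≡ b [MOD M] ∧ ∀ l ∈ Pw M z, ¬ l ∣ p - 1 := by
    intro p hp
    rw [hF, mem_filter, Om, mem_filter, mem_Icc, Nat.floor_natCast] at hp
    exact ⟨hp.1.2.1, hp.1.1.2, hp.1.2.2, hp.2.2⟩
  have eS : ∀ G : ℕ → ℝ, (prob G M b x (x ^ θ)).S M ∅ z =
      ∑ p ∈ F, |G p| * bump (Real.log (p / x)) := fun G => by rw [hF]; rfl
  have eE : ∀ G : ℕ → ℝ, (prob G M b x (x ^ θ)).E M ∅ z =
      (prob G M b x (x ^ θ)).X * VV M z := fun G => by rw [SP.E, ge, prod_empty, mul_one]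
  have mk := mark_avg (n := n) L hh F (fun p => bump (Real.log (p / x))) (l := Real.log x)
    (fun p => ⟨bump.nonneg, bump.le_one⟩) fun p hp =>
      ⟨Real.log_le_log (Nat.cast_pos.2 (mF p hp).1.pos) (Nat.cast_le.2 (mF p hp).2.1),
        fun i => hL i p (mF p hp).1⟩
  have up := (hs M h2 (prob (fun m => Real.log m) M b x (x ^ θ)) ∅ z E2 adm lev).2
  rw [eS, eE] at up
  have lo : 0.99 * ((∑ i, (prob (L i) M b x (x ^ θ)).X) * VV M z) -
      (∑ i, C i) * x / Real.log x ^ 2 ≤ ∑ i, ∑ p ∈ F, |L i p| * bump (Real.log (p / x)) := by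
    rw [sum_mul, sum_mul, mul_sum, sum_div, ← sum_sub_distrib]
    refine sum_le_sum fun i _ => ?_
    have := (hs M h2 (prob (L i) M b x (x ^ θ)) ∅ z E2 adm lev).1
    rw [eS, eE] at this
    exact le_trans (sub_le_sub_left (E3 i z) _) this
  refine ⟨_, num_avg N0 h0 φ0 n0 x0 l0 k0 V1 lo (hB _) mk
    (up.trans (add_le_add le_rfl (mul_le_mul_of_nonneg_left (E4 z) (by norm_num)))) (E5 _) E1, fun p hp => ?_⟩
  obtain ⟨hp, ht⟩ := mem_filter.1 hp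
  obtain ⟨a1, a2, a3, a4⟩ := mF p hp
  refine ⟨a1, a2, a3, fun l hl hd => ?_, ht⟩
  by_contra hc
  rw [not_or, not_le] at hc
  exact a4 l (mem_Pw.2 ⟨hc.2, hl, hc.1⟩) hd

end Pool.Agent.MP_48b1c3_nt.H69
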