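import Pool.Agent.MP_48b1c3_nt.H69.Fam

/-! Row 3: the remainder terms. -/

namespace Pool.Agent.MP_48b1c3_nt.H69

open Finset NumberField H54 H91 H48 Filter
open scoped Classical nonZeroDivisors Topology

variable {K : Type} [Field K] [NumberField K] {R : Type} [CommRing R] [IsDedekindDomain R]
  [Algebra (𝓞 K) R]

theorem bv_sm (s : 𝓞 K) [IsLocalization.Away s R] {q : ℕ} (hq : 0 < q) {J : Ideal (𝓞 K)}
    (h0 : J ≠ ⊥) (hJ : Cop q J) (ψ : DirichletCharacter ℂ q) :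
    ∃ (ι : Type) (_ : Fintype ι) (F : ι → Ideal (𝓞 K) → ℂ),
      (∀ i, HC q (F i)) ∧ ∀ (G : ℕ → ℂ) (x : ℝ),
        ‖sm (fun m => lamC R q J m * ψ m * G m) bmp x‖ ≤
          ∑ i, ‖sm (fun m => pushL (F i) m * G m) bmp x‖ := by
  obtain ⟨ι, _, ξ, -, h1, h2, ⟨i0, -⟩, h4⟩ := lamC_eq (R := R) s hq h0 hJ
  refine ⟨ι, ‹_›, fun i => ξ i * dir K ψ, fun i => (h1 i).mul_same (hc_dir hq ψ), fun G x => ?_⟩
  have c1 : (1 : ℝ) ≤ Fintype.card ι := Nat.one_le_cast.2 (Fintype.card_pos_iff.2 ⟨i0⟩)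
  have h5 := (congrArg norm (h4 (fun m => ψ m * G m) x)).ge.trans (norm_sum_le _ _)
  simp only [norm_mul, norm_inv, h2, inv_one, one_mul] at h5
  simp only [pushL_dir, mul_assoc]
  refine le_trans ?_ h5
  simp only [sm, Complex.ofReal_mul, mul_assoc, ← mul_sum, norm_mul, Complex.ofReal_natCast,
    Complex.norm_natCast]
  exact le_mul_of_one_le_left (norm_nonneg _) c1

theorem cls_bv (s : 𝓞 K) [IsLocalization.Away s R] {M : ℕ} (hM : 0 < M) {J : Ideal (𝓞 K)}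
    (h0 : J ≠ ⊥) (hJ : Cop M J) (hD : DD K ∣ M) (hB : BB K ∣ M) {θ : ℝ} (h1 : 0 < θ)
    (h2 : θ * (max 4 (dg K) : ℕ) < 2) : ∃ C : ℝ, ∀ᶠ x : ℝ in atTop, ∀ z : ℝ,
      (prob (lamC R M J) M (Ideal.absNorm J) x (x ^ θ)).R M ∅ z ≤ C * x / Real.log x ^ 2 := by
  have m4 : (4 : ℝ) ≤ (max 4 (dg K) : ℕ) := by exact_mod_cast le_max_left _ _
  have mn : (dg K : ℝ) ≤ (max 4 (dg K) : ℕ) := by exact_mod_cast le_max_right _ _
  refine bv hM (cop_iff.1 hJ) _ (dg K) (lamC_le M J) h1 (by nlinarith only [h2, m4]) (fun ψ => ?_)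
    (fun ψ A B => ?_) 2
  all_goals obtain ⟨ι, _, F, hF, hs⟩ := bv_sm (R := R) s hM h0 hJ ψ
  · obtain ⟨δ, C, k, d0, C0, h⟩ := core_sum (θ := θ) (fun i x D => ∑ j ∈ Xf (Qs M D),
      ‖sm (fun m => pushL (F i) m * j.2 m) bmp x‖) fun i =>
      have H := hF i
      mean_value (push (F i)) (pushM (F i)) (pushL (F i)) (dg K)
        (pushM_mul H.one H.mul) (push_P H.one H.mul H.le).der (norm_pushM_le H.le)
        (norm_push_le H.le) (fun m => (norm_pushL_le H.le m).trans (lamK_le m)) (Qs M)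
        (fun D => filter_subset _ _) (ν := (max 4 (dg K) : ℕ) / 2) (by linarith only [m4]) h1
        (by linarith)
        (fun v hv δ hδ => by
          obtain ⟨C, hC⟩ := avg_I hM hD hB H.toPF hv hδ
          refine ⟨|C|, fun y D hy hD => (hC y D hy hD).trans ?_⟩
          have : (1 : ℝ) ≤ D := by exact_mod_cast hD
          gcongr
          exact le_abs_self C) test_bmp
    refine ⟨δ, C, k, d0, C0, fun x D a b c => le_trans ?_ (h x D a b c)⟩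
    rw [sum_comm]
    exact sum_le_sum fun j _ => hs _ x
  · choose C C0 hC using fun i => core_sw hM hD hB (hF i) A B
    have C1 : 0 ≤ ∑ i, C i := sum_nonneg fun i _ => (C0 i).le
    refine ⟨∑ i, C i + 1, by positivity, fun x hx q χ a b c d e => (hs _ x).trans
      ((sum_le_sum fun i _ => hC i x hx q χ a b c d e).trans ?_)⟩
    have l1 := sw_one_le hx
    rw [← sum_div, ← sum_mul]
    gcongr
    linarith only []

theorem bv_norm (n : ℕ) : Ideal.absNorm (Ideal.span {(n : 𝓞 ℚ)}) = n := by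
  rw [Ideal.absNorm_span_natCast, RingOfIntegers.rank, Module.finrank_self, pow_one]

theorem bv_eq {I : Ideal (𝓞 ℚ)} {n : ℕ} (hn : n ≠ 0) (h : Ideal.absNorm I = n) :
    I = Ideal.span {(n : 𝓞 ℚ)} := by
  have h1 : Ideal.span {(n : 𝓞 ℚ)} ≤ I := by
    rw [Ideal.span_singleton_le_iff_mem, ← h]
    exact Ideal.absNorm_mem I
  obtain ⟨c, hc⟩ := Ideal.dvd_iff_le.2 h1
  have h2 := congrArg Ideal.absNorm hc
  rw [map_mul, bv_norm, h] at h2
  have h3 : Ideal.absNorm c = 1 := Nat.eq_of_mul_eq_mul_left (Nat.pos_of_ne_zero hn) (by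
    rw [← h2, mul_one])
  rw [hc, Ideal.absNorm_eq_one_iff.1 h3, Ideal.mul_top]

theorem lamC_rat {M b p : ℕ} (hp : p.Prime) (h : p ≡ b [MOD M]) :
    lamC (𝓞 ℚ) M (Ideal.span {(b : 𝓞 ℚ)}) p = Real.log p := by
  have e : idN ℚ p = {Ideal.span {(p : 𝓞 ℚ)}} := by
    ext I
    rw [mem_idN, mem_singleton]
    exact ⟨bv_eq hp.ne_zero, fun g => g ▸ bv_norm p⟩
  have hP : (Ideal.span {(p : 𝓞 ℚ)}).IsPrime :=
    Ideal.isPrime_of_irreducible_absNorm (by rw [bv_norm]; exact hp)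
  have h0 : Ideal.span {(p : 𝓞 ℚ)} ≠ ⊥ := fun g => hp.ne_zero (by
    rw [← bv_norm p, g, Ideal.absNorm_bot])
  have r : Rel (𝓞 ℚ) M (Ideal.span {(p : 𝓞 ℚ)}) (Ideal.span {(b : 𝓞 ℚ)}) :=
    ⟨by rwa [bv_norm, bv_norm], by rw [ex_span, ex_span, cl_span, cl_span]⟩
  rw [lamC, if_neg hp.ne_zero, e, sum_singleton, if_pos r, lam,
    if_pos (Ideal.prime_of_isPrime h0 hP).isPrimePow, hP.radical, bv_norm]

theorem bv_R {L L' : ℕ → ℝ} {M a : ℕ} (h : ∀ p : ℕ, p.Prime → p ≡ a [MOD M] → L p = L' p)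
    (x D z : ℝ) : (prob L M a x D).R M ∅ z = (prob L' M a x D).R M ∅ z := by
  have e : ∀ n ∈ Om M a x, |L n| * bump (Real.log (n / x)) = |L' n| * bump (Real.log (n / x)) :=
    fun n hn => by rw [h n (mem_filter.1 hn).2.1 (mem_filter.1 hn).2.2]
  have e1 : (prob L M a x D).X = (prob L' M a x D).X := sum_congr rfl e
  have e2 : ∀ d, (prob L M a x D).cnt d = (prob L' M a x D).cnt d := fun d =>
    sum_congr rfl fun n hn => e n (mem_filter.1 hn).1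
  simp only [SP.R, e1, e2]
  rfl

theorem rat_bv {M b : ℕ} (hM : 0 < M) (hb0 : 0 < b) (hb : b.Coprime M) (hD : DD ℚ ∣ M)
    (hB : BB ℚ ∣ M) {θ : ℝ} (h1 : 0 < θ) (h2 : θ * 4 < 2) : ∃ C : ℝ, ∀ᶠ x : ℝ in atTop, ∀ z : ℝ,
      (prob (fun m => Real.log m) M b x (x ^ θ)).R M ∅ z ≤ C * x / Real.log x ^ 2 := by
  have : IsLocalization.Away (1 : 𝓞 ℚ) (𝓞 ℚ) :=
    IsLocalization.away_of_isUnit_of_bijective _ isUnit_one Function.bijective_id
  have h0 : Ideal.span {(b : 𝓞 ℚ)} ≠ ⊥ := fun g => hb0.ne' (by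
    rw [← bv_norm b, g, Ideal.absNorm_bot])
  obtain ⟨C, hC⟩ := cls_bv (R := 𝓞 ℚ) 1 hM h0 (cop_iff.2 (by rwa [bv_norm])) hD hB h1
    (by simpa [dg] using h2)
  refine ⟨C, hC.mono fun x hx z => le_trans (le_of_eq ?_) (hx z)⟩
  rw [bv_norm]
  exact bv_R (fun p hp g => (lamC_rat hp g).symm) _ _ _

end Pool.Agent.MP_48b1c3_nt.H69
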