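import Mathlib

/-! Units that are torsion over a finitely generated group of algebraic numbers. -/

namespace Pool.Agent.MP_48b1c3_nt.H69

open NumberField

theorem om_alg : Algebra.IsAlgebraic ℚ (AlgebraicClosure ℚ) := AlgebraicClosure.isAlgebraic ℚ

theorem om_normal : Normal ℚ (AlgebraicClosure ℚ) :=
  have : IsAlgClosure ℚ (AlgebraicClosure ℚ) := ⟨inferInstance, om_alg⟩
  IsAlgClosure.normal ℚ _

theorem exists_normal (S : Finset (AlgebraicClosure ℚ)) :
    ∃ N : IntermediateField ℚ (AlgebraicClosure ℚ), FiniteDimensional ℚ N ∧ Normal ℚ N ∧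
      ∀ x ∈ S, x ∈ N := by
  have := om_alg
  have := om_normal
  have hf : FiniteDimensional ℚ
      (IntermediateField.adjoin ℚ (S : Set (AlgebraicClosure ℚ))) :=
    IntermediateField.finiteDimensional_adjoin
      (fun x _ => (Algebra.IsAlgebraic.isAlgebraic x).isIntegral)
  refine ⟨IntermediateField.normalClosure ℚ
    (IntermediateField.adjoin ℚ (S : Set (AlgebraicClosure ℚ))) (AlgebraicClosure ℚ),
    inferInstance, normalClosure.normal ℚ _ _, fun x hx => ?_⟩
  exact IntermediateField.le_normalClosure _ (IntermediateField.subset_adjoin ℚ _ hx)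

theorem conj_mem {K : Type} [Field K] [NumberField K]
    (N : IntermediateField ℚ (AlgebraicClosure ℚ)) (hN : Normal ℚ N)
    (τ τ' : K →+* AlgebraicClosure ℚ) (x : K) (h : τ x ∈ N) : τ' x ∈ N := by
  have := om_normal
  have h1 : minpoly ℚ (τ.toRatAlgHom x) = minpoly ℚ x :=
    minpoly.algHom_eq τ.toRatAlgHom τ.injective x
  have h2 : minpoly ℚ (τ'.toRatAlgHom x) = minpoly ℚ x :=
    minpoly.algHom_eq τ'.toRatAlgHom τ'.injective x
  have hc : IsConjRoot ℚ (τ' x) (τ x) := h2.trans h1.symm
  obtain ⟨σ, hσ⟩ := hc.exists_algEquiv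
  have := (IntermediateField.normal_iff_forall_map_le'.1 hN) σ
  rw [← hσ]
  exact this ⟨τ x, h, rfl⟩

theorem place_eq {K : Type} [Field K] [NumberField K] (E : Subfield K)
    (hE : ∀ u : (𝓞 K)ˣ, ∃ k : ℕ, 0 < k ∧ ((u : 𝓞 K) : K) ^ k ∈ E) (ψ ψ' : K →+* ℂ)
    (h : ∀ x ∈ E, ψ x = ψ' x) : ψ' = ψ ∨ ComplexEmbedding.conjugate ψ' = ψ := by
  rw [← InfinitePlace.mk_eq_iff]
  by_contra hne
  obtain ⟨u, hu⟩ := Units.dirichletUnitTheorem.exists_unit K (InfinitePlace.mk ψ)
  obtain ⟨k, hk, hm⟩ := hE u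
  have e : InfinitePlace.mk ψ ((u : 𝓞 K) : K) = InfinitePlace.mk ψ' ((u : 𝓞 K) : K) := by
    have := h _ hm
    rw [map_pow, map_pow] at this
    have := congrArg norm this
    rw [norm_pow, norm_pow] at this
    rw [InfinitePlace.apply, InfinitePlace.apply]
    exact (pow_left_inj₀ (norm_nonneg _) (norm_nonneg _) hk.ne').1 this
  have hall : ∀ w : InfinitePlace K, Real.log (w ((u : 𝓞 K) : K)) < 0 := by
    intro w
    by_cases hw : w = InfinitePlace.mk ψ
    · rw [hw, e]; exact hu _ hne
    · exact hu w hw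
  have hs := Units.sum_mult_mul_log u
  have : ∑ w : InfinitePlace K, (w.mult : ℝ) * Real.log (w ((u : 𝓞 K) : K)) < 0 := by
    refine Finset.sum_neg (fun w _ => ?_) Finset.univ_nonempty
    exact mul_neg_of_pos_of_neg (by exact_mod_cast w.mult_pos) (hall w)
  exact this.ne hs

theorem top_or_cm {K : Type} [Field K] [NumberField K] (E : Subfield K)
    (hE : ∀ u : (𝓞 K)ˣ, ∃ k : ℕ, 0 < k ∧ ((u : 𝓞 K) : K) ^ k ∈ E) :
    E = ⊤ ∨ (IsCMField K ∧ E = maximalRealSubfield K) := by
  classical
  by_cases ht : E = ⊤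
  · exact Or.inl ht
  right
  have hfin : FiniteDimensional E K := Module.Finite.of_restrictScalars_finite ℚ E K
  have h1 : Module.finrank E K ≠ 1 := by
    intro h1
    apply ht
    rw [eq_top_iff]
    intro x _
    have := (Subalgebra.bot_eq_top_iff_finrank_eq_one (F := E) (E := K)).2 h1
    have hx : x ∈ (⊥ : Subalgebra E K) := this ▸ Algebra.mem_top
    obtain ⟨y, hy⟩ := Algebra.mem_bot.1 hx
    rw [← hy]
    exact y.2
  have key : ∀ ψ : K →+* ℂ, Module.finrank E K = 2 ∧ ComplexEmbedding.conjugate ψ ≠ ψ ∧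
      ∀ x ∈ E, ComplexEmbedding.conjugate ψ x = ψ x := by
    intro ψ
    let _ : Algebra E ℂ := (ψ.comp E.subtype).toAlgebra
    have hc : Fintype.card (K →ₐ[E] ℂ) = Module.finrank E K := AlgHom.card E K ℂ
    have hag : ∀ (f : K →ₐ[E] ℂ), ∀ x ∈ E, ψ x = f.toRingHom x := fun f x hx =>
      (f.commutes ⟨x, hx⟩).symm
    have hsub : ∀ f : K →ₐ[E] ℂ, f.toRingHom = ψ ∨ f.toRingHom = ComplexEmbedding.conjugate ψ := by
      intro f
      rcases place_eq E hE ψ f.toRingHom (hag f) with h | h
      · exact Or.inl h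
      · right
        rw [← h]
        exact (star_star _).symm
    have hinj : Function.Injective (fun f : K →ₐ[E] ℂ => f.toRingHom) :=
      AlgHom.coe_ringHom_injective
    have hle : Fintype.card (K →ₐ[E] ℂ) ≤ 2 := by
      have := Finset.card_le_card_of_injOn (s := Finset.univ)
        (t := ({ψ, ComplexEmbedding.conjugate ψ} : Finset (K →+* ℂ)))
        (fun f : K →ₐ[E] ℂ => f.toRingHom) (fun f _ => by simpa using hsub f) hinj.injOn
      exact this.trans Finset.card_le_two
    have hpos : 0 < Module.finrank E K := Module.finrank_pos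
    have h2 : Module.finrank E K = 2 := by omega
    obtain ⟨f, g, hfg⟩ := Fintype.exists_pair_of_one_lt_card (α := K →ₐ[E] ℂ) (by omega)
    have hne : f.toRingHom ≠ g.toRingHom := fun h => hfg (hinj h)
    refine ⟨h2, ?_, ?_⟩
    · intro hcj
      apply hne
      rcases hsub f with a | a <;> rcases hsub g with b | b <;> simp only [a, b, hcj]
    · intro x hx
      rcases hsub f with a | a
      · rcases hsub g with b | b
        · exact absurd (a.trans b.symm) hne
        · rw [← b]; exact (hag g x hx).symm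
      · rw [← a]; exact (hag f x hx).symm
  have hc : IsTotallyComplex K := ⟨fun w => by
    rw [InfinitePlace.isComplex_iff, ComplexEmbedding.isReal_iff]
    exact (key _).2.1⟩
  have hr : IsTotallyReal E := ⟨fun w => by
    rw [InfinitePlace.isReal_iff, ComplexEmbedding.isReal_iff]
    ext x
    have := (key (ComplexEmbedding.lift K w.embedding)).2.2 x x.2
    have e : ComplexEmbedding.lift K w.embedding (x : K) = w.embedding x :=
      ComplexEmbedding.lift_algebraMap_apply K w.embedding x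
    rw [ComplexEmbedding.conjugate_coe_eq, e] at this
    rw [ComplexEmbedding.conjugate_coe_eq, this]⟩
  have hq : Algebra.IsQuadraticExtension E K :=
    { finrank_eq_two' := (key (Classical.choice inferInstance)).1 }
  exact ⟨IsCMField.ofCMExtension E K, CMExtension.eq_maximalRealSubfield K E⟩

/-- Outside finitely many fields (for CM fields: finitely many real subfields) some unit has no
conjugate with a positive power in the field generated by the conjugates of `S`. -/
theorem exists_unit_fin (S : Finset (AlgebraicClosure ℚ)) : ∃ D0 : ℕ,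
    ∀ (K : Type) [Field K] [NumberField K], D0 ≤ (discr K).natAbs →
      (IsCMField K → D0 ≤ (discr (maximalRealSubfield K)).natAbs) →
      ∃ u : (𝓞 K)ˣ, ∀ (τ : K →+* AlgebraicClosure ℚ) (k : ℕ), 0 < k →
        τ ((u : 𝓞 K) : K) ^ k ∉ Subfield.closure (S : Set (AlgebraicClosure ℚ)) := by
  obtain ⟨N, hf, hN, hS⟩ := exists_normal S
  have : NumberField N := NumberField.mk
  refine ⟨(discr N).natAbs + 1, fun K _ _ h1 h2 => ?_⟩
  by_contra hcon
  push Not at hcon
  let τ0 : K →+* AlgebraicClosure ℚ := (IsAlgClosed.lift (R := ℚ) (S := K)).toRingHom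
  let E : Subfield K := N.toSubfield.comap τ0
  have hE : ∀ u : (𝓞 K)ˣ, ∃ k : ℕ, 0 < k ∧ ((u : 𝓞 K) : K) ^ k ∈ E := by
    intro u
    obtain ⟨τ, k, hk, hm⟩ := hcon u
    refine ⟨k, hk, ?_⟩
    have : τ (((u : 𝓞 K) : K) ^ k) ∈ N := by
      rw [map_pow]
      exact (Subfield.closure_le (t := N.toSubfield)).2 hS hm
    exact conj_mem N hN τ τ0 _ this
  have hle : ∀ (F : Type) [Field F] [NumberField F] (j : F →+* K), (∀ x, j x ∈ E) →
      (discr F).natAbs ≤ (discr N).natAbs := by
    intro F _ _ j hj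
    let _ : Algebra F N := ((τ0.comp j).codRestrict N.toSubfield hj).toAlgebra
    exact Nat.le_of_dvd (Int.natAbs_pos.2 (discr_ne_zero N))
      (Int.natAbs_dvd_natAbs.2 (discr_dvd_discr F N))
  rcases top_or_cm E hE with h | ⟨hcm, h⟩
  · have := hle K (RingHom.id K) (fun x => by rw [h]; trivial)
    omega
  · have := hle (maximalRealSubfield K) (maximalRealSubfield K).subtype
      (fun x => by rw [h]; exact x.2)
    have := h2 hcm
    omega

/-- The same for a finitely generated group of units of the algebraic closure. -/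
theorem exists_unit_fg (Γ : Subgroup (AlgebraicClosure ℚ)ˣ) (hΓ : Γ.FG) : ∃ D0 : ℕ,
    ∀ (K : Type) [Field K] [NumberField K], D0 ≤ (discr K).natAbs →
      (IsCMField K → D0 ≤ (discr (maximalRealSubfield K)).natAbs) →
      ∃ u : (𝓞 K)ˣ, ∀ (τ : K →+* AlgebraicClosure ℚ) (k : ℕ), 0 < k →
        ∀ g ∈ Γ, (g : AlgebraicClosure ℚ) ≠ τ ((u : 𝓞 K) : K) ^ k := by
  classical
  obtain ⟨T, hT⟩ := hΓ
  obtain ⟨D0, h⟩ := exists_unit_fin (T.image fun g => (g : AlgebraicClosure ℚ))
  refine ⟨D0, fun K _ _ h1 h2 => ?_⟩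
  obtain ⟨u, hu⟩ := h K h1 h2
  refine ⟨u, fun τ k hk g hg e => hu τ k hk ?_⟩
  rw [← e]
  rw [← hT] at hg
  clear e
  induction hg using Subgroup.closure_induction with
  | mem x hx => exact Subfield.subset_closure (by simpa using ⟨x, hx, rfl⟩)
  | one => exact one_mem _
  | mul x y _ _ hx hy => rw [Units.val_mul]; exact mul_mem hx hy
  | inv x _ hx => rw [Units.val_inv_eq_inv_val]; exact inv_mem hx

end Pool.Agent.MP_48b1c3_nt.H69
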