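import Pool.Agent.MP_48b1c3_nt.H69.Defs

/-! Row 7: one residue class for many fields. -/

namespace Pool.Agent.MP_48b1c3_nt.H69

open Finset NumberField H54 H91 H48 Filter
open scoped Classical nonZeroDivisors Topology

theorem coset_avg {G ι : Type} [CommGroup G] [Finite G] [Fintype ι] {N : ℕ} (H : ι → Subgroup G)
    (hH : ∀ i, (H i).index ≤ N) (a : ι → G) :
    ∃ g : G, Fintype.card ι ≤ N * #(univ.filter fun i => (a i)⁻¹ * g ∈ H i) := by
  have := Fintype.ofFinite G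
  have h1 : ∀ i, #(univ.filter fun g : G => (a i)⁻¹ * g ∈ H i) = Nat.card (H i) := fun i => by
    rw [← Nat.card_eq_finsetCard]
    refine Nat.card_congr ⟨fun g => ⟨(a i)⁻¹ * g.1, (mem_filter.1 g.2).2⟩,
      fun h => ⟨a i * h.1, by simp⟩, fun g => by simp, fun h => by simp⟩
  have h2 : ∑ _g : G, Fintype.card ι ≤
      ∑ g : G, N * #(univ.filter fun i => (a i)⁻¹ * g ∈ H i) := by
    rw [← mul_sum]
    simp only [card_filter]
    rw [sum_comm]
    simp only [← card_filter, h1]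
    rw [mul_sum]
    calc _ = ∑ _i : ι, Nat.card G := by simp [mul_comm]
      _ ≤ _ := sum_le_sum fun i _ => by
          rw [← (H i).index_mul_card]
          exact Nat.mul_le_mul_right _ (hH i)
  obtain ⟨g, _, hg⟩ := exists_le_of_sum_le univ_nonempty h2
  exact ⟨g, hg⟩

theorem avoid_cmn {l e : ℕ} (hl : l.Prime) (he : 0 < e) (hle : e + 1 < l) (g : ZMod l) :
    ∃ t : ℕ, ¬ l ∣ t ∧ g * (t : ZMod l) ^ e ≠ 1 := by
  have := Fact.mk hl
  by_contra hcon
  push Not at hcon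
  have hsub : (univ.erase (0 : ZMod l)) ⊆ (Polynomial.nthRoots e g⁻¹).toFinset := by
    intro x hx
    have hx0 := (mem_erase.1 hx).1
    have h1 := hcon x.val fun h => hx0 (by
      rw [← ZMod.natCast_zmod_val x]; exact (ZMod.natCast_eq_zero_iff _ _).2 h)
    rw [ZMod.natCast_zmod_val] at h1
    rw [Multiset.mem_toFinset, Polynomial.mem_nthRoots he]
    exact eq_inv_of_mul_eq_one_right h1
  have h2 := (card_le_card hsub).trans
    ((Multiset.toFinset_card_le _).trans (Polynomial.card_nthRoots e g⁻¹))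
  rw [card_erase_of_mem (mem_univ _), card_univ, ZMod.card] at h2
  omega

theorem val_cast_cmn {M d : ℕ} [NeZero M] (h : d ∣ M) (x : ZMod M) :
    ((x.val : ℕ) : ZMod d) = ZMod.castHom h (ZMod d) x := by
  rw [ZMod.castHom_apply, ZMod.natCast_val]

theorem common {ι : Type} [Fintype ι] {M B e N : ℕ} (hM : 0 < M) (he : 0 < e) (hB : e + 1 ≤ B)
    (hQ : B.factorial ^ 2 ∣ M) (H : ι → Subgroup (ZMod M)ˣ) (hH : ∀ i, (H i).index ≤ N)
    (hp : ∀ i y, y ^ e ∈ H i) (a : ι → (ZMod M)ˣ) :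
    ∃ (b : (ZMod M)ˣ) (I : Finset ι), Fintype.card ι ≤ N * B.factorial ^ 2 * #I ∧
      (∀ i ∈ I, (a i)⁻¹ * b ∈ H i ∧
        (b : ZMod M).val ≡ (a i : ZMod M).val [MOD B.factorial ^ 2]) ∧
      ∀ l : ℕ, l.Prime → l ∣ M → B < l → ¬ (b : ZMod M).val ≡ 1 [MOD l] := by
  have : NeZero M := ⟨hM.ne'⟩
  have hQ0 : 0 < B.factorial ^ 2 := by positivity
  have : NeZero (B.factorial ^ 2) := ⟨hQ0.ne'⟩
  have hk : (ZMod.unitsMap hQ).ker.index ≤ B.factorial ^ 2 := by
    rw [Subgroup.index_ker]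
    refine (Subgroup.card_le_card_group _).trans ?_
    rw [Nat.card_eq_fintype_card, ZMod.card_units_eq_totient]
    exact Nat.totient_le _
  obtain ⟨g, hg⟩ := coset_avg (N := N * B.factorial ^ 2)
    (fun i => H i ⊓ (ZMod.unitsMap hQ).ker)
    (fun i => Subgroup.index_inf_le.trans (Nat.mul_le_mul (hH i) hk)) a
  have ht : ∀ l : ℕ, ∃ t : ℕ, (l = 0 → t = 1) ∧ (l.Prime → B < l → ¬ l ∣ t ∧
      (((g : ZMod M).val : ℕ) : ZMod l) * (t : ZMod l) ^ e ≠ 1) := fun l => by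
    by_cases h : l.Prime ∧ B < l
    · obtain ⟨t, h1⟩ := avoid_cmn h.1 he (by omega) (((g : ZMod M).val : ℕ) : ZMod l)
      exact ⟨t, fun h0 => absurd h0 h.1.ne_zero, fun _ _ => h1⟩
    · exact ⟨1, fun _ => rfl, fun h1 h2 => absurd ⟨h1, h2⟩ h⟩
  choose t ht0 ht using ht
  have hcq : ∀ l : ℕ, l.Prime → B < l → Nat.Coprime (B.factorial ^ 2) l := fun l h1 h2 =>
    Nat.Coprime.pow_left 2 ((Nat.Prime.coprime_iff_not_dvd h1).2
      fun h => absurd (h1.dvd_factorial.1 h) (by omega)).symm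
  obtain ⟨y, hy⟩ := Nat.chineseRemainderOfFinset t (fun l => if l = 0 then B.factorial ^ 2 else l)
    (insert 0 (M.primeFactors.filter fun l => B < l))
    (fun l _ => by split_ifs with h; exacts [hQ0.ne', h]) (by
      intro l hl l' hl' hne
      simp only [coe_insert, coe_filter, Set.mem_insert_iff, Set.mem_ofPred_eq,
        Nat.mem_primeFactors] at hl hl'
      rcases hl with rfl | hl <;> rcases hl' with rfl | hl'
      · exact absurd rfl hne
      · simpa [Function.onFun, hl'.1.1.ne_zero] using hcq _ hl'.1.1 hl'.2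
      · simpa [Function.onFun, hl.1.1.ne_zero] using (hcq _ hl.1.1 hl.2).symm
      · simpa [Function.onFun, hl.1.1.ne_zero, hl'.1.1.ne_zero] using
          (Nat.coprime_primes hl.1.1 hl'.1.1).2 hne)
  have y0 : y ≡ 1 [MOD B.factorial ^ 2] := by
    have := hy 0 (mem_insert_self _ _)
    rwa [if_pos rfl, ht0 0 rfl] at this
  have y1 : ∀ l : ℕ, l.Prime → l ∣ M → B < l → y ≡ t l [MOD l] := fun l h1 h2 h3 => by
    have := hy l (mem_insert_of_mem (mem_filter.2 ⟨Nat.mem_primeFactors.2 ⟨h1, h2, hM.ne'⟩, h3⟩))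
    rwa [if_neg h1.ne_zero] at this
  have hc : Nat.Coprime y M := by
    refine Nat.coprime_of_dvd fun l h1 h2 h3 => ?_
    rcases le_or_gt l B with h | h
    · have h4 : y ≡ 1 [MOD l] :=
        y0.of_dvd ((h1.dvd_factorial.2 h).trans (dvd_pow_self _ two_ne_zero))
      exact h1.one_lt.ne' (Nat.dvd_one.1 ((h4.dvd_iff dvd_rfl).1 h2))
    · exact (ht l h1 h).1 (((y1 l h1 h3 h).dvd_iff dvd_rfl).1 h2)
  refine ⟨g * ZMod.unitOfCoprime y hc ^ e, _, hg, fun i hi => ?_, fun l h1 h2 h3 h4 => ?_⟩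
  · obtain ⟨h1, h2⟩ := (mem_filter.1 hi).2
    refine ⟨by rw [← mul_assoc]; exact (H i).mul_mem h1 (hp i _), ?_⟩
    have h3 : ZMod.unitsMap hQ g = ZMod.unitsMap hQ (a i) := by
      have : ZMod.unitsMap hQ ((a i)⁻¹ * g) = 1 := h2
      rw [map_mul, map_inv, inv_mul_eq_one] at this
      exact this.symm
    have h4 : ZMod.castHom hQ (ZMod _) (g : ZMod M) = ZMod.castHom hQ (ZMod _) (a i : ZMod M) :=
      congrArg Units.val h3
    rw [← ZMod.natCast_eq_natCast_iff, val_cast_cmn hQ, val_cast_cmn hQ, Units.val_mul,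
      Units.val_pow_eq_pow_val, ZMod.coe_unitOfCoprime, map_mul, map_pow, map_natCast, h4,
      (ZMod.natCast_eq_natCast_iff _ _ _).2 y0]
    simp
  · rw [← ZMod.natCast_eq_natCast_iff, val_cast_cmn h2, Units.val_mul,
      Units.val_pow_eq_pow_val, ZMod.coe_unitOfCoprime, map_mul, map_pow, map_natCast,
      (ZMod.natCast_eq_natCast_iff _ _ _).2 (y1 l h1 h2 h3), ← val_cast_cmn h2, Nat.cast_one] at h4
    exact (ht l h1 h3).2 h4

theorem gcd_dvd {M B w a b : ℕ} (hM : 0 < M) (hw : w ∣ B.factorial) (hQ : B.factorial ^ 2 ∣ M)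
    (ha : 0 < a) (hb : 0 < b) (hg : Nat.gcd (a - 1) M ∣ w) (hab : b ≡ a [MOD B.factorial ^ 2])
    (hl : ∀ l : ℕ, l.Prime → l ∣ M → B < l → ¬ b ≡ 1 [MOD l]) : Nat.gcd (b - 1) M ∣ w := by
  refine (Nat.dvd_iff_prime_pow_dvd_dvd _ _).2 fun l k h1 => ?_
  induction k with
  | zero => simp
  | succ k ih =>
    intro h
    have h2 := ih ((pow_dvd_pow l (Nat.le_succ k)).trans h)
    have h3 : l ^ (k + 1) ∣ b - 1 := h.trans (Nat.gcd_dvd_left _ _)
    have h4 : l ^ (k + 1) ∣ M := h.trans (Nat.gcd_dvd_right _ _)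
    have h5 : l ∣ l ^ (k + 1) := dvd_pow_self l (Nat.succ_ne_zero k)
    have h6 : l ≤ B := not_lt.1 fun hB =>
      hl l h1 (h5.trans h4) hB ((Nat.modEq_iff_dvd' hb).2 (h5.trans h3)).symm
    have h7 : l ^ (k + 1) ∣ B.factorial ^ 2 := by
      rw [pow_succ, sq]
      exact mul_dvd_mul (h2.trans hw) (h1.dvd_factorial.2 h6)
    have h8 : 1 ≡ a [MOD l ^ (k + 1)] := ((Nat.modEq_iff_dvd' hb).2 h3).trans (hab.of_dvd h7)
    exact (Nat.dvd_gcd ((Nat.modEq_iff_dvd' ha).1 h8) h4).trans hg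

theorem tors_dvd (K : Type) [Field K] [NumberField K] :
    Units.torsionOrder K ∣ (2 * dg K).factorial := by
  refine (Nat.dvd_iff_prime_pow_dvd_dvd _ _).2 fun l k h1 h2 => ?_
  obtain ⟨z, hz⟩ := IsCyclic.exists_ofOrder_eq_natCard (α := Units.torsion K)
  have hp : IsPrimitiveRoot z (Units.torsionOrder K) := by
    rw [Units.torsionOrder, ← hz]; exact IsPrimitiveRoot.orderOf z
  have hq : IsPrimitiveRoot (algebraMap (𝓞 K) K ((z : (𝓞 K)ˣ) : 𝓞 K)) (Units.torsionOrder K) :=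
    (IsPrimitiveRoot.coe_units_iff.2
      (hp.map_of_injective (f := (Units.torsion K).subtype) Subtype.val_injective)).map_of_injective
        (IsFractionRing.injective (𝓞 K) K)
  have h3 := IsPrimitiveRoot.lcm_totient_le_finrank (K := ℚ) hq hq (by
    rw [Nat.lcm_self]; exact Polynomial.cyclotomic.irreducible_rat (Units.torsionOrder_pos K))
  rw [Nat.lcm_self] at h3
  have h4 := (Nat.le_of_dvd (Nat.totient_pos.2 (Units.torsionOrder_pos K))
    (Nat.totient_dvd_of_dvd h2)).trans h3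
  refine Nat.dvd_factorial (pow_pos h1.pos k) ?_
  rcases k with _ | k
  · have : 0 < dg K := Module.finrank_pos
    simp; omega
  · rw [Nat.totient_prime_pow_succ h1] at h4
    have := h1.two_le
    calc l ^ (k + 1) = l ^ k * l := pow_succ _ _
      _ ≤ l ^ k * (2 * (l - 1)) := Nat.mul_le_mul_left _ (by omega)
      _ = 2 * (l ^ k * (l - 1)) := by ring
      _ ≤ _ := Nat.mul_le_mul_left _ h4

end Pool.Agent.MP_48b1c3_nt.H69
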