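import Pool.Agent.MP_48b1c3_nt.H69.Main
import Pool.Agent.MP_48b1c3_nt.H69.CM

/-! All but finitely many fields of bounded class number. -/

namespace Pool.Agent.MP_48b1c3_nt.H69

open NumberField H91
open scoped nonZeroDivisors

/-- the discriminant form of the theorem -/
theorem disc_form (h : ℕ) : ∃ D : ℕ, ∀ (K : Type) [Field K] [NumberField K] (s : 𝓞 K) (R : Type)
    [CommRing R] [IsDedekindDomain R] [Algebra (𝓞 K) R] [IsLocalization.Away s R],
    Nat.card (ClassGroup R) ≤ h → D ≤ (discr K).natAbs →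
    (IsCMField K → D ≤ (discr (maximalRealSubfield K)).natAbs) → GeneratorsEuclidean K R := by
  obtain ⟨Γ, h1, h2⟩ := main h
  obtain ⟨D, h3⟩ := exists_unit_fg Γ h1
  refine ⟨D, fun K _ _ s R _ _ _ _ g1 g2 g3 => ?_⟩
  obtain ⟨u, hu⟩ := h3 K g2 g3
  exact h2 K s R g1 ⟨u, u.isUnit.map _, hu⟩

/-- the form without the local condition -/
theorem ideal_form (h : ℕ) : ∃ D : ℕ, ∀ (K : Type) [Field K] [NumberField K] (s : 𝓞 K) (R : Type)
    [CommRing R] [IsDedekindDomain R] [Algebra (𝓞 K) R] [IsLocalization.Away s R],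
    Nat.card (ClassGroup R) ≤ h → D ≤ (discr K).natAbs →
    (IsCMField K → D ≤ (discr (maximalRealSubfield K)).natAbs) →
    (IsTotallyComplex K → IsCyclic (ClassGroup (𝓞 K))) →
    (¬ IsTotallyComplex K → Odd (Nat.card (ClassGroup R))) →
    ∀ C : (Ideal R)⁰, Subgroup.zpowers (ClassGroup.mk0 C) = ⊤ →
      EuclideanIdeal ((C : Ideal R) : FractionalIdeal R⁰ (FractionRing R)) := by
  obtain ⟨D, h1⟩ := disc_form h
  refine ⟨D, fun K _ _ s R _ _ _ _ g1 g2 g3 g4 g5 C hC => h1 K s R g1 g2 g3 C hC ?_⟩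
  by_cases hK : IsTotallyComplex K
  · have := g4 hK
    exact cycLocal_of_signCyclic s signCyclic_of_complex C hC
  · refine cycLocal_of_real s (by_contra fun g => hK ⟨fun w =>
      InfinitePlace.not_isReal_iff_isComplex.1 fun e => g ⟨w, e⟩⟩) C ?_
    exact (g5 hK).of_dvd_nat (orderOf_dvd_natCard _)

/-- principal rings of `S`-integers -/
theorem pid_form : ∃ D : ℕ, ∀ (K : Type) [Field K] [NumberField K] (s : 𝓞 K) (R : Type)
    [CommRing R] [IsDedekindDomain R] [Algebra (𝓞 K) R] [IsLocalization.Away s R]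
    [IsPrincipalIdealRing R], D ≤ (discr K).natAbs →
    (IsCMField K → D ≤ (discr (maximalRealSubfield K)).natAbs) →
    (IsTotallyComplex K → IsCyclic (ClassGroup (𝓞 K))) →
    ∃ φ : R → ℕ, ∀ a b : R, b ≠ 0 → ∃ q r : R, a = b * q + r ∧ (r = 0 ∨ φ r < φ b) := by
  obtain ⟨D, h1⟩ := ideal_form 1
  refine ⟨D, fun K _ _ s R _ _ _ _ _ g2 g3 g4 => EuclideanIdeal.ring ?_⟩
  have e : Nat.card (ClassGroup R) = 1 := by
    rw [Nat.card_eq_fintype_card, card_classGroup_eq_one]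
  have := (Nat.card_eq_one_iff_unique.1 e).1
  simpa only [OneMemClass.coe_one, Ideal.one_eq_top, FractionalIdeal.coeIdeal_top] using
    h1 K s R e.le g2 g3 g4 (fun _ => e ▸ odd_one) 1 (Subsingleton.elim (Subgroup.zpowers _) ⊤)

/-- all but finitely many fields of class number one that are not CM are Euclidean -/
theorem finite_exceptions : ∃ D : ℕ, ∀ (K : Type) [Field K] [NumberField K]
    [IsPrincipalIdealRing (𝓞 K)], D ≤ (discr K).natAbs →
    (IsCMField K → D ≤ (discr (maximalRealSubfield K)).natAbs) →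
    ∃ φ : 𝓞 K → ℕ, ∀ a b : 𝓞 K, b ≠ 0 → ∃ q r : 𝓞 K, a = b * q + r ∧ (r = 0 ∨ φ r < φ b) := by
  obtain ⟨D, h1⟩ := pid_form
  refine ⟨D, fun K _ _ _ g2 g3 => ?_⟩
  have : IsLocalization.Away (1 : 𝓞 K) (𝓞 K) :=
    IsLocalization.away_of_isUnit_of_bijective _ isUnit_one Function.bijective_id
  have := Fintype.card_le_one_iff_subsingleton.1 ((classNumber_eq_one_iff (K := K)).2 ‹_›).le
  exact h1 K 1 (𝓞 K) g2 g3 fun _ => inferInstance

end Pool.Agent.MP_48b1c3_nt.H69
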