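import Pool.Agent.MP_48b1c3_nt.Mg.H91_Suff

/-! Definitions for Euclidean rings with finitely many exceptions. -/

namespace Pool.Agent.MP_48b1c3_nt.H69

open Finset NumberField H54 H91 H48 Filter
open scoped Classical nonZeroDivisors Topology

/-- the smoothed Chebyshev function of the weights `f` -/
noncomputable def psi (f : ℕ → ℝ) (x : ℝ) : ℝ :=
  ∑ m ∈ Icc 1 ⌊x⌋₊, f m * bump (Real.log (m / x))

variable {K : Type} [Field K] [NumberField K] {R : Type} [CommRing R] [IsDedekindDomain R]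
  [Algebra (𝓞 K) R]

variable (R) in
/-- same norm modulo `M` and same class in `R` -/
def Rel (M : ℕ) (I J : Ideal (𝓞 K)) : Prop :=
  Ideal.absNorm I ≡ Ideal.absNorm J [MOD M] ∧ cl (ex R I) = cl (ex R J)

variable (R) in
/-- the von Mangoldt function of the ideals related to `J` -/
noncomputable def lamC (M : ℕ) (J : Ideal (𝓞 K)) (m : ℕ) : ℝ :=
  if m = 0 then 0 else ∑ I ∈ idN K m, if Rel R M I J then lam I else 0

variable (K R) in
/-- norms modulo `M` of the ideals whose class in `R` is trivial -/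
def normG (M : ℕ) : Subgroup (ZMod M)ˣ :=
  Subgroup.closure {g | ∃ I : Ideal (𝓞 K), I ≠ ⊥ ∧ cl (ex R I) = 1 ∧
    (g : ZMod M) = (Ideal.absNorm I : ℕ)}

/-- many primes of level `j`, at infinitely many scales -/
def DenseF (s : 𝓞 K) (c : ClassGroup R) (j : ℕ) : Prop :=
  ∃ b : ℝ, 0 < b ∧ ∃ᶠ x : ℕ in atTop, b * x / Real.log x ^ 2 ≤
    {E : Ideal (𝓞 K) | Ideal.absNorm E ≤ x ∧ cl (ex R E) = c ^ j ∧ Lw s c j E}.ncard

/-- few primes of the right class miss the level `j`, at infinitely many scales -/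
def AlmostF (s : 𝓞 K) (c : ClassGroup R) (j : ℕ) : Prop :=
  ∃ C : ℝ, ∃ᶠ x : ℕ in atTop, ({P : Ideal (𝓞 K) | P.IsMaximal ∧ Ideal.absNorm P ≤ x ∧
    cl (ex R P) = c ^ j ∧ ¬ Lw s c j P}.ncard : ℝ) ≤ C * (x : ℝ) ^ (3 / 4 : ℝ)

theorem lamC_bd (M : ℕ) (J : Ideal (𝓞 K)) (m : ℕ) :
    0 ≤ lamC R M J m ∧ lamC R M J m ≤ lamK K m := by
  unfold lamC lamK
  split_ifs
  · exact ⟨le_rfl, le_rfl⟩
  · refine ⟨sum_nonneg fun I _ => ?_, sum_le_sum fun I _ => ?_⟩ <;> split_ifs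
    exacts [lam_nonneg I, le_rfl, le_rfl, lam_nonneg I]

theorem lamC_le (M : ℕ) (J : Ideal (𝓞 K)) (m : ℕ) :
    0 ≤ lamC R M J m ∧ lamC R M J m ≤ dg K * ArithmeticFunction.vonMangoldt m :=
  ⟨(lamC_bd M J m).1, (lamC_bd M J m).2.trans (lamK_le m)⟩

theorem lamC_ne {M : ℕ} {J : Ideal (𝓞 K)} {m : ℕ} (h : lamC R M J m ≠ 0) :
    ∃ I, Ideal.absNorm I = m ∧ Rel R M I J := by
  unfold lamC at h
  split_ifs at h
  · exact absurd rfl h
  obtain ⟨I, h1, h2⟩ := exists_ne_zero_of_sum_ne_zero h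
  exact ⟨I, (mem_idN K).1 h1, not_not.1 fun h3 => h2 (if_neg h3)⟩

theorem prob_congr (L : ℕ → ℝ) {M a b : ℕ} (h : a ≡ b [MOD M]) (x D : ℝ) :
    prob L M a x D = prob L M b x D := by
  have e : Om M a x = Om M b x := filter_congr fun p _ =>
    and_congr_right fun _ => ⟨fun g => g.trans h, fun g => g.trans h.symm⟩
  simp only [prob, e]

/-- a ring of `S`-integers with a unit and an ideal class -/
structure Dat where
  /-- the field -/
  K : Type
  [fK : Field K]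
  [nK : NumberField K]
  /-- the inverted element -/
  s : 𝓞 K
  /-- the ring -/
  R : Type
  [cR : CommRing R]
  [dR : IsDedekindDomain R]
  [aR : Algebra (𝓞 K) R]
  [lR : IsLocalization.Away s R]
  /-- the unit -/
  u : 𝓞 K
  hu : IsUnit (algebraMap (𝓞 K) R u)
  /-- the class -/
  c : ClassGroup R
  hc : ∀ M : ℕ, 0 < M → ∃ I : Ideal (𝓞 K), I ≠ ⊥ ∧ Cop M I ∧ cl (ex R I) = c ∧
    Nat.gcd (Ideal.absNorm I - 1) M ∣ Units.torsionOrder K

attribute [instance] Dat.fK Dat.nK Dat.cR Dat.dR Dat.aR Dat.lR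

end Pool.Agent.MP_48b1c3_nt.H69
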