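import Pool.Agent.MP_48b1c3_nt.H69.Lev

/-! Row 13: Euclidean ideal classes from the levels. -/

namespace Pool.Agent.MP_48b1c3_nt.H69

open Finset NumberField H54 H91 H48 Filter
open scoped Classical nonZeroDivisors Topology

variable {K : Type} [Field K] [NumberField K] {R : Type} [CommRing R] [IsDedekindDomain R]
  [Algebra (𝓞 K) R]

section

variable {s : 𝓞 K} [IsLocalization.Away s R]

theorem good_intF {β : ℝ} (hC : CoreR K β) {c : ClassGroup R} (h : ∀ j, AlmostF s c (j + 2))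
    (hc : ∀ I ≠ ⊥, ∃ j : ℕ, cl I = c ^ j) {A B D : Ideal (𝓞 K)} (a0 : A ≠ ⊥) (b0 : B ≠ ⊥)
    {a : 𝓞 K} (ha : Ideal.span {a} = A * D) (hD : D ⊔ B = ⊤) :
    ∃ (r : 𝓞 K) (E : Ideal (𝓞 K)), r - a ∈ A * B ∧ Ideal.span {r} = A * E ∧
      ∃ j < orderOf c, Lw s c (j + 2) E := by
  have := cls_finite (R := R) s
  obtain ⟨w, hw⟩ := hC
  have n0 : 0 < Ideal.absNorm B := Nat.pos_of_ne_zero fun h => b0 (Ideal.absNorm_eq_zero_iff.1 h)
  have m0 := mul_pos n0 (w + 2).factorial_pos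
  obtain ⟨a', E, e1, e2, e3⟩ := exists_shift a0 b0 ha hD m0
  have e0 : E ≠ ⊥ := by
    rintro rfl
    have h1 := cop_iff.1 e3
    rw [Ideal.absNorm_bot, Nat.coprime_zero_left] at h1
    have := h1 ▸ (Nat.dvd_factorial two_pos (Nat.le_add_left 2 w)).mul_left (Ideal.absNorm B)
    omega
  obtain ⟨α, b, -, b1, hb⟩ := hw _ E m0
    (fun l hl h => (Nat.dvd_factorial hl.pos (by omega)).mul_left _) e0 e3
  obtain ⟨i, hi⟩ := hc _ (ex_ne s e0)
  have o0 := orderOf_pos c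
  have hj : cl (ex R E) = c ^ ((i + 2 * orderOf c - 2) % orderOf c + 2) := by
    rw [pow_add, pow_mod_orderOf, ← pow_add, Nat.sub_add_cancel (by omega), pow_add, pow_mul',
      pow_orderOf_eq_one, one_pow, mul_one, hi]
  obtain ⟨x, x1, x2⟩ := (((h _).many e0 hj b1 hb).and_eventually (eventually_ge_atTop 2)).exists
  have x3 : (2 : ℝ) ≤ x := by exact_mod_cast x2
  have := Real.log_pos (one_lt_two.trans_le x3)
  obtain ⟨U, -, ⟨γ, δ, r1, ⟨s, r2⟩, r3, r4⟩, r5⟩ := Set.nonempty_of_ncard_ne_zero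
    (Nat.cast_pos.1 (lt_of_lt_of_le (by positivity) x1)).ne'
  have e4 : Ideal.span {γ * a'} = Ideal.span {δ} * (A * U) := by
    rw [← Ideal.span_singleton_mul_span_singleton, e2, mul_left_comm, r4, mul_left_comm]
  obtain ⟨r, hr⟩ : δ ∣ γ * a' := Ideal.span_singleton_le_span_singleton.1 (e4 ▸ Ideal.mul_le_left)
  have e5 : Ideal.span {r} = A * U := mul_left_cancel₀
    (mt Ideal.span_singleton_eq_bot.1 (ne_of_nm r3).2)
    (by rw [← e4, hr, Ideal.span_singleton_mul_span_singleton])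
  refine ⟨r, U, ?_, e5, _, Nat.mod_lt _ o0, r5⟩
  obtain ⟨u, v, huv⟩ := cop_span.1 r1
  have m1 : a' ∈ A := dec_mem ((mul_comm _ _).trans e2.symm)
  have m2 : r ∈ A := dec_mem ((mul_comm _ _).trans e5.symm)
  rw [show r - a = (u * s * a' + v * (r - a')) * (Ideal.absNorm B * (w + 2).factorial : ℕ) +
    (a' - a) by linear_combination (a' - r) * huv - u * hr + u * a' * r2]
  refine add_mem (Ideal.mul_mem_mul (A.add_mem (A.mul_mem_left _ m1)
    (A.mul_mem_left _ (A.sub_mem m2 m1))) ?_) e1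
  rw [Nat.cast_mul]
  exact B.mul_mem_right _ (Ideal.absNorm_mem B)

theorem exists_goodF {β : ℝ} (hC : CoreR K β) {c : ClassGroup R} (h : ∀ j, AlmostF s c (j + 2))
    (hc : ∀ I ≠ ⊥, ∃ j : ℕ, cl I = c ^ j) {A B D : Ideal R} (a0 : A ≠ ⊥) (b0 : B ≠ ⊥)
    {a : R} (ha : Ideal.span {a} = A * D) (hD : D ⊔ B = ⊤) :
    ∃ (r : R) (E : Ideal R), r - a ∈ A * B ∧ Ideal.span {r} = A * E ∧
      ∃ j < orderOf c, Lv c (j + 2) E := by
  obtain ⟨a₀, h0⟩ := approx s (mul_ne_zero a0 b0) a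
  have h1 : a₀ ∈ A.comap (algebraMap (𝓞 K) R) := by
    simpa using A.add_mem (Ideal.mul_le_left h0) (gmem ha)
  obtain ⟨D₀, h2⟩ := gex h1
  have n : ∀ {B : Ideal R}, B ≠ ⊥ → B.comap (algebraMap (𝓞 K) R) ≠ ⊥ := fun {B} hB h =>
    hB (by rw [← ex_comap s B, h, ex, Ideal.map_bot])
  have m : ∀ {x : 𝓞 K} {E}, Ideal.span {x} = A.comap (algebraMap (𝓞 K) R) * E →
      Ideal.span {algebraMap (𝓞 K) R x} = A * ex R E := fun h => by
    rw [← ex_span, h, ex, Ideal.map_mul, show Ideal.map _ _ = A from ex_comap s A]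
  have h3 : ex R (D₀ ⊔ B.comap (algebraMap (𝓞 K) R)) = ⊤ := by
    rw [ex, Ideal.map_sup, show Ideal.map _ _ = B from ex_comap s B]
    refine mul_left_cancel₀ a0 (le_antisymm (Ideal.mul_mono_right le_top) ?_)
    rw [← hD, Ideal.mul_sup, Ideal.mul_sup, ← ha, ← m h2]
    refine sup_le ((Ideal.span_singleton_le_iff_mem _).2 ?_) le_sup_right
    simpa only [sub_sub_cancel] using sub_mem (Ideal.mem_sup_left (Ideal.mem_span_singleton_self (algebraMap _ R a₀)))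
      (Ideal.mem_sup_right h0)
  obtain ⟨k, hk⟩ := (mem_ex s (x := 1)).1 (h3 ▸ Submodule.mem_top)
  obtain ⟨u, hu⟩ := comap_cop s b0 k
  obtain ⟨r, E, r1, r2, j, r3, r4⟩ := good_intF hC h hc (n a0) (n b0) h2
    ((Ideal.eq_top_iff_one _).2 (by
      simpa only [mul_one, sub_sub_cancel] using sub_mem (Ideal.mul_mem_right u _ hk) (Ideal.mem_sup_right hu)))
  refine ⟨_, _, ?_, m r2, j, r3, r4.2.2⟩
  have r5 := Ideal.mem_map_of_mem (algebraMap (𝓞 K) R) r1
  rw [Ideal.map_mul, show Ideal.map _ _ = A from ex_comap s A,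
    show Ideal.map _ _ = B from ex_comap s B] at r5
  simpa only [map_sub, sub_add_sub_cancel] using add_mem r5 h0

theorem motzF {β : ℝ} (hC : CoreR K β) {c : ClassGroup R} (h : ∀ j, AlmostF s c (j + 2))
    (hc : ∀ I ≠ ⊥, ∃ j : ℕ, cl I = c ^ j) {A B : Ideal R} (a0 : A ≠ ⊥) (b0 : B ≠ ⊥)
    (hAB : cl A * cl B = c) : Red A B fun U => phi c U < phi c B := by
  intro a a1 a2
  obtain ⟨E, hE⟩ := gex a1
  obtain ⟨B', e1⟩ := Ideal.dvd_iff_le.2 (le_sup_right : B ≤ E ⊔ B)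
  obtain ⟨D, e2⟩ := Ideal.dvd_iff_le.2 (le_sup_left : E ≤ E ⊔ B)
  generalize hG : E ⊔ B = G at e1 e2
  subst e1 e2
  have g0 : G ≠ ⊥ := left_ne_zero_of_mul b0
  have b1 : B' ≠ ⊥ := right_ne_zero_of_mul b0
  have hD : D ⊔ B' = ⊤ := mul_left_cancel₀ g0 (by rw [Ideal.mul_sup, hG, Ideal.mul_top])
  have a3 : A * G ≠ ⊥ := mul_ne_zero a0 g0
  have a4 : Ideal.span {a} = A * G * D := by rw [hE, mul_assoc]
  rw [← mul_assoc] at a2 ⊢
  rw [cl_mul g0 b1, ← mul_assoc, ← cl_mul a0 g0] at hAB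
  suffices H : ∃ r U, r - a ∈ A * G * B' ∧ Ideal.span {r} = A * G * U ∧ phi c U < phi c B' by
    obtain ⟨r, U, r1, r2, r3⟩ := H
    have r0 : U ≠ ⊥ := by
      rintro rfl
      rw [Ideal.mul_bot, Ideal.span_singleton_eq_bot] at r2
      exact a2 (by simpa [r2] using r1)
    refine ⟨r, G * U, r1, by rw [r2, mul_assoc], ?_⟩
    beta_reduce
    rw [phi_mul c g0 r0, phi_mul c g0 b1]
    omega
  have key : 2 * orderOf c + 4 ≤ phi c B' → ∃ r U, r - a ∈ A * G * B' ∧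
      Ideal.span {r} = A * G * U ∧ phi c U < phi c B' := fun k => by
    obtain ⟨r, U, r1, r2, j, r3, r4⟩ := exists_goodF hC h hc a3 b1 a4 hD
    exact ⟨r, U, r1, r2, r4.phi_le.trans_lt (by omega)⟩
  have a5 : a ∈ A * G := gmem a4
  have b2 : B' ≠ ⊤ := by
    rintro rfl
    exact a2 (by rwa [Ideal.mul_top])
  obtain ⟨P, p1, p2⟩ := Ideal.exists_le_maximal _ b2
  obtain ⟨B, rfl⟩ := Ideal.dvd_iff_le.2 p2
  by_cases b3 : B = ⊤
  · subst b3
    rw [Ideal.mul_top] at hAB a2 key b1 b2 ⊢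
    have p3 := phi_max c p1 b1
    have p4 : Lv c (lev c P) P ∨ lev c P = orderOf c + 2 :=
      Nat.sInf_mem (s := {j | Lv c j P ∨ j = orderOf c + 2}) ⟨_, Or.inr rfl⟩
    rcases p4 with g | g
    · obtain ⟨j, hj⟩ : ∃ j, lev c P = j + 1 := Nat.exists_eq_succ_of_ne_zero fun e =>
        b2 (by rw [e] at g; exact g)
      rw [hj] at g
      obtain ⟨r, U, r1, r2, r3⟩ := g.2 _ a3 hAB a a5 a2
      exact ⟨r, U, r1, r2, r3.phi_le.trans_lt (by omega)⟩
    · exact key (by omega)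
  · have := phi_ge c (right_ne_zero_of_mul b1) b3
    refine key ?_
    rw [phi_mul c (left_ne_zero_of_mul b1) (right_ne_zero_of_mul b1),
      phi_max c p1 (left_ne_zero_of_mul b1)]
    omega

end

theorem euclid_of_almostF {s : 𝓞 K} [IsLocalization.Away s R] (C : (Ideal R)⁰)
    (hc : Subgroup.zpowers (ClassGroup.mk0 C) = ⊤)
    (h : ∀ j, AlmostF s (cl (C : Ideal R)) (j + 2)) :
    EuclideanIdeal ((C : Ideal R) : FractionalIdeal R⁰ (FractionRing R)) := by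
  obtain ⟨C, c0⟩ := C
  have hC := core K
  have := cls_finite (R := R) s
  replace c0 : C ≠ ⊥ := mem_nonZeroDivisors_iff_ne_zero.1 c0
  replace hc : Subgroup.zpowers (cl C) = ⊤ := by rwa [cl, dif_pos c0]
  have h1 : ∀ j, AlmostF s (cl C) (j + 2) := h
  change EuclideanIdeal (C : FractionalIdeal R⁰ (FractionRing R))
  have h2 : ∀ I : Ideal R, I ≠ ⊥ → ∃ j : ℕ, cl I = cl C ^ j := fun I _ =>
    (mem_powers_iff_mem_zpowers.2 (hc ▸ Subgroup.mem_top (cl I))).imp fun _ h => h.symm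
  let L := FractionRing R
  obtain ⟨ψ, hψ⟩ : ∃ ψ : FractionalIdeal R⁰ L → ℕ, ∀ B : Ideal R,
      ψ (B : FractionalIdeal R⁰ L)⁻¹ = phi (cl C) B :=
    ⟨fun I => phi (cl C) (Function.invFun (↑) I⁻¹), fun B => by
      beta_reduce
      rw [inv_inv, Function.leftInverse_invFun FractionalIdeal.coeIdeal_injective]⟩
  refine ⟨ψ, fun b hb x x1 x2 => ?_⟩
  have b0 : b ≠ 0 := fun e => zero_lt_one.not_ge (e ▸ hb)
  obtain ⟨B, hB⟩ := FractionalIdeal.le_one_iff_exists_coeIdeal.1 (show b⁻¹ ≤ 1 from by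
    rw [← mul_inv_cancel₀ b0]
    exact le_mul_of_one_le_left' hb)
  obtain rfl : b = (B : FractionalIdeal R⁰ L)⁻¹ := by rw [hB, inv_inv]
  have b1 : (B : FractionalIdeal R⁰ L) ≠ 0 := fun e => b0 (by rw [e, inv_zero])
  have b2 : B ≠ ⊥ := FractionalIdeal.coeIdeal_ne_zero.1 b1
  obtain ⟨t, t3, t0⟩ := Submodule.exists_mem_ne_zero_of_ne_bot b2
  obtain ⟨B', ht⟩ := gex t3
  have t1 : algebraMap R L t ≠ 0 := (map_ne_zero_iff _ (IsFractionRing.injective R L)).2 t0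
  have t2 : Ideal.span {t} ≠ ⊥ := mt Ideal.span_singleton_eq_bot.1 t0
  have b3 : B' ≠ ⊥ := right_ne_zero_of_mul (ht ▸ t2)
  have e1 : B' * C * B = Ideal.span {t} * C := by rw [ht]; ring
  have e2 : FractionalIdeal.spanSingleton R⁰ (algebraMap R L t) = B * B' := by
    rw [← FractionalIdeal.coeIdeal_mul, ← ht, FractionalIdeal.coeIdeal_span_singleton]
  have m1 : ∀ z : R, z ∈ B' * C * B ↔
      algebraMap R L z / algebraMap R L t ∈ (C : FractionalIdeal R⁰ L) := fun z => by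
    rw [e1, Ideal.mem_span_singleton_mul, FractionalIdeal.mem_coeIdeal]
    refine exists_congr fun w => and_congr_right fun _ => ?_
    rw [eq_div_iff t1, ← (IsFractionRing.injective R L).eq_iff, map_mul, mul_comm]
  obtain ⟨a, a1, a2⟩ :
      algebraMap R L t * x ∈ ((B' * C : Ideal R) : FractionalIdeal R⁰ L) := by
    have := FractionalIdeal.mul_mem_mul
      (FractionalIdeal.mem_spanSingleton_self R⁰ (algebraMap R L t)) x1
    rwa [e2, mul_mul_mul_comm, mul_inv_cancel₀ b1, one_mul, ← FractionalIdeal.coeIdeal_mul] at this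
  have a3 : algebraMap R L a / algebraMap R L t = x := by rw [div_eq_iff t1, mul_comm]; exact a2
  obtain ⟨r, U, r1, r2, r3⟩ := motzF hC h1 h2 (mul_ne_zero b3 c0) b2
    (by rw [← cl_mul (mul_ne_zero b3 c0) b2, e1, cl_mul t2 c0, cl_span, one_mul]) a a1
    fun g => x2 (a3 ▸ (m1 a).1 g)
  refine ⟨_, (m1 _).1 r1, ?_⟩
  have e3 : FractionalIdeal.spanSingleton R⁰ (algebraMap R L r) = B' * C * U := by
    rw [← FractionalIdeal.coeIdeal_mul, ← FractionalIdeal.coeIdeal_mul, ← r2,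
      FractionalIdeal.coeIdeal_span_singleton]
  have c1 := FractionalIdeal.coeIdeal_ne_zero (K := L).2 c0
  have b4 := FractionalIdeal.coeIdeal_ne_zero (K := L).2 b3
  rw [show x + algebraMap R L (r - a) / algebraMap R L t = algebraMap R L r / algebraMap R L t by
      rw [← a3, map_sub]; ring,
    ← FractionalIdeal.spanSingleton_div_spanSingleton, e2, e3,
    show ((B' * C * U : FractionalIdeal R⁰ L) / (B * B'))⁻¹ * (↑B)⁻¹ * C = (↑U)⁻¹ by
      rw [inv_div, div_mul_eq_mul_div, div_mul_eq_mul_div, mul_right_comm (B : FractionalIdeal R⁰ L),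
        mul_inv_cancel₀ b1, one_mul, div_mul_cancel_left₀ (mul_ne_zero b4 c1)], hψ, hψ]
  exact r3

end Pool.Agent.MP_48b1c3_nt.H69
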