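import Pool.Agent.MP_48b1c3_nt.H69.Defs

/-! Row 2: characters of norms and classes. -/

namespace Pool.Agent.MP_48b1c3_nt.H69

open Finset NumberField H54 H91 H48 Filter
open scoped Classical nonZeroDivisors Topology

variable {K : Type} [Field K] [NumberField K] {R : Type} [CommRing R] [IsDedekindDomain R]
  [Algebra (𝓞 K) R]

theorem rel_fam (s : 𝓞 K) [IsLocalization.Away s R] {M : ℕ} (hM : 0 < M) :
    ∃ (ι : Type) (_ : Fintype ι) (ξ : ι → Ideal (𝓞 K) → ℂ),
      Fintype.card ι = M.totient * Nat.card (ClassGroup R) ∧ (∀ i, HC M (ξ i)) ∧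
      (∀ i I, I ≠ ⊥ → Cop M I → ‖ξ i I‖ = 1) ∧ (∃ i, ∀ I, I ≠ ⊥ → Cop M I → ξ i I = 1) ∧
      ∀ I J, I ≠ ⊥ → J ≠ ⊥ → Cop M J →
        ∑ i, (ξ i J)⁻¹ * ξ i I = if Rel R M I J then (Fintype.card ι : ℂ) else 0 := by
  have := cls_finite (R := R) s
  let _ := Fintype.ofFinite (ClassGroup R)
  have : NeZero M := ⟨hM.ne'⟩
  have cd : Fintype.card (DirichletCharacter ℂ M × AddChar (Additive (ClassGroup R)) ℂ) =
      M.totient * Nat.card (ClassGroup R) := by
    rw [Fintype.card_prod, AddChar.card_eq, Fintype.card_additive, ← Nat.card_eq_fintype_card,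
      ← Nat.card_eq_fintype_card, DirichletCharacter.card_eq_totient_of_hasEnoughRootsOfUnity]
  have un : ∀ {I : Ideal (𝓞 K)}, Cop M I → IsUnit ((Ideal.absNorm I : ℕ) : ZMod M) := fun h =>
    (ZMod.isUnit_iff_coprime _ _).2 (cop_iff.1 h)
  refine ⟨DirichletCharacter ℂ M × AddChar (Additive (ClassGroup R)) ℂ, inferInstance,
    fun i I => if I = ⊥ then 0 else i.2 (Additive.ofMul (cl (ex R I))) * dir K i.1 I, cd,
    fun ⟨ψ, η⟩ => ?_, fun i I h0 h => ?_, ⟨(1, 0), fun I h0 h => ?_⟩, fun I J i0 j0 hJ => ?_⟩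
  · have H := hc_dir (K := K) hM ψ
    refine ⟨⟨hM, fun I => ?_, fun a a' b α α' p1 p2 p3 p4 => ?_⟩, ?_, fun I J => ?_,
      fun I h => H.cop I fun g => h (by simp only [g, mul_zero, ite_self])⟩
    · dsimp only
      split_ifs
      · simp
      · rw [norm_mul, AddChar.norm_apply, one_mul]
        exact H.le I
    · have a0 := mt Ideal.span_singleton_eq_bot.1 (ne_of_nm p4).1
      have a1 := mt Ideal.span_singleton_eq_bot.1 (ne_of_nm p4).2
      have n1 : a ≠ ⊥ := left_ne_zero_of_mul (p1 ▸ a0)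
      have n2 : a' ≠ ⊥ := left_ne_zero_of_mul (p2 ▸ a1)
      have n3 : b ≠ ⊥ := right_ne_zero_of_mul (p1 ▸ a0)
      have e1 := congrArg cl p1
      have e2 := congrArg cl p2
      rw [cl_mul n1 n3, cl_span] at e1
      rw [cl_mul n2 n3, cl_span] at e2
      dsimp only
      rw [if_neg n1, if_neg n2, H.per a a' b α α' p1 p2 p3 p4,
        cl_ex s n1 n2 (mul_right_cancel (e1.trans e2.symm))]
    · dsimp only
      rw [if_neg top_ne_bot, H.one, ex, Ideal.map_top, cl_top, ofMul_one, AddChar.map_zero_eq_one,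
        one_mul]
    · dsimp only
      by_cases hI : I = ⊥
      · simp only [hI, Ideal.bot_mul, if_true, zero_mul]
      by_cases hJ : J = ⊥
      · simp only [hJ, Ideal.mul_bot, if_true, mul_zero]
      rw [if_neg hI, if_neg hJ, if_neg (show I * J ≠ ⊥ from mul_ne_zero hI hJ), H.mul, ex,
        Ideal.map_mul, cl_mul (ex_ne s hI) (ex_ne s hJ), ofMul_mul, AddChar.map_add_eq_mul]
      ring
  · beta_reduce
    rw [if_neg h0, norm_mul, AddChar.norm_apply, one_mul, dir, ← (un h).unit_spec]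
    exact i.1.unit_norm_eq_one _
  · beta_reduce
    rw [if_neg h0, AddChar.zero_apply, one_mul]
    exact MulChar.one_apply (un h)
  · simp only [if_neg i0, if_neg j0]
    have e : ∀ i : DirichletCharacter ℂ M × AddChar (Additive (ClassGroup R)) ℂ,
        (i.2 (Additive.ofMul (cl (ex R J))) * dir K i.1 J)⁻¹ *
          (i.2 (Additive.ofMul (cl (ex R I))) * dir K i.1 I) =
        (i.1 ((Ideal.absNorm J : ℕ) : ZMod M)⁻¹ * i.1 ((Ideal.absNorm I : ℕ) : ZMod M)) *
          i.2 (-Additive.ofMul (cl (ex R J)) + Additive.ofMul (cl (ex R I))) := fun i => by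
      have h2 : i.1 ((Ideal.absNorm J : ℕ) : ZMod M)⁻¹ = (dir K i.1 J)⁻¹ :=
        eq_inv_of_mul_eq_one_left (by
          rw [dir, ← map_mul, ZMod.inv_mul_of_unit _ (un hJ), map_one])
      rw [AddChar.map_add_eq_mul, AddChar.map_neg_eq_inv, h2, mul_inv, dir, dir]
      ring
    simp only [e]
    rw [cd, Fintype.sum_prod_type]
    simp only [← mul_sum, ← sum_mul]
    rw [AddChar.sum_apply_eq_ite, DirichletCharacter.sum_char_inv_mul_char_eq ℂ (un hJ)]
    simp only [neg_add_eq_zero, Additive.ofMul.apply_eq_iff_eq, ZMod.natCast_eq_natCast_iff,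
      Fintype.card_additive, Rel, Nat.card_eq_fintype_card]
    by_cases c1 : Ideal.absNorm I ≡ Ideal.absNorm J [MOD M]
    · by_cases c2 : cl (ex R I) = cl (ex R J)
      · rw [if_pos c1.symm, if_pos c2.symm, if_pos ⟨c1, c2⟩, Nat.cast_mul]
      · rw [if_neg fun g : cl (ex R J) = cl (ex R I) => c2 g.symm, 
          if_neg fun g : _ ∧ _ => c2 g.2, mul_zero]
    · rw [if_neg fun g : Ideal.absNorm J ≡ Ideal.absNorm I [MOD M] => c1 g.symm,
        if_neg fun g : _ ∧ _ => c1 g.1, zero_mul]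

theorem lamC_eq (s : 𝓞 K) [IsLocalization.Away s R] {M : ℕ} (hM : 0 < M) {J : Ideal (𝓞 K)}
    (h0 : J ≠ ⊥) (hJ : Cop M J) :
    ∃ (ι : Type) (_ : Fintype ι) (ξ : ι → Ideal (𝓞 K) → ℂ),
      Fintype.card ι = M.totient * Nat.card (ClassGroup R) ∧ (∀ i, HC M (ξ i)) ∧
      (∀ i, ‖ξ i J‖ = 1) ∧ (∃ i, ∀ I, I ≠ ⊥ → Cop M I → ξ i I = 1) ∧ ∀ (G : ℕ → ℂ) (x : ℝ),
        ∑ i, (ξ i J)⁻¹ * sm (fun m => pushL (ξ i) m * G m) bmp x =
          sm (fun m => (Fintype.card ι * lamC R M J m : ℝ) * G m) bmp x := by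
  obtain ⟨ι, _, ξ, h, h1, h2, h3, h4⟩ := rel_fam (R := R) s hM
  refine ⟨ι, ‹_›, ξ, h, h1, fun i => h2 i J h0 hJ, h3, fun G x => ?_⟩
  simp only [sm, mul_sum]
  rw [sum_comm]
  refine sum_congr rfl fun m hm => ?_
  have m0 : m ≠ 0 := Nat.one_le_iff_ne_zero.1 (mem_Icc.1 hm).1
  simp only [← mul_assoc, ← sum_mul, pushL, push_apply _ m0, lamC, if_neg m0, mul_sum]
  congr 2
  rw [sum_comm, Complex.ofReal_sum]
  refine sum_congr rfl fun I hI => ?_
  have i0 : I ≠ ⊥ := fun h5 => m0 (by rw [← (mem_idN K).1 hI, h5, Ideal.absNorm_bot])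
  simp only [mul_right_comm _ (lam I : ℂ), ← sum_mul, h4 I J i0 h0 hJ]
  split_ifs <;>
    simp only [Complex.ofReal_mul, Complex.ofReal_natCast, zero_mul, mul_zero, Complex.ofReal_zero]

end Pool.Agent.MP_48b1c3_nt.H69
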