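import Pool.Agent.MP_48b1c3_nt.H69.Defs

/-! Row 9: the lemma of Gupta and Murty across several fields. -/

namespace Pool.Agent.MP_48b1c3_nt.H69

open Finset NumberField H54 H91 H48 Filter
open scoped Classical nonZeroDivisors Topology

theorem norm_dvd_gm {K : Type} [Field K] [NumberField K] {P : Ideal (𝓞 K)} (hP : P.IsMaximal)
    {p : ℕ} (hp : p.Prime) (h : (p : 𝓞 K) ∈ P) {a : 𝓞 K} (ha : a ∈ P) :
    (p : ℤ) ∣ Algebra.norm ℤ a := by
  have h1 : Ideal.absNorm P ∣ p ^ Module.finrank ℤ (𝓞 K) := by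
    have := Ideal.absNorm_dvd_absNorm_of_le ((Ideal.span_singleton_le_iff_mem _).2 h)
    rwa [Ideal.absNorm_span_singleton, show ((p : ℕ) : 𝓞 K) = algebraMap ℤ (𝓞 K) p by simp,
      Algebra.norm_algebraMap, Int.natAbs_pow, Int.natAbs_natCast] at this
  obtain ⟨k, -, hk⟩ := (Nat.dvd_prime_pow hp).1 h1
  have h2 : p ∣ Ideal.absNorm P := by
    rw [hk]
    refine dvd_pow_self _ ?_
    rintro rfl
    exact hP.ne_top (Ideal.absNorm_eq_one_iff.1 (by simpa using hk))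
  have h3 := Ideal.absNorm_dvd_absNorm_of_le ((Ideal.span_singleton_le_iff_mem _).2 ha)
  rw [Ideal.absNorm_span_singleton] at h3
  exact Int.natCast_dvd.2 (h2.trans h3)

/-- Matthews' lemma across several fields, for finite sets of primes -/
theorem matthews_gm {ι : Type} [Fintype ι] (K : ι → Type) [∀ i, Field (K i)]
    [∀ i, NumberField (K i)] (u : ∀ i, 𝓞 (K i)) (hu : ∀ i, u i ≠ 0)
    (hind : ∀ (τ : ∀ i, K i →+* AlgebraicClosure ℚ) (d : ι → ℤ),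
      ∏ i, τ i (u i : K i) ^ d i = 1 → d = 0) {r : ℕ} (hr : 0 < r) :
    ∃ C : ℝ, 0 < C ∧ ∀ Y : ℝ, 1 ≤ Y → ∀ F : Finset ℕ, (∀ p ∈ F, p.Prime ∧ ∃ m : ℕ, 0 < m ∧
      (m : ℝ) ≤ Y ∧ ∃ S : Finset ι, r ≤ #S ∧ ∀ i ∈ S, (p : ℤ) ∣ Algebra.norm ℤ (u i ^ m - 1)) →
      (#F : ℝ) ≤ C * Y ^ (1 + 1 / (r : ℝ)) := by
  let Ω := AlgebraicClosure ℚ
  let A : Set Ω := Set.range fun x : Σ i, (K i →ₐ[ℚ] Ω) => x.2 (u x.1 : K x.1)
  have hA : ∀ (i : ι) (σ : K i →ₐ[ℚ] Ω), IsIntegral ℤ (σ (u i : K i)) := fun i σ =>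
    (u i).isIntegral_coe.map (σ : K i →+* Ω).toIntAlgHom
  let N := IntermediateField.adjoin ℚ A
  have : Finite A := Set.finite_range _
  have : FiniteDimensional ℚ N := IntermediateField.finiteDimensional_adjoin (by
    rintro _ ⟨x, rfl⟩
    exact (hA x.1 x.2).tower_top)
  have : NumberField N := ⟨⟩
  have hv : ∀ (i : ι) (σ : K i →ₐ[ℚ] Ω), ∃ v : 𝓞 N, ((v : N) : Ω) = σ (u i : K i) := fun i σ =>
    ⟨⟨⟨σ (u i : K i), IntermediateField.subset_adjoin _ _ ⟨⟨i, σ⟩, rfl⟩⟩,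
      (isIntegral_algHom_iff (N.val : N →+* Ω).toIntAlgHom N.val.injective).1 (hA i σ)⟩, rfl⟩
  choose v hv using hv
  let φ : 𝓞 N →+* Ω := (algebraMap N Ω).comp (algebraMap (𝓞 N) N)
  have φi : Function.Injective φ := (algebraMap N Ω).injective.comp RingOfIntegers.coe_injective
  have φv : ∀ i σ, φ (v i σ) = σ (u i : K i) := hv
  have v0 : ∀ i σ, v i σ ≠ 0 := fun i σ h => by
    have := φv i σ
    rw [h, map_zero, eq_comm, map_eq_zero] at this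
    exact hu i (RingOfIntegers.coe_injective (by simpa using this))
  have hn : ∀ (i : ι) (m : ℕ), ((Algebra.norm ℤ (u i ^ m - 1) : ℤ) : 𝓞 N) =
      ∏ σ : K i →ₐ[ℚ] Ω, (v i σ ^ m - 1) := fun i m => φi (by
    have h1 := Algebra.norm_eq_prod_embeddings ℚ Ω ((u i ^ m - 1 : 𝓞 (K i)) : K i)
    rw [← Algebra.coe_norm_int] at h1
    rw [map_intCast, map_prod]
    simp only [map_sub, map_pow, map_one, φv]
    simpa using h1)
  have hQ : ∀ p : ℕ, ∃ Q : Ideal (𝓞 N), p.Prime → Q.IsMaximal ∧ (p : 𝓞 N) ∈ Q := fun p => by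
    by_cases hp : p.Prime
    · obtain ⟨Q, q1, q2⟩ := Ideal.exists_le_maximal (Ideal.span {(p : 𝓞 N)}) (fun h => by
        have h1 := congrArg Ideal.absNorm h
        rw [Ideal.absNorm_span_singleton, show ((p : ℕ) : 𝓞 N) = algebraMap ℤ (𝓞 N) p by simp,
          Algebra.norm_algebraMap, Int.natAbs_pow, Int.natAbs_natCast, Ideal.absNorm_top] at h1
        exact (Nat.one_lt_pow Module.finrank_pos.ne' hp.one_lt).ne' h1)
      exact ⟨Q, fun _ => ⟨q1, (Ideal.span_singleton_le_iff_mem _).1 q2⟩⟩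
    · exact ⟨⊤, fun h => (hp h).elim⟩
  choose Q hQ using hQ
  have Qi : ∀ p q : ℕ, p.Prime → q.Prime → Q p = Q q → p = q := fun p q hp hq e => by
    by_contra h
    obtain ⟨a, b, hab⟩ : IsCoprime (p : 𝓞 N) q := by
      simpa using (Nat.isCoprime_iff_coprime.2 ((Nat.coprime_primes hp hq).2 h)).map
        (Int.castRingHom (𝓞 N))
    exact (hQ p hp).1.isPrime.one_notMem (hab ▸ add_mem ((Q p).mul_mem_left _ (hQ p hp).2)
      ((Q p).mul_mem_left _ (e ▸ (hQ q hq).2)))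
  have hM := fun x : (Fin r ↪ ι) × (∀ i, K i →ₐ[ℚ] Ω) =>
    H48.matthews (K := N) hr (u := fun j => v (x.1 j) (x.2 (x.1 j))) (w := fun _ => 1)
      (fun j => v0 _ _) (fun _ => one_ne_zero) fun d hd => by
        have h1 := hind (fun i => x.2 i) (Function.extend x.1 d 0) (by
          have h2 := congrArg (algebraMap N Ω) hd
          rw [map_prod, map_one] at h2
          rw [← h2, ← prod_subset (subset_univ (univ.map x.1)) fun i _ hi => by
            rw [Function.extend_apply' _ _ _ (by simpa using hi)]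
            simp, prod_map]
          refine prod_congr rfl fun j _ => ?_
          rw [x.1.injective.extend_apply, map_zpow₀]
          congr 1
          simpa using (hv _ _).symm)
        funext j
        simpa [x.1.injective.extend_apply] using congrFun h1 (x.1 j)
  choose C C0 hC using hM
  refine ⟨∑ x, C x + 1, by have := sum_nonneg fun x (_ : x ∈ univ) => (C0 x).le; linarith,
    fun Y hY F hF => ?_⟩
  have key : F ⊆ univ.biUnion fun x : (Fin r ↪ ι) × (∀ i, K i →ₐ[ℚ] Ω) => F.filter fun p =>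
      ∃ m : ℕ, 0 < m ∧ (m : ℝ) ≤ Y ∧ ∀ j, v (x.1 j) (x.2 (x.1 j)) ^ m - 1 ∈ Q p := fun p hp => by
    obtain ⟨p1, m, m0, m1, S, s1, s2⟩ := hF p hp
    have h1 : ∀ i, ∃ σ : K i →ₐ[ℚ] Ω, i ∈ S → v i σ ^ m - 1 ∈ Q p := fun i => by
      by_cases hi : i ∈ S
      · obtain ⟨c, hc⟩ := s2 i hi
        have h2 : ∏ σ : K i →ₐ[ℚ] Ω, (v i σ ^ m - 1) ∈ Q p := by
          rw [← hn, hc]
          push_cast
          exact (Q p).mul_mem_right _ (hQ p p1).2
        have := (hQ p p1).1.isPrime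
        obtain ⟨σ, -, h3⟩ := Ideal.IsPrime.prod_mem_iff.1 h2
        exact ⟨σ, fun _ => h3⟩
      · exact ⟨IsAlgClosed.lift, fun h => (hi h).elim⟩
    choose τ hτ using h1
    obtain ⟨e, he⟩ : ∃ e : Fin r ↪ ι, ∀ j, e j ∈ S := by
      obtain ⟨f⟩ := Function.Embedding.nonempty_of_card_le (α := Fin r) (β := S) (by simpa using s1)
      exact ⟨f.trans (Function.Embedding.subtype _), fun j => (f j).2⟩
    exact mem_biUnion.2 ⟨(e, τ), mem_univ _, mem_filter.2 ⟨hp, m, m0, m1, fun j => hτ _ (he j)⟩⟩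
  have Y0 : 0 ≤ Y ^ (1 + 1 / (r : ℝ)) := Real.rpow_nonneg (by linarith) _
  refine (Nat.cast_le.2 ((card_le_card key).trans card_biUnion_le)).trans ?_
  rw [Nat.cast_sum, add_mul, sum_mul]
  refine le_add_of_le_of_nonneg (sum_le_sum fun x _ => ?_) (by positivity)
  rw [← card_image_of_injOn (f := Q) fun p hp q hq e =>
    Qi p q (hF p (mem_filter.1 hp).1).1 (hF q (mem_filter.1 hq).1).1 e]
  refine hC x Y hY _ fun P hP => ?_
  obtain ⟨p, hp, rfl⟩ := mem_image.1 hP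
  obtain ⟨p1, m, m0, m1, m2⟩ := mem_filter.1 hp
  have q := (hQ p (hF p p1).1).1
  exact ⟨q, fun _ => q.isPrime.one_notMem, m, m0, m1, fun j => by simpa using m2 j⟩

theorem gm_multi {ι : Type} [Fintype ι] (K : ι → Type) [∀ i, Field (K i)]
    [∀ i, NumberField (K i)] (u : ∀ i, 𝓞 (K i)) (hu : ∀ i, u i ≠ 0)
    (hind : ∀ (τ : ∀ i, K i →+* AlgebraicClosure ℚ) (d : ι → ℤ),
      ∏ i, τ i (u i) ^ d i = 1 → d = 0) {r : ℕ} (hr : 0 < r) :
    ∃ C : ℝ, ∀ Y : ℝ, 1 ≤ Y → ∀ T : Finset ℕ,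
      (∀ p ∈ T, p.Prime ∧ ∃ m : ℕ, 0 < m ∧ (m : ℝ) ≤ Y ∧ ∃ S : Finset ι, r ≤ #S ∧ ∀ i ∈ S,
        ∃ P : Ideal (𝓞 (K i)), P.IsMaximal ∧ (p : 𝓞 (K i)) ∈ P ∧ u i ^ m - 1 ∈ P) →
      (#T : ℝ) ≤ C * Y ^ (1 + 1 / (r : ℝ)) := by
  obtain ⟨C, -, hC⟩ := matthews_gm K u hu hind hr
  refine ⟨C, fun Y hY T hT => hC Y hY T fun p hp => ?_⟩
  obtain ⟨p1, m, m0, m1, S, s1, s2⟩ := hT p hp
  refine ⟨p1, m, m0, m1, S, s1, fun i hi => ?_⟩
  obtain ⟨P, q1, q2, q3⟩ := s2 i hi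
  exact norm_dvd_gm q1 p1 q2 q3

end Pool.Agent.MP_48b1c3_nt.H69
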