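import Pool.Agent.MP_48b1c3_nt.H69.Defs

/-! Row 11: Harper's lemma at infinitely many scales. -/

namespace Pool.Agent.MP_48b1c3_nt.H69

open Finset NumberField H54 H91 H48 Filter
open scoped Classical nonZeroDivisors Topology

theorem harperb_pt {K : Type} [Field K] [NumberField K] {G : Ideal (𝓞 K) → Prop}
    (hG : ∀ J, G J → ∃ α ≠ 0, J = Ideal.span {α}) {u : 𝓞 K}
    (u0 : u ≠ 0) (hu : ∀ d : ℤ, (u : K) ^ d = 1 → d = 0)
    (hGu : ∀ r, G (Ideal.span {r}) → G (Ideal.span {u * r})) {c : ℝ} (hc : 0 < c) :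
    ∃ C : ℝ, 0 ≤ C ∧ ∀ᶠ m : ℕ in atTop,
      c * ((m ^ 4) ^ dg K : ℕ) / Real.log ((m ^ 4) ^ dg K : ℕ) ^ 2 ≤
        {P : Ideal (𝓞 K) | Ideal.absNorm P ≤ (m ^ 4) ^ dg K ∧ G P}.ncard →
      ({P : Ideal (𝓞 K) | P.IsMaximal ∧ Ideal.absNorm P ≤ m ∧ ¬ B2 G u P}.ncard : ℝ) ≤
        C * (m : ℝ) ^ (3 / 4 : ℝ) := by
  obtain ⟨C₁, hC₁, hM⟩ := matthews (K := K) one_pos (u := fun _ => u) (w := fun _ => 1)
    (fun _ => u0) (fun _ => one_ne_zero) fun d hd =>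
      funext fun i => hu _ (by simpa only [Subsingleton.elim i 0, Fin.isValue, univ_unique, Fin.default_eq_zero, map_one, div_one, prod_singleton] using hd)
  obtain ⟨D, hD, hA⟩ := harperb_cube hG
  have hn := dg_pos K
  set n := dg K with hnd
  obtain ⟨b, hb⟩ : ∃ b : ℝ, b = c / (4 * n) ^ 2 := ⟨_, rfl⟩
  obtain ⟨B, hB⟩ : ∃ B : ℝ, B = (2 * D) ^ n := ⟨_, rfl⟩
  have b0 : 0 < b := by rw [hb]; positivity
  have B0 : 0 < B := by rw [hB]; positivity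
  refine ⟨C₁ + 2 * B / b, by positivity, ?_⟩
  have t2 : Tendsto (fun m : ℕ => (m : ℝ) ^ (1 / 12 : ℝ)) atTop atTop :=
    (tendsto_rpow_atTop (by norm_num)).comp tendsto_natCast_atTop_atTop
  filter_upwards [harperb_log, t2.eventually_ge_atTop 1,
    t2.eventually_ge_atTop (2 * (4 * 2 ^ n * B) / b), eventually_ge_atTop 2] with m hL hw hW hm h1
  have m2 : (2 : ℝ) ≤ m := by exact_mod_cast hm
  have e9 : (m : ℝ) ^ (3 / 4 : ℝ) = ((m : ℝ) ^ (1 / 12 : ℝ)) ^ 9 := by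
    rw [← Real.rpow_natCast, ← Real.rpow_mul (by positivity)]
    norm_num
  have e12 : ((m : ℝ) ^ (1 / 12 : ℝ)) ^ 12 = m := by
    rw [← Real.rpow_natCast, ← Real.rpow_mul (by positivity)]
    norm_num
  rw [e9]
  generalize (m : ℝ) ^ (1 / 12 : ℝ) = w at hL hw hW e12 ⊢
  have w0 : 0 < w := one_pos.trans_le hw
  have hf : {P : Ideal (𝓞 K) | P.IsMaximal ∧ Ideal.absNorm P ≤ m ∧ ¬ B2 G u P}.Finite :=
    (Ideal.finite_setOfPred_absNorm_le m).subset fun P hP => hP.2.1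
  rw [Set.ncard_eq_toFinset_card _ hf, ← card_filter_add_card_filter_not (s := hf.toFinset)
    fun P => ∃ j : ℕ, 0 < j ∧ (j : ℝ) ≤ w ^ 4 ∧ (u : 𝓞 K) ^ j - 1 ∈ P, Nat.cast_add, add_mul]
  refine add_le_add ((hM (w ^ 4) (one_le_pow₀ hw) _ fun P hP => ?_).trans ?_) ?_
  · obtain ⟨hP, j, j1, j2, j3⟩ := mem_filter.1 hP
    have hP' := (hf.mem_toFinset.1 hP).1
    exact ⟨hP', fun _ => (Ideal.ne_top_iff_one P).1 hP'.ne_top, j, j1, j2, fun _ => by simpa⟩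
  · rw [Nat.cast_one, div_one, one_add_one_eq_two, Real.rpow_two, ← pow_mul]
    exact mul_le_mul_of_nonneg_left (pow_le_pow_right₀ hw (by norm_num)) hC₁.le
  generalize hX : (hf.toFinset.filter fun P =>
    ¬ ∃ j : ℕ, 0 < j ∧ (j : ℝ) ≤ w ^ 4 ∧ (u : 𝓞 K) ^ j - 1 ∈ P) = X
  have hX' : ∀ P ∈ X, (P.IsMaximal ∧ Ideal.absNorm P ≤ m ∧ ¬ B2 G u P) ∧
      ¬ ∃ j : ℕ, 0 < j ∧ (j : ℝ) ≤ w ^ 4 ∧ (u : 𝓞 K) ^ j - 1 ∈ P := fun P hP => by
    rw [← hX, mem_filter] at hP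
    exact ⟨hf.mem_toFinset.1 hP.1, hP.2⟩
  obtain ⟨c₀, hc₀⟩ := hA (m ^ 4) (by positivity)
  have hV := variance X
    (fun P => {y | ∀ r, Ideal.Quotient.mk P r = y → ¬ G (Ideal.span {r})})
    (fun P hP => ⟨(hX' P hP).1.1, (hX' P hP).1.2.1⟩) c₀ _ (filter_subset
      (fun a => G (Ideal.span {el K a + c₀})) (cb (Ix K) (2 * D * m ^ 4)))
    fun a ha P _ hy => hy _ rfl (mem_filter.1 ha).2
  have hμ : ∀ P ∈ X, 1 ≤ ({y | ∀ r, Ideal.Quotient.mk P r = y →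
      ¬ G (Ideal.span {r})}.ncard / Ideal.absNorm P : ℝ) * w ^ 8 := fun P hP => by
    obtain ⟨⟨p1, p2, p3⟩, p4⟩ := hX' P hP
    have q1 := harperb_omega p1 p3 hGu (k := ⌊w ^ 4⌋₊) fun j j1 j2 j3 =>
      p4 ⟨j, j1, (Nat.le_floor_iff (by positivity)).1 j2, j3⟩
    have q2 := (Nat.lt_floor_add_one (w ^ 4)).le.trans
      ((Nat.cast_succ _).ge.trans (Nat.cast_le.2 q1))
    have q3 : (0 : ℝ) < Ideal.absNorm P := by
      simpa only [Nat.cast_pos, NN, prod_singleton] using one_pos.trans_le (one_le_NN (D := {P}) (by simpa using p1))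
    have q4 : (Ideal.absNorm P : ℝ) ≤ w ^ 4 * w ^ 8 := by
      rw [← pow_add, e12]
      exact_mod_cast p2
    rw [div_mul_eq_mul_div, one_le_div q3]
    exact q4.trans (mul_le_mul_of_nonneg_right q2 (by positivity))
  have hμ' := sum_le_sum hμ
  rw [← sum_mul, sum_const, nsmul_one] at hμ'
  have hA' := h1.trans (Nat.cast_le.2 hc₀)
  have μ0 : 0 ≤ ∑ P ∈ X, ({y | ∀ r, Ideal.Quotient.mk P r = y →
      ¬ G (Ideal.span {r})}.ncard / Ideal.absNorm P : ℝ) := sum_nonneg fun _ _ => by positivity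
  generalize ∑ P ∈ X, ({y | ∀ r, Ideal.Quotient.mk P r = y →
      ¬ G (Ideal.span {r})}.ncard / Ideal.absNorm P : ℝ) = μ at hV hμ' μ0
  generalize (#(filter (fun a => G (Ideal.span {el K a + c₀}))
    (cb (Ix K) (2 * D * m ^ 4))) : ℝ) = a at hV hA'
  push_cast at hV hA'
  rw [← hnd] at hV
  have k0 : 0 < ((m : ℝ) ^ 4) ^ n := by positivity
  have L0 : 0 < Real.log m := Real.log_pos (one_lt_two.trans_le m2)
  have D1 : (1 : ℝ) ≤ D := by exact_mod_cast hD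
  refine harperb_arith (a := a / (m ^ 4) ^ n) b0 B0.le hw hW μ0 (by positivity) hμ' ?_ ?_
  · rw [le_div_iff₀ k0]
    refine le_trans ?_ hA'
    rw [Real.log_pow, Real.log_pow, hb, div_div, div_mul_eq_mul_div]
    refine div_le_div_of_nonneg_left (by positivity) (by positivity) ?_
    calc _ = (4 * n) ^ 2 * Real.log m ^ 2 := by push_cast; ring
      _ ≤ _ := by gcongr
  · have r1 : (2 * D * (m : ℝ) ^ 4) ^ n = B * (m ^ 4) ^ n := by rw [hB, mul_pow]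
    have r2 : (2 * D * (m : ℝ) ^ 4 + m ^ 2) ^ n ≤ B * (m ^ 4) ^ n * (1 + 1 / m ^ 2) ^ n := by
      rw [← r1, ← mul_pow]
      refine pow_le_pow_left₀ (by positivity) ?_ _
      rw [show 2 * D * (m : ℝ) ^ 4 * (1 + 1 / m ^ 2) = 2 * D * m ^ 4 + 2 * D * m ^ 2 by
        field_simp]
      exact add_le_add_right (le_mul_of_one_le_left (by positivity) (by linarith only [D1])) _
    have r3 := harperb_pow (ε := 1 / m ^ 2) (by positivity)
      (div_le_one_of_le₀ (one_le_pow₀ (one_le_two.trans m2)) (by positivity)) n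
    have r4 : (2 * D * (m : ℝ) ^ 4 + m ^ 2) ^ n - B * (m ^ 4) ^ n ≤
        B * (m ^ 4) ^ n * (2 ^ n * (1 / m ^ 2)) := by
      have := mul_le_mul_of_nonneg_left r3 (mul_pos B0 k0).le
      linarith only [this, r2]
    rw [r1] at hV
    rw [div_mul_eq_mul_div, div_le_iff₀ k0, show w ^ 24 = (m : ℝ) ^ 2 by rw [← e12]; ring]
    refine hV.trans ((add_le_add_right
      (mul_le_mul_of_nonneg_left r4 (by positivity)) _).trans_eq ?_)
    ring

theorem harperF {K : Type} [Field K] [NumberField K] {G : Ideal (𝓞 K) → Prop}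
    (hG : ∀ J, G J → ∃ α ≠ 0, J = Ideal.span {α}) {u : 𝓞 K}
    (u0 : u ≠ 0) (hu : ∀ d : ℤ, (u : K) ^ d = 1 → d = 0)
    (hGu : ∀ r, G (Ideal.span {r}) → G (Ideal.span {u * r})) {c : ℝ} (hc : 0 < c)
    (h : ∃ᶠ x : ℕ in atTop, c * x / Real.log x ^ 2 ≤
      {P : Ideal (𝓞 K) | Ideal.absNorm P ≤ x ∧ G P}.ncard) :
    ∃ C : ℝ, ∃ᶠ m : ℕ in atTop,
      ({P : Ideal (𝓞 K) | P.IsMaximal ∧ Ideal.absNorm P ≤ m ∧ ¬ B2 G u P}.ncard : ℝ) ≤
        C * (m : ℝ) ^ (3 / 4 : ℝ) := by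
  have hn := dg_pos K
  obtain ⟨C, -, hC⟩ := harperb_pt hG u0 hu hGu (c := c / (2 ^ 4) ^ dg K) (by positivity)
  refine ⟨C, (Frequently.and_eventually ?_ hC).mono fun m g => g.2 g.1⟩
  refine frequently_atTop.2 fun a => ?_
  obtain ⟨x, x1, x2⟩ := frequently_atTop.1 h (((a + 1) ^ 4) ^ dg K + 2)
  have ex : ∃ m : ℕ, x ≤ (m ^ 4) ^ dg K :=
    ⟨x, (Nat.le_self_pow four_ne_zero x).trans (Nat.le_self_pow hn.ne' _)⟩
  have m1 := Nat.find_spec ex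
  have m2 : a + 1 < Nat.find ex := by
    by_contra g
    have := m1.trans (Nat.pow_le_pow_left (Nat.pow_le_pow_left (not_lt.1 g) 4) (dg K))
    omega
  obtain ⟨k, hk⟩ : ∃ k, Nat.find ex = k + 1 := ⟨Nat.find ex - 1, by omega⟩
  have m3 := not_le.1 (Nat.find_min ex (m := k) (by omega))
  rw [hk] at m1 m2
  have m4 : ((k + 1) ^ 4) ^ dg K ≤ (2 ^ 4) ^ dg K * x := by
    refine le_trans ?_ (Nat.mul_le_mul_left _ m3.le)
    rw [← mul_pow, ← mul_pow]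
    exact Nat.pow_le_pow_left (Nat.pow_le_pow_left (by omega) 4) _
  refine ⟨k + 1, by omega, le_trans ?_ (x2.trans (Nat.cast_le.2 (Set.ncard_le_ncard
    (fun P g => ⟨g.1.trans m1, g.2⟩) ((finite_norm_le _).subset fun P g => g.1))))⟩
  have x3 : (2 : ℝ) ≤ x := by exact_mod_cast le_of_add_le_right x1
  have l0 := Real.log_pos (one_lt_two.trans_le x3)
  generalize ((k + 1) ^ 4) ^ dg K = y at m1 m4
  have y1 : (x : ℝ) ≤ y := by exact_mod_cast m1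
  have y2 : (y : ℝ) ≤ (2 ^ 4) ^ dg K * x := by exact_mod_cast m4
  refine div_le_div₀ (by positivity) ?_ (by positivity) (by gcongr)
  rw [div_mul_eq_mul_div, mul_div_assoc]
  gcongr
  rwa [div_le_iff₀' (by positivity)]

end Pool.Agent.MP_48b1c3_nt.H69
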