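import Pool.Agent.MP_48b1c3_nt.H69.IndexA

/-! Row 6: the index of the norm group. -/

namespace Pool.Agent.MP_48b1c3_nt.H69

open Finset NumberField H54 H91 H48 Filter
open scoped Classical nonZeroDivisors Topology

variable {K : Type} [Field K] [NumberField K] {R : Type} [CommRing R] [IsDedekindDomain R]
  [Algebra (𝓞 K) R]

omit [NumberField K] in
theorem cl_mul_idx (s : 𝓞 K) [IsLocalization.Away s R] {I J : Ideal (𝓞 K)} (hI : I ≠ ⊥)
    (hJ : J ≠ ⊥) : cl (ex R (I * J)) = cl (ex R I) * cl (ex R J) := by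
  rw [ex, Ideal.map_mul]
  exact cl_mul (ex_ne s hI) (ex_ne s hJ)

omit [NumberField K] in
theorem cl_pow_idx (s : 𝓞 K) [IsLocalization.Away s R] {I : Ideal (𝓞 K)} (hI : I ≠ ⊥) (k : ℕ) :
    cl (ex R (I ^ k)) = cl (ex R I) ^ k := by
  rw [ex, Ideal.map_pow]
  exact cl_pow (ex_ne s hI) k

theorem mem_normG (s : 𝓞 K) [IsLocalization.Away s R] {M : ℕ} (hM : 0 < M) {g : (ZMod M)ˣ} :
    g ∈ normG K R M ↔ ∃ I : Ideal (𝓞 K), I ≠ ⊥ ∧ cl (ex R I) = 1 ∧
      (g : ZMod M) = (Ideal.absNorm I : ℕ) := by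
  have : NeZero M := ⟨hM.ne'⟩
  refine ⟨fun h => ?_, fun h => Subgroup.subset_closure h⟩
  induction h using Subgroup.closure_induction with
  | mem x hx => exact hx
  | one => exact ⟨⊤, top_ne_bot, by rw [ex, Ideal.map_top, cl_top], by simp⟩
  | mul x y _ _ hx hy =>
    obtain ⟨I, i0, i1, i2⟩ := hx
    obtain ⟨J, j0, j1, j2⟩ := hy
    exact ⟨I * J, mul_ne_zero i0 j0, by rw [cl_mul_idx s i0 j0, i1, j1, mul_one], by
      rw [Units.val_mul, i2, j2, map_mul, Nat.cast_mul]⟩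
  | inv x _ hx =>
    obtain ⟨I, i0, i1, i2⟩ := hx
    obtain ⟨k, hk⟩ := mem_powers_iff_mem_zpowers.2 (inv_mem (Subgroup.mem_zpowers x))
    exact ⟨I ^ k, pow_ne_zero k i0, by rw [cl_pow_idx s i0, i1, one_pow], by
      rw [← hk, Units.val_pow_eq_pow_val, i2, map_pow, Nat.cast_pow]⟩

theorem pow_mem_normG {M n : ℕ} (hM : 0 < M) (hn : dg K ≤ n) (y : (ZMod M)ˣ) :
    y ^ n.factorial ∈ normG K R M := by
  have : NeZero M := ⟨hM.ne'⟩
  obtain ⟨k, hk⟩ := Nat.dvd_factorial (dg_pos K) hn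
  obtain ⟨a, a0, ha⟩ : ∃ a : ℕ, 0 < a ∧ (a : ZMod M) = y :=
    ⟨(y : ZMod M).val + M, by omega, by simp⟩
  refine Subgroup.subset_closure ⟨Ideal.span {((a ^ k : ℕ) : 𝓞 K)},
    mt Ideal.span_singleton_eq_bot.1 (Nat.cast_ne_zero.2 (by positivity)),
    by rw [ex_span, cl_span], ?_⟩
  rw [Ideal.absNorm_span_natCast, RingOfIntegers.rank, Units.val_pow_eq_pow_val, ← ha, hk,
    ← pow_mul, mul_comm k, Nat.cast_pow]

theorem index_le (s : 𝓞 K) [IsLocalization.Away s R] {M : ℕ} (hM : 0 < M) (hB : BB ℚ ∣ M) :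
    (normG K R M).index ≤ 600 * dg K * Nat.card (ClassGroup R) := by
  have : NeZero M := ⟨hM.ne'⟩
  have := cls_finite (R := R) s
  have h1 := norm_card K hM hB
  generalize hN : {g : (ZMod M)ˣ | ∃ I : Ideal (𝓞 K), I ≠ ⊥ ∧
    (g : ZMod M) = (Ideal.absNorm I : ℕ)} = N at h1
  have hf : ∀ g : (ZMod M)ˣ, ∃ I : Ideal (𝓞 K), g ∈ N → I ≠ ⊥ ∧
      (g : ZMod M) = (Ideal.absNorm I : ℕ) := fun g => by
    by_cases h : g ∈ N
    · rw [← hN] at h
      exact h.imp fun _ h _ => h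
    · exact ⟨⊤, fun h' => (h h').elim⟩
  choose f hf using hf
  obtain ⟨c, hc⟩ : ∃ c : (ZMod M)ˣ → ClassGroup R, ∀ g, c g = cl (ex R (f g)) := ⟨_, fun _ => rfl⟩
  obtain ⟨e, he⟩ : ∃ e, Nat.card (ClassGroup R) = e + 1 :=
    Nat.exists_eq_succ_of_ne_zero Nat.card_pos.ne'
  have h2 : N.ncard ≤ ((Set.univ : Set (ClassGroup R)) ×ˢ
      (normG K R M : Set (ZMod M)ˣ)).ncard := by
    refine Set.ncard_le_ncard_of_injOn (fun g => (c g, Function.invFunOn c N (c g) ^ e * g))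
      (fun g hg => ⟨trivial, ?_⟩) (fun g _ g' _ h => ?_) (Set.toFinite _)
    · have r1 : Function.invFunOn c N (c g) ∈ N := Function.invFunOn_mem ⟨g, hg, rfl⟩
      have r2 : c (Function.invFunOn c N (c g)) = c g := Function.invFunOn_eq ⟨g, hg, rfl⟩
      generalize Function.invFunOn c N (c g) = r at r1 r2
      refine Subgroup.subset_closure ⟨f r ^ e * f g, mul_ne_zero (pow_ne_zero e (hf r r1).1)
        (hf g hg).1, ?_, ?_⟩
      · rw [cl_mul_idx s (pow_ne_zero e (hf r r1).1) (hf g hg).1, cl_pow_idx s (hf r r1).1, ← hc,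
          ← hc, r2, ← pow_succ, ← he, pow_card_eq_one']
      · rw [Units.val_mul, Units.val_pow_eq_pow_val, (hf r r1).2, (hf g hg).2, map_mul, map_pow,
          Nat.cast_mul, Nat.cast_pow]
    · obtain ⟨e1, e2⟩ := Prod.mk.inj h
      rw [e1] at e2
      exact mul_left_cancel e2
  rw [Set.ncard_prod, Set.ncard_univ, ← Nat.card_coe_set_eq] at h2
  have h3 : (normG K R M).index * Nat.card (normG K R M) = M.totient := by
    rw [Subgroup.index_mul_card, Nat.card_eq_fintype_card, ZMod.card_units_eq_totient]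
  refine Nat.le_of_mul_le_mul_right (c := Nat.card (normG K R M)) ?_ Nat.card_pos
  rw [h3, mul_assoc]
  exact h1.trans (Nat.mul_le_mul_left _ h2)

end Pool.Agent.MP_48b1c3_nt.H69
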