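import Pool.Agent.MP_48b1c3_nt.H69.Defs

/-! Row 1: Mertens' lower bound and good scales. -/

namespace Pool.Agent.MP_48b1c3_nt.H69

open Finset NumberField H54 H91 H48 Filter
open scoped Classical nonZeroDivisors Topology

theorem mertens_lower (K : Type) [Field K] [NumberField K] : ∃ C : ℝ, ∀ y : ℝ, 2 ≤ y →
    Real.log y / 2 - C ≤ ∑ d ∈ Icc 1 ⌊y⌋₊, lamK K d / d := by
  obtain ⟨C1, p1, h1⟩ := cheb_main K test_bmp
  obtain ⟨C2, p2, h2⟩ := cheb_main K (v := fun u => u * bmp u)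
    (Test.mul test_bmp Complex.ofRealCLM.contDiff)
  obtain ⟨ρ, hρ, e⟩ := kap_one K
  have hc := fun (y : ℝ) (hy : 0 < y) => cheb_conv (K := K) hy
  have hJ := norm_pos_iff.2 cheb_J
  have hu := fun (y : ℝ) (hy : 0 ≤ y) => cheb_upper (K := K) hy
  rw [e] at h1 h2
  generalize (∫ u : ℝ, bmp u * Real.exp u) = J at h1 hJ
  generalize (∫ u : ℝ, (u * bmp u) * Real.exp u) = J2 at h2
  generalize sm (push fun _ : Ideal (𝓞 K) => 1) bmp = A at h1 hc
  generalize sm (push fun _ : Ideal (𝓞 K) => 1) (fun u => u * bmp u) = A2 at h2 hc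
  generalize dg K * (Real.log 4 + 4) = c1 at hu
  have nm1 (J : ℂ) (t : ℝ) (ht : 0 ≤ t) : ‖(ρ : ℂ) * t * J‖ = ρ * ‖J‖ * t := by
    rw [norm_mul, norm_mul, Complex.norm_real, Complex.norm_real, Real.norm_of_nonneg hρ.le,
      Real.norm_of_nonneg ht]
    ring
  have q := mul_pos hρ hJ
  refine ⟨(C1 + ρ * ‖J2‖ + C2 + C1 * c1) / (ρ * ‖J‖), fun y hy => ?_⟩
  have y0 : 0 < y := by linarith
  have y1 : 1 ≤ y := by linarith
  have l0 := Real.log_nonneg y1
  have s3 : ‖∑ d ∈ Icc 1 ⌊y⌋₊, (lamK K d : ℂ) * A (y / d)‖ ≤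
      ρ * ‖J‖ * y * ∑ d ∈ Icc 1 ⌊y⌋₊, lamK K d / d + C1 * ∑ d ∈ Icc 1 ⌊y⌋₊, lamK K d := by
    rw [mul_sum, mul_sum, ← sum_add_distrib]
    refine norm_sum_le_of_le _ fun d hd => ?_
    obtain ⟨d1, d2⟩ := mem_Icc.1 hd
    have d0 : (0 : ℝ) < d := Nat.cast_pos.2 d1
    have t1 : 1 ≤ y / d := (one_le_div d0).2 ((Nat.le_floor_iff y0.le).1 d2)
    have a1 := norm_le_norm_add_norm_sub' (A (y / d)) (ρ * (y / d : ℝ) * J)
    have a2 := (h1 _ t1).trans (div_le_self p1.le t1)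
    rw [nm1 J _ (by positivity)] at a1
    rw [norm_mul, Complex.norm_real, Real.norm_of_nonneg (lamK_nonneg d)]
    refine (mul_le_mul_of_nonneg_left (a1.trans (add_le_add le_rfl a2)) (lamK_nonneg d)).trans
      (le_of_eq ?_)
    ring
  rw [hc y y0] at s3
  have b1 := norm_le_norm_add_norm_sub' (A2 y) (ρ * y * J2)
  have b2 := (h2 y y1).trans (div_le_self p2.le y1)
  rw [nm1 J2 y y0.le] at b1
  have b3 := norm_le_norm_add_norm_sub (A y) (ρ * y * J)
  have b4 := h1 y y1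
  rw [nm1 J y y0.le] at b3
  have b5 := norm_le_add_norm_add (Real.log y * A y) (A2 y)
  rw [add_comm (Real.log y * A y), norm_mul, Complex.norm_real, Real.norm_of_nonneg l0] at b5
  have b6 : Real.log y * (C1 / y) ≤ C1 := by
    rw [mul_div_assoc', div_le_iff₀ y0, mul_comm]
    exact mul_le_mul_of_nonneg_left (Real.log_le_self y0.le) p1.le
  have b7 := mul_le_mul_of_nonneg_left (b3.trans (add_le_add le_rfl b4)) l0
  have b8 := mul_le_mul_of_nonneg_left (hu y y0.le) p1.le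
  have b9 := le_mul_of_one_le_right p1.le y1
  have b10 := le_mul_of_one_le_right p2.le y1
  have b11 : 0 ≤ ρ * ‖J‖ * y * Real.log y := by positivity
  generalize ∑ d ∈ Icc 1 ⌊y⌋₊, lamK K d / d = S at s3 ⊢
  rw [sub_le_comm, le_div_iff₀ q]
  refine le_of_mul_le_mul_right ?_ y0
  nlinarith only [s3, b1, b2, b5, b6, b7, b8, b9, b10, b11]

theorem step_mert {F : ℕ → ℝ} (h0 : ∀ m, 0 ≤ F m) (k : ℕ) :
    ∑ d ∈ Icc 1 (4 ^ (k + 1)), F d / d ≤
      ∑ d ∈ Icc 1 (4 ^ k), F d / d + psi F ((3 * 4 ^ (k + 1) : ℕ) : ℝ) / 4 ^ k := by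
  have p0 : 0 < 4 ^ k := by positivity
  have e : Icc 1 (4 ^ (k + 1)) = Icc 1 (4 ^ k) ∪ Ioc (4 ^ k) (4 ^ (k + 1)) := by
    ext d
    simp only [mem_union, mem_Icc, mem_Ioc, pow_succ]
    omega
  rw [e, sum_union (disjoint_left.2 fun d h1 h2 => (mem_Icc.1 h1).2.not_gt (mem_Ioc.1 h2).1), psi,
    Nat.floor_natCast, sum_div]
  refine add_le_add le_rfl (le_trans (sum_le_sum fun d hd => ?_)
    (sum_le_sum_of_subset_of_nonneg (s := Ioc (4 ^ k) (4 ^ (k + 1))) (fun d hd => ?_)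
      fun d _ _ => div_nonneg (mul_nonneg (h0 d) bump.nonneg) (by positivity)))
  · obtain ⟨d1, d2⟩ := mem_Ioc.1 hd
    have r1 : (4 : ℝ) ^ k < d := by exact_mod_cast d1
    have r2 : (d : ℝ) ≤ 4 ^ (k + 1) := by exact_mod_cast d2
    have r0 : (0 : ℝ) < 4 ^ k := by positivity
    have d0 : (0 : ℝ) < d := r0.trans r1
    rw [pow_succ] at r2
    have x1 := Real.add_one_le_exp 1
    have x2 := Real.exp_one_lt_d9
    have x3 := Real.exp_one_gt_d9
    rw [bump_eq_one, mul_one]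
    · exact div_le_div_of_nonneg_left (h0 d) r0 r1.le
    · rw [Real.le_log_iff_exp_le (by positivity), Real.exp_neg, le_div_iff₀ (by positivity),
        inv_mul_le_iff₀ (Real.exp_pos _),
        show Real.exp 3 = Real.exp 1 ^ 3 by rw [← Real.exp_nat_mul]; norm_num]
      have x4 : (12 : ℝ) ≤ Real.exp 1 ^ 3 :=
        le_trans (by norm_num) (pow_le_pow_left₀ (by norm_num) x3.le 3)
      push_cast
      rw [pow_succ]
      nlinarith
    · rw [Real.log_le_iff_le_exp (by positivity), Real.exp_neg, div_le_iff₀ (by positivity),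
        le_inv_mul_iff₀ (Real.exp_pos _)]
      push_cast
      rw [pow_succ]
      nlinarith
  · obtain ⟨d1, d2⟩ := mem_Ioc.1 hd
    exact mem_Icc.2 ⟨by omega, by omega⟩

theorem scales {ι : Type} [Fintype ι] (f : ι → ℕ → ℝ) (h0 : ∀ i m, 0 ≤ f i m)
    (h : ∀ i, ∃ C : ℝ, ∀ y : ℝ, 2 ≤ y → Real.log y / 2 - C ≤ ∑ d ∈ Icc 1 ⌊y⌋₊, f i d / d) :
    ∃ᶠ x : ℕ in atTop, (Fintype.card ι : ℝ) * x / 50 ≤ ∑ i, psi (f i) x := by
  rcases isEmpty_or_nonempty ι with hι | hι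
  · exact Frequently.of_forall fun x => by simp
  choose C hC using h
  rw [Filter.Frequently]
  intro hn
  obtain ⟨k0, hk⟩ := eventually_atTop.1 hn
  have n1 : (1 : ℝ) ≤ Fintype.card ι := by exact_mod_cast Fintype.card_pos
  have e1 : ∑ _i : ι, (1 : ℝ) = Fintype.card ι := by simp
  generalize (Fintype.card ι : ℝ) = n at hk n1 e1
  have up : ∀ j : ℕ, ∑ i, ∑ d ∈ Icc 1 (4 ^ (k0 + 1 + j)), f i d / d ≤
      ∑ i, ∑ d ∈ Icc 1 (4 ^ (k0 + 1)), f i d / d + j * (n * 12 / 50) := by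
    intro j
    induction j with
    | zero => simp
    | succ j ih =>
      have a1 := sum_le_sum fun i (_ : i ∈ univ) => step_mert (h0 i) (k0 + 1 + j)
      have a2 := (not_le.1 (hk (3 * 4 ^ (k0 + 1 + j + 1)) (by
        have := Nat.lt_pow_self (n := k0 + 1 + j + 1) (show 1 < 4 by norm_num)
        omega))).le
      rw [sum_add_distrib, ← sum_div] at a1
      have a3 := div_le_div_of_nonneg_right a2 (show (0 : ℝ) ≤ 4 ^ (k0 + 1 + j) by positivity)
      have a4 : n * ((3 * 4 ^ (k0 + 1 + j + 1) : ℕ) : ℝ) / 50 / 4 ^ (k0 + 1 + j) = n * 12 / 50 := by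
        push_cast
        rw [pow_succ]
        field_simp
        norm_num
      rw [← add_assoc, Nat.cast_succ]
      linarith only [a1, a3, a4, ih]
  obtain ⟨j, hj⟩ := exists_nat_gt
    (4 * (∑ i, ∑ d ∈ Icc 1 (4 ^ (k0 + 1)), f i d / d + ∑ i, C i))
  have a1 := sum_le_sum fun i (_ : i ∈ univ) => hC i ((4 ^ (k0 + 1 + j) : ℕ) : ℝ) (by
    have : 4 ^ 1 ≤ 4 ^ (k0 + 1 + j) := Nat.pow_le_pow_right (by norm_num) (by omega)
    exact_mod_cast le_trans (by norm_num) this)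
  simp only [Nat.floor_natCast] at a1
  rw [sum_sub_distrib, ← one_mul (Real.log _ / 2), ← sum_mul, e1] at a1
  have a2 : (j : ℝ) ≤ Real.log ((4 ^ (k0 + 1 + j) : ℕ) : ℝ) := by
    have l4 : 1 ≤ Real.log 4 := by
      rw [Real.le_log_iff_exp_le (by norm_num)]
      linarith [Real.exp_one_lt_d9]
    push_cast
    rw [Real.log_pow]
    push_cast
    nlinarith [Nat.cast_nonneg (α := ℝ) k0, Nat.cast_nonneg (α := ℝ) j]
  have a3 := up j
  have j0 := Nat.cast_nonneg (α := ℝ) j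
  nlinarith [mul_le_mul_of_nonneg_left a2 (zero_le_one.trans n1), mul_le_mul_of_nonneg_left n1 j0]

end Pool.Agent.MP_48b1c3_nt.H69
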