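import Pool.Agent.MP_48b1c3_nt.H69.Rat
import Pool.Agent.MP_48b1c3_nt.H69.Mert

/-! Row 6a: many residues are norms. -/

namespace Pool.Agent.MP_48b1c3_nt.H69

open Finset NumberField H54 H91 H48 Filter
open scoped Classical nonZeroDivisors Topology

theorem psi_le_ia (K : Type) [Field K] [NumberField K] {M : ℕ} (hM : 0 < M)
    (F : Finset (ZMod M)ˣ) (hF : ∀ g : (ZMod M)ˣ, (∃ I : Ideal (𝓞 K), I ≠ ⊥ ∧
      (g : ZMod M) = (Ideal.absNorm I : ℕ)) → g ∈ F) {x : ℝ} (x4 : M * Real.exp 4 ≤ x) :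
    psi (lamK K) x ≤ dg K * ∑ g ∈ F, (prob (fun m => Real.log m) M (g : ZMod M).val x 0).X +
      ∑ m ∈ Icc 1 ⌊x⌋₊, if m.Prime then 0 else lamK K m := by
  have x0 : 0 < x := lt_of_lt_of_le (by positivity) x4
  have n0 : (0 : ℝ) ≤ dg K := Nat.cast_nonneg _
  simp only [psi, prob, Om, sum_filter]
  rw [sum_comm, mul_sum, ← sum_add_distrib]
  refine sum_le_sum fun m _ => ?_
  have l0 := lamK_nonneg (K := K) m
  have t0 : ∀ g ∈ F, 0 ≤ if m.Prime ∧ m ≡ (g : ZMod M).val [MOD M] then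
      |Real.log m| * bump (Real.log (m / x)) else 0 := fun g _ => by
    split_ifs
    exacts [mul_nonneg (abs_nonneg _) bump.nonneg, le_rfl]
  have s0 := mul_nonneg n0 (sum_nonneg t0)
  by_cases c2 : m.Prime
  · rw [if_pos c2, add_zero]
    by_cases c1 : m.Coprime M
    · by_cases c3 : lamK K m = 0
      · rwa [c3, zero_mul]
      have hg : ZMod.unitOfCoprime m c1 ∈ F := by
        rw [lamK, if_neg c2.ne_zero] at c3
        obtain ⟨I, h1, -⟩ := exists_ne_zero_of_sum_ne_zero c3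
        have h2 := (mem_idN K).1 h1
        refine hF _ ⟨I, fun e => c2.ne_zero ?_, by rw [h2, ZMod.coe_unitOfCoprime]⟩
        rw [← h2, e, Ideal.absNorm_bot]
      refine le_trans ?_ (mul_le_mul_of_nonneg_left (single_le_sum t0 hg) n0)
      rw [if_pos ⟨c2, by
        rw [ZMod.coe_unitOfCoprime, ZMod.val_natCast]
        exact (Nat.mod_modEq _ _).symm⟩, ← mul_assoc]
      refine mul_le_mul_of_nonneg_right ((lamK_le m).trans ?_) bump.nonneg
      rw [ArithmeticFunction.vonMangoldt_apply_prime c2]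
      exact mul_le_mul_of_nonneg_left (le_abs_self _) n0
    · have m1 : (m : ℝ) ≤ M := Nat.cast_le.2 (Nat.le_of_dvd hM (c2.dvd_iff_not_coprime.2 c1))
      have m0 : (0 : ℝ) < m := Nat.cast_pos.2 c2.pos
      refine le_trans (le_of_eq ?_) s0
      rw [bump_eq_zero (Or.inl ((Real.log_le_iff_le_exp (by positivity)).2 ?_)), mul_zero]
      rw [Real.exp_neg, div_le_iff₀ x0, inv_mul_eq_div, le_div_iff₀ (Real.exp_pos 4)]
      exact (mul_le_mul_of_nonneg_right m1 (Real.exp_pos 4).le).trans x4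
  · rw [if_neg c2]
    exact (mul_le_of_le_one_right l0 bump.le_one).trans (le_add_of_nonneg_left s0)

theorem norm_card (K : Type) [Field K] [NumberField K] {M : ℕ} (hM : 0 < M) (hB : BB ℚ ∣ M) :
    M.totient ≤ 600 * dg K * {g : (ZMod M)ˣ | ∃ I : Ideal (𝓞 K), I ≠ ⊥ ∧
      (g : ZMod M) = (Ideal.absNorm I : ℕ)}.ncard := by
  have : NeZero M := ⟨hM.ne'⟩
  set S := {g : (ZMod M)ˣ | ∃ I : Ideal (𝓞 K), I ≠ ⊥ ∧ (g : ZMod M) = (Ideal.absNorm I : ℕ)}
  have h1 := scales (ι := Unit) (fun _ => lamK K) (fun _ m => lamK_nonneg m)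
    fun _ => mertens_lower K
  have h2 : ∀ᶠ x : ℝ in atTop, ∀ g : (ZMod M)ˣ, ∀ D : ℝ,
      M.totient * (prob (fun m => Real.log m) M (g : ZMod M).val x D).X ≤ 6 * x :=
    eventually_all.2 fun g => rat_mass hM hB (ZMod.val_coe_unit_coprime g)
  obtain ⟨x, x1, ⟨x2, x3⟩, x4⟩ := (h1.and_eventually (tendsto_natCast_atTop_atTop.eventually
    ((h2.and (cheb_np K (show (0 : ℝ) < 1 / 100 by norm_num))).and
      (eventually_ge_atTop (M * Real.exp 4))))).exists
  have x0 : (0 : ℝ) < x := lt_of_lt_of_le (by positivity) x4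
  have n0 : (0 : ℝ) ≤ dg K := Nat.cast_nonneg _
  have p0 : (0 : ℝ) ≤ M.totient := Nat.cast_nonneg _
  have a1 := psi_le_ia K hM S.toFinset (fun g hg => Set.mem_toFinset.2 hg) x4
  have a2 := x3 x le_rfl
  have a3 : (M.totient : ℝ) * ∑ g ∈ S.toFinset,
      (prob (fun m => Real.log m) M (g : ZMod M).val x 0).X ≤ S.ncard * (6 * x) := by
    rw [mul_sum, Set.ncard_eq_toFinset_card', ← nsmul_eq_mul]
    exact sum_le_card_nsmul _ _ _ fun g _ => x2 g 0
  simp only [Fintype.card_unit, Nat.cast_one, one_mul, univ_unique, sum_singleton] at x1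
  generalize ∑ g ∈ S.toFinset, (prob (fun m => Real.log m) M (g : ZMod M).val x 0).X = T at a1 a3
  have a4 : (x : ℝ) / 100 ≤ dg K * T := by linarith only [a1, a2, x1]
  have a5 : (M.totient : ℝ) * x ≤ 600 * dg K * S.ncard * x := by
    nlinarith only [mul_le_mul_of_nonneg_left a4 p0, mul_le_mul_of_nonneg_left a3 n0]
  exact_mod_cast le_of_mul_le_mul_right a5 x0

end Pool.Agent.MP_48b1c3_nt.H69
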