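import Pool.Agent.MP_48b1c3_nt.H69.Defs

/-! Row 10: one prime of degree one; few large prime factors. -/

namespace Pool.Agent.MP_48b1c3_nt.H69

open Finset NumberField H54 H91 H48 Filter
open scoped Classical nonZeroDivisors Topology

theorem pigeon {ι : Type} (S : Finset ι) {p r : ℕ} {x α : ℝ} (hα : 0 < α) (hp : 1 < p)
    (hx : (p : ℝ) ≤ x) (l : ι → ℕ) (hl : ∀ i ∈ S, (l i).Prime ∧ l i ∣ p - 1 ∧ x ^ α ≤ l i)
    (hr : 0 < r) (hS : r / α ≤ #S) : ∃ q : ℕ, q.Prime ∧ q ∣ p - 1 ∧ x ^ α ≤ q ∧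
      r ≤ #(S.filter fun i => l i = q) := by
  by_contra hc
  push Not at hc
  have hT : ∀ q ∈ S.image l, q.Prime ∧ q ∣ p - 1 ∧ x ^ α ≤ q := fun q hq => by
    obtain ⟨i, hi, rfl⟩ := mem_image.1 hq
    exact hl i hi
  have p1 : (1 : ℝ) < p := by exact_mod_cast hp
  have x1 : 1 < x := p1.trans_le hx
  have h1 : ∏ q ∈ S.image l, q ∣ p - 1 :=
    Finset.prod_primes_dvd _ (fun q hq => (hT q hq).1.prime) fun q hq => (hT q hq).2.1
  have h2 : ((∏ q ∈ S.image l, q : ℕ) : ℝ) < x := by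
    refine lt_of_lt_of_le ?_ hx
    exact_mod_cast (Nat.le_of_dvd (by omega) h1).trans_lt (by omega)
  have h3 : x ^ (α * #(S.image l)) < x ^ (1 : ℝ) := by
    rw [Real.rpow_one, Real.rpow_mul_natCast (by linarith), ← prod_const]
    refine lt_of_le_of_lt ?_ h2
    rw [Nat.cast_prod]
    exact prod_le_prod (fun q _ => by positivity) fun q hq => (hT q hq).2.2
  have h4 := (Real.rpow_lt_rpow_left_iff x1).1 h3
  have h5 : #S ≤ r * #(S.image l) := card_le_mul_card_image S r fun q hq =>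
    (hc q (hT q hq).1 (hT q hq).2.1 (hT q hq).2.2).le
  have h6 : (#S : ℝ) ≤ r * #(S.image l) := by exact_mod_cast h5
  have r0 : (0 : ℝ) < r := by exact_mod_cast hr
  rw [div_le_iff₀ hα] at hS
  nlinarith [mul_le_mul_of_nonneg_right h6 hα.le, mul_lt_mul_of_pos_left h4 r0]

variable {K : Type} [Field K] [NumberField K] {R : Type} [CommRing R] [IsDedekindDomain R]
  [Algebra (𝓞 K) R]

theorem lw_one_local (s : 𝓞 K) [IsLocalization.Away s R] {W : Subgroup Kˣ} (w2 : W ≤ sUnits K R)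
    {c : ClassGroup R} {I : Ideal (𝓞 K)} (g1 : I.IsMaximal) (g8 : s ∉ I) (g5 : cl (ex R I) = c)
    (g6 : (red W I).index ∣ 1) : Lw s c 1 I := by
  have g0 := ex_ne (R := R) s
    (Ring.ne_bot_of_isMaximal_of_not_isField g1 (RingOfIntegers.not_isField K))
  refine ⟨g1, g8, ⟨ex_max s g1 g8, g0⟩,
    fun A a0 a1 => Red.transfer a0 top_ne_bot ?_ fun a _ a2 => ?_⟩
  · rw [cl_top]
    exact mul_eq_right.1 (g5 ▸ a1)
  · rw [Ideal.top_mul] at a2 ⊢
    obtain ⟨a₀, h0⟩ := approx s g0 a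
    obtain ⟨u, v, u1, ⟨w, hw⟩, e⟩ := b1_of_index w2 g1 g6 (x := a₀) fun g =>
      a2 (by simpa using (ex R I).sub_mem (Ideal.mem_map_of_mem _ g) h0)
    refine ⟨algebraMap _ R u * (w⁻¹ : Rˣ), ⊤, ?_, by
      rw [Ideal.top_mul, Ideal.span_singleton_eq_top.2 (u1.mul (Units.isUnit _))], rfl⟩
    convert (ex R I).sub_mem h0 ((ex R I).mul_mem_right ↑w⁻¹ (Ideal.mem_map_of_mem _ e))
      using 1
    rw [map_sub, map_mul, ← hw, sub_mul, Units.mul_inv_cancel_right]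
    ring

theorem local_step (s : 𝓞 K) [IsLocalization.Away s R] {u : 𝓞 K}
    (hu : IsUnit (algebraMap (𝓞 K) R u)) (c : ClassGroup R) : ∃ Z : ℕ, 0 < Z ∧ ∀ M b : ℕ, Z ∣ M →
      (∀ l : ℕ, l.Prime → l ∣ M → Units.torsionOrder K * l ∣ M) → 0 < b → b.Coprime M →
      Nat.gcd (b - 1) M ∣ Units.torsionOrder K → ∀ P : Ideal (𝓞 K), (Ideal.absNorm P).Prime →
      Ideal.absNorm P ≡ b [MOD M] → cl (ex R P) = c → Lw s c 1 P ∨ ∃ l : ℕ, l.Prime ∧ ¬ l ∣ M ∧
        l ∣ Ideal.absNorm P - 1 ∧ u ^ ((Ideal.absNorm P - 1) / l) - 1 ∈ P := by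
  obtain ⟨ζ, z1, z2⟩ := unitsW_root (K := K)
  have t0 := Units.torsionOrder_pos K
  have s0 := s_ne (R := R) s
  have u0 : u ≠ 0 := fun h => hu.ne_zero (by rw [h, map_zero])
  refine ⟨Ideal.absNorm (Ideal.span {s * u}) * Units.torsionOrder K,
    Nat.mul_pos (Nat.pos_of_ne_zero fun h => mul_ne_zero s0 u0
      (Ideal.span_singleton_eq_bot.1 (Ideal.absNorm_eq_zero_iff.1 h))) t0,
    fun M b hZ hl b0 b1 b2 P p1 p2 p3 => ?_⟩
  have c1 : (Ideal.absNorm P).Coprime M := by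
    rw [Nat.Coprime, p2.gcd_eq]
    exact b1
  have p4 : P.IsMaximal := (Ideal.isPrime_of_irreducible_absNorm p1).isMaximal fun h =>
    p1.ne_zero (Ideal.absNorm_eq_zero_iff.2 h)
  have p5 : s * u ∉ P := fun h => p1.one_lt.ne' (c1.eq_one_of_dvd
    ((Ideal.absNorm_dvd_absNorm_of_le ((Ideal.span_singleton_le_iff_mem _).2 h)).trans
      ((dvd_mul_right _ _).trans hZ)))
  let v : Kˣ := Units.mk0 (u : K) (RingOfIntegers.coe_ne_zero_iff.2 u0)
  have w2 : unitsW K ⊔ Subgroup.zpowers v ≤ sUnits K R := by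
    refine sup_le ?_ (Subgroup.zpowers_le.2 ⟨u, 1, hu, by simp, by simp [v]⟩)
    rintro _ ⟨w, rfl⟩
    exact ⟨w, 1, w.isUnit.map _, by simp, by simp⟩
  have w3 : ζ ∈ unitsW K ⊔ Subgroup.zpowers v := Subgroup.mem_sup_left z1
  have w4 : v ∈ unitsW K ⊔ Subgroup.zpowers v := Subgroup.mem_sup_right (Subgroup.mem_zpowers v)
  generalize unitsW K ⊔ Subgroup.zpowers v = W at w2 w3 w4
  by_cases g6 : (red W P).index ∣ 1
  · exact .inl (lw_one_local s w2 p4 (fun h => p5 (P.mul_mem_right u h)) p3 g6)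
  have g7 := card_red_mul (W := W) p4
  have g9 := p1.one_lt
  obtain ⟨l, l1, l4⟩ := gal_exp (by rintro h; rw [h] at g7; omega) one_ne_zero g6
  obtain ⟨k, l2⟩ := (dvd_pow_self l (Nat.succ_ne_zero _)).trans l4
  refine .inr ⟨l, l1, fun l3 => ?_, g7 ▸ l2 ▸ (dvd_mul_right l k).mul_left _, ?_⟩
  · exact index_arith g7 g9 (dvd_card_red p4 t0 w3 z2
      (c1.coprime_dvd_right ((dvd_mul_left _ _).trans hZ))) (by simpa using t0) l1
      (by simpa only [one_mul] using hl l l1 l3) b0 p2 (by simpa only [one_mul] using b2) l4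
  · have e := pow_card_red p4 w4 (a := u) (b := 1) (fun h => p5 (P.mul_mem_left s h))
      ((Ideal.ne_top_iff_one P).1 p4.ne_top) (by simp [v])
    rw [one_pow] at e
    rw [← g7, l2, mul_left_comm, Nat.mul_div_cancel_left _ l1.pos, pow_mul]
    obtain ⟨d, hd⟩ := sub_one_dvd_pow_sub_one (u ^ Nat.card (red W P)) k
    exact hd ▸ P.mul_mem_right d e

end Pool.Agent.MP_48b1c3_nt.H69
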