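import Pool.Agent.MP_48b1c3_nt.H69.Index
import Pool.Agent.MP_48b1c3_nt.H69.Common
import Pool.Agent.MP_48b1c3_nt.H69.Avg
import Pool.Agent.MP_48b1c3_nt.H69.GM
import Pool.Agent.MP_48b1c3_nt.H69.Local

/-! Row 14: among many fields one has many primes of level one. -/

namespace Pool.Agent.MP_48b1c3_nt.H69

open Finset NumberField H54 H91 H48 Filter
open scoped Classical nonZeroDivisors Topology

theorem key_class {n h : ℕ} {ι : Type} [Fintype ι] (D : ι → Dat) (hn : ∀ i, dg (D i).K ≤ n)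
    (hh : ∀ i, Nat.card (ClassGroup (D i).R) ≤ h) {M B : ℕ} (hM : 0 < M) (hB : BB ℚ ∣ M)
    (h1 : n.factorial + 1 ≤ B) (h2 : 2 * n ≤ B) (hQ : B.factorial ^ 2 ∣ M) :
    ∃ (b : ℕ) (I : Finset ι), Fintype.card ι ≤ 600 * n * h * B.factorial ^ 2 * #I ∧ 0 < b ∧
      b.Coprime M ∧ ∀ i ∈ I, Nat.gcd (b - 1) M ∣ Units.torsionOrder (D i).K ∧
        ∃ J : Ideal (𝓞 (D i).K), J ≠ ⊥ ∧ Cop M J ∧ Ideal.absNorm J ≡ b [MOD M] ∧
          cl (ex (D i).R J) = (D i).c := by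
  have : NeZero M := ⟨hM.ne'⟩
  choose A a0 a1 a2 a3 using fun i => (D i).hc M hM
  obtain ⟨b, I, b1, b2, b3⟩ := common (N := 600 * n * h) hM n.factorial_pos h1 hQ
    (fun i => normG (D i).K (D i).R M)
    (fun i => (index_le (D i).s hM hB).trans (by gcongr; exacts [hn i, hh i]))
    (fun i => pow_mem_normG hM (hn i)) fun i => ZMod.unitOfCoprime _ (cop_iff.1 (a1 i))
  have c1 := ZMod.val_coe_unit_coprime b
  have f2 : 2 ∣ M := ((Nat.dvd_factorial two_pos (by have := n.factorial_pos; omega)).trans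
    (dvd_pow_self _ two_ne_zero)).trans hQ
  have b0 : 0 < (b : ZMod M).val := Nat.pos_of_ne_zero fun e => by
    rw [e, Nat.coprime_zero_left] at c1
    omega
  refine ⟨_, I, b1, b0, c1, fun i hi => ⟨?_, ?_⟩⟩
  · refine gcd_dvd hM ((tors_dvd _).trans (Nat.factorial_dvd_factorial
      ((Nat.mul_le_mul_left 2 (hn i)).trans h2))) hQ (Nat.pos_of_ne_zero fun e =>
        a0 i (Ideal.absNorm_eq_zero_iff.1 e)) b0 (a3 i) ((b2 i hi).2.trans ?_) b3
    rw [ZMod.coe_unitOfCoprime, ZMod.val_natCast]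
    exact (Nat.mod_modEq _ _).of_dvd hQ
  · obtain ⟨E, e0, e1, e2⟩ := (mem_normG (D i).s hM).1 (b2 i hi).1
    have e3 : Ideal.absNorm (A i * E) ≡ (b : ZMod M).val [MOD M] := by
      rw [← ZMod.natCast_eq_natCast_iff, map_mul, Nat.cast_mul, ← e2, ZMod.natCast_zmod_val,
        ← ZMod.coe_unitOfCoprime _ (cop_iff.1 (a1 i)), ← Units.val_mul, mul_inv_cancel_left]
    refine ⟨A i * E, mul_ne_zero (a0 i) e0, cop_iff.2 ?_, e3, ?_⟩
    · rw [Nat.Coprime, e3.gcd_eq]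
      exact c1
    · rw [ex, Ideal.map_mul, cl_mul (ex_ne (D i).s (a0 i)) (ex_ne (D i).s e0), a2, e1, mul_one]

theorem key_mul {w B M l : ℕ} (hw : w ∣ B.factorial) (hQ : B.factorial ^ 2 ∣ M) (hl : l.Prime)
    (h : l ∣ M) : w * l ∣ M := by
  by_cases g : l ≤ B
  · exact (mul_dvd_mul hw (Nat.dvd_factorial hl.pos g)).trans (sq B.factorial ▸ hQ)
  · exact Nat.Coprime.mul_dvd_of_dvd_of_dvd (Nat.Coprime.symm (hl.coprime_iff_not_dvd.2 fun e =>
      g (hl.dvd_factorial.1 (e.trans hw)))) (hw.trans ((dvd_pow_self _ two_ne_zero).trans hQ)) h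

theorem key_end {ι : Type} [Fintype ι] [Nonempty ι] (D : ι → Dat)
    (hind : ∀ (τ : ∀ i, (D i).K →+* AlgebraicClosure ℚ) (d : ι → ℤ),
      ∏ i, τ i (D i).u ^ d i = 1 → d = 0) {α c : ℝ} (a0 : 0 < α) (a1 : α ≤ 1) (c0 : 0 < c) {r : ℕ}
    (hr : 2 / α ≤ r) (h : ∃ᶠ x : ℕ in atTop, ∃ T : Finset ℕ, c * x / Real.log x ^ 2 ≤ #T ∧
      ∀ p ∈ T, p.Prime ∧ p ≤ x ∧ ∃ S : Finset ι, r / α ≤ #S ∧ ∀ i ∈ S,
        ∃ P : Ideal (𝓞 (D i).K), Ideal.absNorm P = p ∧ cl (ex (D i).R P) = (D i).c ∧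
          (Lw (D i).s (D i).c 1 P ∨ ∃ l : ℕ, l.Prime ∧ l ∣ p - 1 ∧ (x : ℝ) ^ α ≤ l ∧
            (D i).u ^ ((p - 1) / l) - 1 ∈ P)) : ∃ i, DenseF (D i).s (D i).c 1 := by
  have r1 : (0 : ℝ) < r := lt_of_lt_of_le (by positivity) hr
  have r0 : 0 < r := by exact_mod_cast r1
  obtain ⟨C, hC⟩ := gm_multi (fun i => (D i).K) (fun i => (D i).u)
    (fun i e => (D i).hu.ne_zero (by rw [e, map_zero])) hind r0
  have k0 : (0 : ℝ) < Fintype.card ι := Nat.cast_pos.2 Fintype.card_pos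
  by_contra hn
  have h1 : ∀ i, ∀ᶠ x : ℕ in atTop, ({E : Ideal (𝓞 (D i).K) | Ideal.absNorm E ≤ x ∧
      cl (ex (D i).R E) = (D i).c ^ 1 ∧ Lw (D i).s (D i).c 1 E}.ncard : ℝ) <
        c / 2 / Fintype.card ι * x / Real.log x ^ 2 := fun i =>
    (not_frequently.1 fun g => hn ⟨i, _, by positivity, g⟩).mono fun x hx => not_le.1 hx
  have hβ : (1 - α) * (1 + 1 / (r : ℝ)) < 1 := by
    have : 1 / (r : ℝ) ≤ α / 2 :=
      (one_div_le_one_div_of_le (by positivity) hr).trans_eq (one_div_div _ _)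
    nlinarith only [this, a0, a1]
  obtain ⟨x, ⟨T, t1, t2⟩, x1, x2, x3⟩ := (h.and_eventually ((eventually_all.2 h1).and
    (tendsto_natCast_atTop_atTop.eventually ((small_ev (C := C) (half_pos c0) hβ).and
      (eventually_ge_atTop 1))))).exists
  have x0 : (0 : ℝ) < x := one_pos.trans_le x3
  have f : ∀ i, {E : Ideal (𝓞 (D i).K) | Ideal.absNorm E ≤ x ∧
      cl (ex (D i).R E) = (D i).c ^ 1 ∧ Lw (D i).s (D i).c 1 E}.Finite := fun i =>
    (finite_norm_le x).subset fun E g => g.1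
  set U : Finset ℕ := univ.biUnion fun i => (f i).toFinset.image Ideal.absNorm with hU
  have u1 : (#U : ℝ) < c / 2 * x / Real.log x ^ 2 := by
    refine lt_of_le_of_lt (b := ∑ i, _) (by
      exact_mod_cast card_biUnion_le.trans (sum_le_sum fun i _ => card_image_le.trans
        (Set.ncard_eq_toFinset_card _ (f i)).ge)) ((sum_lt_sum_of_nonempty univ_nonempty
          fun i _ => x1 i).trans_eq ?_)
    rw [sum_const, card_univ, nsmul_eq_mul]
    field_simp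
  have u2 := hC ((x : ℝ) ^ (1 - α)) (Real.one_le_rpow x3 (sub_nonneg.2 a1)) (T \ U) fun p hp => by
    obtain ⟨p1, p2⟩ := mem_sdiff.1 hp
    obtain ⟨p3, p4, S, s1, s2⟩ := t2 p p1
    have s3 : ∀ i, ∃ l : ℕ, i ∈ S → (l.Prime ∧ l ∣ p - 1 ∧ (x : ℝ) ^ α ≤ l) ∧
        ∃ P : Ideal (𝓞 (D i).K), Ideal.absNorm P = p ∧ (D i).u ^ ((p - 1) / l) - 1 ∈ P :=
      fun i => by
        by_cases g : i ∈ S
        · obtain ⟨P, g1, g2, g3 | ⟨l, g3, g4, g5, g6⟩⟩ := s2 i g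
          · exact (p2 (mem_biUnion.2 ⟨i, mem_univ _, mem_image.2 ⟨P, (f i).mem_toFinset.2
              ⟨g1 ▸ p4, by rw [g2, pow_one], g3⟩, g1⟩⟩)).elim
          · exact ⟨l, fun _ => ⟨⟨g3, g4, g5⟩, P, g1, g6⟩⟩
        · exact ⟨0, fun g' => (g g').elim⟩
    choose l hl using s3
    obtain ⟨q, q1, q2, q3, q4⟩ := pigeon S a0 p3.one_lt (x := x) (by exact_mod_cast p4) l
      (fun i hi => (hl i hi).1) r0 s1
    have p5 : 0 < p - 1 := Nat.sub_pos_of_lt p3.one_lt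
    refine ⟨p3, (p - 1) / q, Nat.div_pos (Nat.le_of_dvd p5 q2) q1.pos, ?_, _, q4, fun i hi => ?_⟩
    · rw [Real.rpow_sub x0, Real.rpow_one]
      refine Nat.cast_div_le.trans ?_
      gcongr
      exact (Nat.sub_le _ _).trans p4
    · obtain ⟨g1, rfl⟩ := mem_filter.1 hi
      obtain ⟨P, g2, g3⟩ := (hl i g1).2
      exact ⟨P, (Ideal.isPrime_of_irreducible_absNorm (g2 ▸ p3)).isMaximal fun e =>
        p3.ne_zero (by rw [← g2, e, Ideal.absNorm_bot]), g2 ▸ Ideal.absNorm_mem P, g3⟩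
  rw [← Real.rpow_mul x0.le] at u2
  have u3 : (#T : ℝ) ≤ #(T \ U) + #U := by exact_mod_cast card_le_card_sdiff_add_card
  have u4 : c * x / Real.log x ^ 2 = c / 2 * x / Real.log x ^ 2 + c / 2 * x / Real.log x ^ 2 := by
    ring
  linarith only [u1, u2, u3, u4, t1, x2]

theorem key (n h : ℕ) : ∃ r₀ : ℕ, ∀ {ι : Type} [Fintype ι] (D : ι → Dat), r₀ ≤ Fintype.card ι →
    (∀ i, dg (D i).K ≤ n) → (∀ i, Nat.card (ClassGroup (D i).R) ≤ h) →
    (∀ (τ : ∀ i, (D i).K →+* AlgebraicClosure ℚ) (d : ι → ℤ),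
      ∏ i, τ i (D i).u ^ d i = 1 → d = 0) → ∃ i, DenseF (D i).s (D i).c 1 := by
  obtain ⟨s, hs, havg⟩ := average
  obtain ⟨θ, hθ⟩ : ∃ θ : ℝ, θ = 1 / (max 4 n : ℕ) := ⟨_, rfl⟩
  have m4 : (4 : ℝ) ≤ (max 4 n : ℕ) := by exact_mod_cast le_max_left _ _
  have t0 : 0 < θ := by rw [hθ]; positivity
  have t1 : θ * (max 4 n : ℕ) = 1 := by rw [hθ]; field_simp
  have t2 : θ * 4 ≤ 1 := t1 ▸ mul_le_mul_of_nonneg_left m4 t0.le
  have a0 : 0 < θ / s := by positivity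
  have a1 : θ / s ≤ 1 := (div_le_self t0.le hs).trans (by linarith only [t2, t0])
  obtain ⟨r, hr⟩ : ∃ r : ℕ, 2 / (θ / s) ≤ r := exists_nat_ge _
  obtain ⟨k, hk⟩ : ∃ k : ℕ, r / (θ / s) ≤ k := exists_nat_ge _
  obtain ⟨B, hB⟩ : ∃ B, B = n.factorial + 1 + 2 * n := ⟨_, rfl⟩
  refine ⟨600 * n * h * B.factorial ^ 2 * (2800 * n * h * k) + 1, fun {ι} _ D hι hn hh hind => ?_⟩
  have : Nonempty ι := Fintype.card_pos_iff.1 (by omega)
  obtain ⟨i₀⟩ := id this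
  have n0 : 0 < n := (dg_pos _).trans_le (hn i₀)
  have h0 : 0 < h := by
    have := cls_finite (R := (D i₀).R) (D i₀).s
    exact Nat.card_pos.trans_le (hh i₀)
  choose Z z0 hZ using fun i => local_step (D i).s (D i).hu (D i).c
  obtain ⟨M, hM⟩ : ∃ M, M = B.factorial ^ 2 * (DD ℚ * BB ℚ) *
    ∏ i, DD (D i).K * BB (D i).K * Z i := ⟨_, rfl⟩
  have m0 : 0 < M := hM ▸ mul_pos (mul_pos (pow_pos B.factorial_pos 2)
    (mul_pos (DD_pos _) (BB_pos _))) (prod_pos fun i _ => mul_pos (mul_pos (DD_pos _) (BB_pos _)) (z0 i))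
  have mQ : B.factorial ^ 2 ∣ M := hM ▸ (dvd_mul_right _ _).mul_right _
  have m1 : DD ℚ * BB ℚ ∣ M := hM ▸ (dvd_mul_left _ _).mul_right _
  have m2 : ∀ i, DD (D i).K * BB (D i).K * Z i ∣ M := fun i =>
    hM ▸ (dvd_prod_of_mem _ (mem_univ i)).mul_left _
  have m3 : 2 ∣ M := ((Nat.dvd_factorial two_pos (by omega)).trans
    (dvd_pow_self _ two_ne_zero)).trans mQ
  obtain ⟨b, I, i1, b0, b1, hI⟩ := key_class D hn hh m0 ((dvd_mul_left _ _).trans m1)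
    (by omega) (by omega) mQ
  have i2 : 2800 * n * h * k < #I := Nat.lt_of_mul_lt_mul_left (hι.trans i1)
  have : Nonempty I := (card_pos.1 (Nat.zero_lt_of_lt i2)).to_subtype
  choose J j0 j1 j2 j3 using fun i : I => (hI i i.2).2
  have mB : ∀ i, BB (D i).K ∣ M := fun i => ((dvd_mul_left _ _).mul_right _).trans (m2 i)
  obtain ⟨c, c0, hc⟩ := havg (n := n) (h := h) (M := M) (b := b) (θ := θ)
    (fun i : I => lamC (D i).R M (J i)) n0 h0 m0 m3 t0
    (fun i p hp => ⟨(lamC_le M _ p).1, (lamC_le M _ p).2.trans (by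
      rw [ArithmeticFunction.vonMangoldt_apply_prime hp]
      exact mul_le_mul_of_nonneg_right (Nat.cast_le.2 (hn i)) (Real.log_natCast_nonneg p))⟩)
    (fun i => by
      simp only [← prob_congr _ (j2 i)]
      refine cls_bv (D i).s m0 (j0 i) (j1 i) (((dvd_mul_right _ _).mul_right _).trans (m2 i))
        (mB i) t0 (lt_of_le_of_lt ?_ one_lt_two)
      rw [← t1]
      exact mul_le_mul_of_nonneg_left (Nat.cast_le.2 (max_le_max_left 4 (hn i))) t0.le)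
    (rat_bv m0 b0 b1 ((dvd_mul_right _ _).trans m1) ((dvd_mul_left _ _).trans m1) t0
      (t2.trans_lt one_lt_two))
    (rat_mass m0 ((dvd_mul_left _ _).trans m1) b1) (by
      refine ((scales (fun i : I => lamK (D i).K) (fun i => lamK_nonneg)
        fun i => mertens_lower _).and_eventually (tendsto_natCast_atTop_atTop.eventually
          (eventually_all.2 fun i : I => mass_lower (R := (D i).R) (D i).s m0 (mB i) (j0 i) (j1 i)
            (by norm_num : (0 : ℝ) < 1 / 100)))).mono fun x ⟨x1, x2⟩ E => ?_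
      have x3 := sum_le_sum fun (i : I) (_ : i ∈ univ) => (x2 i E).trans (mul_le_mul_of_nonneg_right
        (mul_le_mul_of_nonneg_left (Nat.cast_le.2 (hh i)) (Nat.cast_nonneg _)) (SP.hX _))
      simp only [prob_congr _ (j2 _)] at x3
      rw [sum_sub_distrib, sum_const, card_univ, nsmul_eq_mul, ← mul_sum] at x3
      rw [div_le_iff₀ (by positivity)]
      linarith only [x1, x3])
  refine key_end D hind a0 a1 c0 hr (hc.mono fun x ⟨T, g1, g2⟩ => ⟨T, g1, fun p hp => ?_⟩)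
  obtain ⟨p1, p2, p3, p4, p5⟩ := g2 p hp
  refine ⟨p1, p2, (univ.filter fun i : I => lamC (D i).R M (J i) p ≠ 0).map
    (Function.Embedding.subtype _), hk.trans (Nat.cast_le.2 ?_), fun i hi => ?_⟩
  · rw [card_map]
    rw [Fintype.card_coe] at p5
    exact (Nat.lt_of_mul_lt_mul_left (i2.trans_le p5)).le
  · obtain ⟨j, g3, rfl⟩ := mem_map.1 hi
    obtain ⟨P, rfl, -, g4⟩ := lamC_ne (mem_filter.1 g3).2
    refine ⟨P, rfl, g4.trans (j3 j), (hZ j M b ((dvd_mul_left _ _).trans (m2 j))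
      (fun l l1 l2 => key_mul ((tors_dvd _).trans (Nat.factorial_dvd_factorial
        ((Nat.mul_le_mul_left 2 (hn j)).trans (by omega)))) mQ l1 l2) b0 b1 (hI j j.2).1 P p1 p3
      (g4.trans (j3 j))).imp_right fun ⟨l, l1, l2, l3, l4⟩ =>
        ⟨l, l1, l3, (p4 l l1 l3).resolve_left l2, l4⟩⟩

end Pool.Agent.MP_48b1c3_nt.H69
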