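import Pool.Agent.MP_48b1c3_nt.H69.Index

/-! Cyclic class groups and sums over sets of classes. -/

namespace Pool.Agent.MP_48b1c3_nt.H69

open Finset NumberField H54 H91 H48 Filter
open scoped Classical nonZeroDivisors Topology

variable {K : Type} [Field K] [NumberField K] {R : Type} [CommRing R] [IsDedekindDomain R]
  [Algebra (𝓞 K) R]

theorem index_cyc (s : 𝓞 K) [IsLocalization.Away s R] [IsCyclic (ClassGroup R)] {M n : ℕ}
    (hM : 0 < M) (hB : BB ℚ ∣ M) (hn : dg K ≤ n) :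
    (normG K R M).index ≤ 600 * n * n.factorial := by
  have : NeZero M := ⟨hM.ne'⟩
  have := cls_finite (R := R) s
  have h1 := norm_card K hM hB
  obtain ⟨c₀, hc₀⟩ := IsCyclic.exists_monoid_generator (α := ClassGroup R)
  obtain ⟨I₀, i0, i1⟩ := exists_ex s c₀
  obtain ⟨J, c1, r1⟩ := exists_ray hM i0
  have j0 := r1.ne_bot i0
  have j1 := (cl_ex s j0 i0 (r1.cl i0)).trans i1
  obtain ⟨g₀, hg⟩ : ∃ g₀ : (ZMod M)ˣ, (g₀ : ZMod M) = (Ideal.absNorm J : ℕ) :=
    ⟨ZMod.unitOfCoprime _ (cop_iff.1 c1), ZMod.coe_unitOfCoprime _ _⟩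
  obtain ⟨e, he⟩ : ∃ e, Nat.card (ClassGroup R) = e + 1 :=
    Nat.exists_eq_succ_of_ne_zero Nat.card_pos.ne'
  generalize hN : {g : (ZMod M)ˣ | ∃ I : Ideal (𝓞 K), I ≠ ⊥ ∧
    (g : ZMod M) = (Ideal.absNorm I : ℕ)} = N at h1
  have hf : ∀ g : (ZMod M)ˣ, ∃ j : ℕ, g ∈ N → j < n.factorial ∧ g * g₀ ^ j ∈ normG K R M :=
    fun g => by
      by_cases h : g ∈ N
      · rw [← hN] at h
        obtain ⟨I, a0, a1⟩ := h
        obtain ⟨j, hj⟩ := hc₀ (cl (ex R I))
        have h2 : g * g₀ ^ (j * e) ∈ normG K R M :=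
          Subgroup.subset_closure ⟨I * J ^ (j * e), mul_ne_zero a0 (pow_ne_zero _ j0), by
            rw [cl_mul_idx s a0 (pow_ne_zero _ j0), cl_pow_idx s j0, j1, ← hj]
            beta_reduce
            rw [← pow_add, show j + j * e = (e + 1) * j by ring, pow_mul, ← he, pow_card_eq_one',
              one_pow], by
            rw [Units.val_mul, Units.val_pow_eq_pow_val, a1, hg, map_mul, map_pow, Nat.cast_mul,
              Nat.cast_pow]⟩
        refine ⟨j * e % n.factorial, fun _ => ⟨Nat.mod_lt _ n.factorial_pos, ?_⟩⟩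
        rw [← Nat.mod_add_div' (j * e) n.factorial, pow_add, ← mul_assoc, pow_mul] at h2
        exact (mul_mem_cancel_right (pow_mem_normG hM hn _)).1 h2
      · exact ⟨0, fun h' => (h h').elim⟩
  choose f hf using hf
  have h2 : N.ncard ≤ ((range n.factorial : Set ℕ) ×ˢ (normG K R M : Set (ZMod M)ˣ)).ncard := by
    refine Set.ncard_le_ncard_of_injOn (fun g => (f g, g * g₀ ^ f g))
      (fun g hg => ⟨mem_coe.2 (mem_range.2 (hf g hg).1), (hf g hg).2⟩) (fun g _ g' _ h => ?_)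
      ((finite_toSet _).prod (Set.toFinite _))
    obtain ⟨e1, e2⟩ := Prod.mk.inj h
    rw [e1] at e2
    exact mul_right_cancel e2
  rw [Set.ncard_prod, Set.ncard_coe_finset, card_range, ← Nat.card_coe_set_eq] at h2
  have h3 : (normG K R M).index * Nat.card (normG K R M) = M.totient := by
    rw [Subgroup.index_mul_card, Nat.card_eq_fintype_card, ZMod.card_units_eq_totient]
  refine Nat.le_of_mul_le_mul_right (c := Nat.card (normG K R M)) ?_ Nat.card_pos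
  rw [h3, mul_assoc]
  exact h1.trans (Nat.mul_le_mul (Nat.mul_le_mul_left _ hn) h2)

theorem sum_le (M : ℕ) (B : Finset (ClassGroup R)) {J : ClassGroup R → Ideal (𝓞 K)}
    (hJ : ∀ c ∈ B, cl (ex R (J c)) = c) (m : ℕ) :
    0 ≤ ∑ c ∈ B, lamC R M (J c) m ∧ ∑ c ∈ B, lamC R M (J c) m ≤ lamK K m := by
  refine ⟨sum_nonneg fun c _ => (lamC_bd M _ m).1, ?_⟩
  unfold lamC lamK
  split_ifs
  · simp
  · rw [sum_comm]
    refine sum_le_sum fun I _ => ?_
    refine (sum_le_sum (g := fun c => if cl (ex R I) = c then lam I else 0) fun c hc => ?_).trans ?_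
    · split_ifs with g1 g2 g2
      exacts [le_rfl, (g2 (g1.2.trans (hJ c hc))).elim, lam_nonneg I, le_rfl]
    · rw [sum_ite_eq]
      split_ifs
      exacts [le_rfl, lam_nonneg I]

theorem sum_ne {M : ℕ} {B : Finset (ClassGroup R)} {J : ClassGroup R → Ideal (𝓞 K)}
    (hJ : ∀ c ∈ B, cl (ex R (J c)) = c) {m : ℕ} (h : ∑ c ∈ B, lamC R M (J c) m ≠ 0) :
    ∃ c ∈ B, ∃ I : Ideal (𝓞 K), Ideal.absNorm I = m ∧ cl (ex R I) = c := by
  obtain ⟨c, hc, h⟩ := exists_ne_zero_of_sum_ne_zero h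
  obtain ⟨I, h1, h2⟩ := lamC_ne h
  exact ⟨c, hc, I, h1, h2.2.trans (hJ c hc)⟩

theorem prob_sum_X {κ : Type} (B : Finset κ) (L : κ → ℕ → ℝ) (h : ∀ c m, 0 ≤ L c m) (M b : ℕ)
    (x D : ℝ) : (prob (fun m => ∑ c ∈ B, L c m) M b x D).X = ∑ c ∈ B, (prob (L c) M b x D).X := by
  simp only [prob]
  rw [sum_comm]
  refine sum_congr rfl fun m _ => ?_
  rw [abs_of_nonneg (sum_nonneg fun c _ => h c m), sum_mul]
  exact sum_congr rfl fun c _ => by rw [abs_of_nonneg (h c m)]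

theorem prob_sum_R {κ : Type} (B : Finset κ) (L : κ → ℕ → ℝ) (h : ∀ c m, 0 ≤ L c m) (M b : ℕ)
    (x D z : ℝ) (e : Finset ℕ) : (prob (fun m => ∑ c ∈ B, L c m) M b x D).R M e z ≤
      ∑ c ∈ B, (prob (L c) M b x D).R M e z := by
  have h1 : ∀ d, (prob (fun m => ∑ c ∈ B, L c m) M b x D).cnt d =
      ∑ c ∈ B, (prob (L c) M b x D).cnt d := fun d => by
    simp only [SP.cnt, prob]
    rw [sum_comm]
    refine sum_congr rfl fun m _ => ?_
    rw [abs_of_nonneg (sum_nonneg fun c _ => h c m), sum_mul]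
    exact sum_congr rfl fun c _ => by rw [abs_of_nonneg (h c m)]
  simp only [SP.R, h1, prob_sum_X B L h]
  refine le_trans (sum_le_sum fun d _ => ?_) (sum_comm.le)
  rw [← mul_sum, sum_mul, ← sum_sub_distrib]
  exact mul_le_mul_of_nonneg_left (abs_sum_le_sum_abs _ _) (by positivity)

theorem sum_bv (s : 𝓞 K) [IsLocalization.Away s R] {M b : ℕ} (hM : 0 < M)
    (B : Finset (ClassGroup R)) {J : ClassGroup R → Ideal (𝓞 K)}
    (hJ : ∀ c ∈ B, J c ≠ ⊥ ∧ Cop M (J c) ∧ Ideal.absNorm (J c) ≡ b [MOD M])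
    (hD : DD K ∣ M) (hB : BB K ∣ M) {θ : ℝ} (h1 : 0 < θ)
    (h2 : θ * (max 4 (dg K) : ℕ) < 2) : ∃ C : ℝ, ∀ᶠ x : ℝ in atTop, ∀ z : ℝ,
      (prob (fun m => ∑ c ∈ B, lamC R M (J c) m) M b x (x ^ θ)).R M ∅ z ≤
        C * x / Real.log x ^ 2 := by
  have h : ∀ c, ∃ C : ℝ, c ∈ B → ∀ᶠ x : ℝ in atTop, ∀ z : ℝ,
      (prob (lamC R M (J c)) M b x (x ^ θ)).R M ∅ z ≤ C * x / Real.log x ^ 2 := fun c => by
    by_cases g : c ∈ B
    · obtain ⟨g1, g2, g3⟩ := hJ c g
      simp only [← prob_congr _ g3]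
      exact (cls_bv s hM g1 g2 hD hB h1 h2).imp fun _ h _ => h
    · exact ⟨0, fun g' => (g g').elim⟩
  choose C hC using h
  refine ⟨∑ c ∈ B, C c, ((eventually_all_finset B).2 hC).mono fun x hx z => ?_⟩
  refine (prob_sum_R B _ (fun c m => (lamC_bd M (J c) m).1) M b x _ z ∅).trans ?_
  rw [sum_mul, sum_div]
  exact sum_le_sum fun c hc => hx c hc z

theorem sum_mass (s : 𝓞 K) [IsLocalization.Away s R] {M b k : ℕ} (hM : 0 < M) (hB : BB K ∣ M)
    (B : Finset (ClassGroup R)) {J : ClassGroup R → Ideal (𝓞 K)}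
    (hJ : ∀ c ∈ B, J c ≠ ⊥ ∧ Cop M (J c) ∧ Ideal.absNorm (J c) ≡ b [MOD M])
    (hk : Nat.card (ClassGroup R) ≤ k * #B) {ε : ℝ} (hε : 0 < ε) :
    ∀ᶠ x : ℝ in atTop, ∀ D : ℝ, psi (lamK K) x - ε * x ≤ M.totient * k *
      (prob (fun m => ∑ c ∈ B, lamC R M (J c) m) M b x D).X := by
  have := cls_finite (R := R) s
  have h0 : (0 : ℝ) < Nat.card (ClassGroup R) := Nat.cast_pos.2 Nat.card_pos
  refine ((eventually_all_finset B).2 fun c hc =>
    mass_lower (R := R) s hM hB (hJ c hc).1 (hJ c hc).2.1 hε).mono fun x hx D => ?_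
  rcases le_total (psi (lamK K) x - ε * x) 0 with g | g
  · exact g.trans (mul_nonneg (by positivity) (SP.hX _))
  have h1 := sum_le_sum fun c hc => (hx c hc D).trans_eq (by rw [prob_congr _ (hJ c hc).2.2])
  rw [sum_const, nsmul_eq_mul, ← mul_sum,
    ← prob_sum_X B _ (fun c m => (lamC_bd M (J c) m).1)] at h1
  have h2 : (Nat.card (ClassGroup R) : ℝ) ≤ k * #B := by exact_mod_cast hk
  refine le_of_mul_le_mul_left ((mul_le_mul_of_nonneg_right h2 g).trans ?_) h0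
  rw [mul_assoc]
  exact (mul_le_mul_of_nonneg_left h1 (Nat.cast_nonneg k)).trans_eq (by ring)

end Pool.Agent.MP_48b1c3_nt.H69
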