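import Pool.Agent.MP_48b1c3_nt.H69.Key
import Pool.Agent.MP_48b1c3_nt.H69.SumG

/-! Among many fields with many classes one class has many primes of level one. -/

namespace Pool.Agent.MP_48b1c3_nt.H69

open Finset NumberField H54 H91 H48 Filter
open scoped Classical nonZeroDivisors Topology

/-- the local condition on a class -/
def Loc (K : Type) [Field K] [NumberField K] {R : Type} [CommRing R] [IsDedekindDomain R]
    [Algebra (𝓞 K) R] (c : ClassGroup R) : Prop :=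
  ∀ M : ℕ, 0 < M → ∃ I : Ideal (𝓞 K), I ≠ ⊥ ∧ Cop M I ∧ cl (ex R I) = c ∧
    Nat.gcd (Ideal.absNorm I - 1) M ∣ Units.torsionOrder K

theorem fiberG {G α : Type} [CommGroup G] [Finite G] {N : ℕ} {H : Subgroup G} (hH : H.index ≤ N)
    {T : Finset α} (hT : T.Nonempty) (f : α → G) :
    ∃ c₀ ∈ T, ∃ S ⊆ T, #T ≤ N * #S ∧ ∀ c ∈ S, (f c)⁻¹ * f c₀ ∈ H := by
  obtain ⟨g, hg⟩ := coset_avg (ι := T) (fun _ => H) (fun _ => hH) fun c => f c
  rw [Fintype.card_coe] at hg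
  obtain ⟨c₀, h0⟩ := card_pos.1 (Nat.pos_of_mul_pos_left (hT.card_pos.trans_le hg))
  refine ⟨c₀, c₀.2, (univ.filter fun c : T => (f c)⁻¹ * g ∈ H).map (Function.Embedding.subtype _),
    fun c hc => ?_, by rwa [card_map], fun c hc => ?_⟩
  · obtain ⟨d, -, rfl⟩ := mem_map.1 hc
    exact d.2
  · obtain ⟨d, d1, rfl⟩ := mem_map.1 hc
    have := H.mul_mem (mem_filter.1 d1).2 (H.inv_mem (mem_filter.1 h0).2)
    rwa [mul_inv_rev, inv_inv, mul_assoc, mul_inv_cancel_left] at this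

theorem key_classG {n : ℕ} {ι : Type} [Fintype ι] (D : ι → Dat) (hn : ∀ i, dg (D i).K ≤ n)
    (hc : ∀ i, IsCyclic (ClassGroup (D i).R)) (T : ∀ i, Finset (ClassGroup (D i).R))
    (t0 : ∀ i, (T i).Nonempty) (t1 : ∀ i, ∀ c ∈ T i, Loc (D i).K c) {M B : ℕ} (hM : 0 < M)
    (hB : BB ℚ ∣ M) (h1 : n.factorial + 1 ≤ B) (h2 : 2 * n ≤ B) (hQ : B.factorial ^ 2 ∣ M) :
    ∃ (b : ℕ) (I : Finset ι), Fintype.card ι ≤ 600 * n * n.factorial * B.factorial ^ 2 * #I ∧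
      0 < b ∧ b.Coprime M ∧ ∀ i ∈ I, Nat.gcd (b - 1) M ∣ Units.torsionOrder (D i).K ∧
        ∃ (S : Finset (ClassGroup (D i).R)) (J : ClassGroup (D i).R → Ideal (𝓞 (D i).K)),
          S ⊆ T i ∧ #(T i) ≤ 600 * n * n.factorial * #S ∧ ∀ c ∈ S,
            (J c ≠ ⊥ ∧ Cop M (J c) ∧ Ideal.absNorm (J c) ≡ b [MOD M]) ∧
              cl (ex (D i).R (J c)) = c := by
  have : NeZero M := ⟨hM.ne'⟩
  have hA : ∀ i c, ∃ (A : Ideal (𝓞 (D i).K)) (g : (ZMod M)ˣ), c ∈ T i → A ≠ ⊥ ∧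
      (g : ZMod M) = (Ideal.absNorm A : ℕ) ∧ cl (ex (D i).R A) = c ∧
      Nat.gcd (Ideal.absNorm A - 1) M ∣ Units.torsionOrder (D i).K := fun i c => by
    by_cases g : c ∈ T i
    · obtain ⟨A, a0, a1, a2, a3⟩ := t1 i c g M hM
      exact ⟨A, ZMod.unitOfCoprime _ (cop_iff.1 a1), fun _ =>
        ⟨a0, ZMod.coe_unitOfCoprime _ _, a2, a3⟩⟩
    · exact ⟨⊤, 1, fun g' => (g g').elim⟩
  choose A g hA using hA
  have hi : ∀ i, (normG (D i).K (D i).R M).index ≤ 600 * n * n.factorial := fun i =>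
    have := hc i
    index_cyc (D i).s hM hB (hn i)
  choose c₀ k0 S k1 k2 k3 using fun i => fiberG (hi i) (t0 i) (g i)
  obtain ⟨b, I, b1, b2, b3⟩ := common hM n.factorial_pos h1 hQ
    (fun i => normG (D i).K (D i).R M) hi (fun i => pow_mem_normG hM (hn i)) fun i => g i (c₀ i)
  have c1 := ZMod.val_coe_unit_coprime b
  have f2 : 2 ∣ M := ((Nat.dvd_factorial two_pos (by have := n.factorial_pos; omega)).trans
    (dvd_pow_self _ two_ne_zero)).trans hQ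
  have b0 : 0 < (b : ZMod M).val := Nat.pos_of_ne_zero fun e => by
    rw [e, Nat.coprime_zero_left] at c1
    omega
  refine ⟨_, I, b1, b0, c1, fun i hi => ⟨?_, ?_⟩⟩
  · obtain ⟨a0, a1, -, a3⟩ := hA i _ (k0 i)
    refine gcd_dvd hM ((tors_dvd _).trans (Nat.factorial_dvd_factorial
      ((Nat.mul_le_mul_left 2 (hn i)).trans h2))) hQ (Nat.pos_of_ne_zero fun e =>
        a0 (Ideal.absNorm_eq_zero_iff.1 e)) b0 a3 ((b2 i hi).2.trans ?_) b3
    rw [a1, ZMod.val_natCast]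
    exact (Nat.mod_modEq _ _).of_dvd hQ
  · have hJ : ∀ c, ∃ J : Ideal (𝓞 (D i).K), c ∈ S i →
        (J ≠ ⊥ ∧ Cop M J ∧ Ideal.absNorm J ≡ (b : ZMod M).val [MOD M]) ∧
          cl (ex (D i).R J) = c := fun c => by
      by_cases q : c ∈ S i
      swap
      · exact ⟨⊤, fun q' => (q q').elim⟩
      obtain ⟨a0, a1, a2, -⟩ := hA i c (k1 i q)
      have m := mul_mem (k3 i c q) (b2 i hi).1
      rw [mul_assoc, mul_inv_cancel_left] at m
      obtain ⟨E, e0, e1, e2⟩ := (mem_normG (D i).s hM).1 m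
      have e3 : Ideal.absNorm (A i c * E) ≡ (b : ZMod M).val [MOD M] := by
        rw [← ZMod.natCast_eq_natCast_iff, map_mul, Nat.cast_mul, ← e2, ZMod.natCast_zmod_val,
          ← a1, ← Units.val_mul, mul_inv_cancel_left]
      refine ⟨A i c * E, fun _ => ⟨⟨mul_ne_zero a0 e0, cop_iff.2 ?_, e3⟩, ?_⟩⟩
      · rw [Nat.Coprime, e3.gcd_eq]
        exact c1
      · rw [cl_mul_idx (D i).s a0 e0, a2, e1, mul_one]
    choose J hJ using hJ
    exact ⟨S i, J, k1 i, k2 i, hJ⟩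

theorem key_endG {ι : Type} [Fintype ι] [Nonempty ι] (D : ι → Dat)
    (G : ∀ i, Ideal (𝓞 (D i).K) → Prop)
    (hind : ∀ (τ : ∀ i, (D i).K →+* AlgebraicClosure ℚ) (d : ι → ℤ),
      ∏ i, τ i (D i).u ^ d i = 1 → d = 0) {α c : ℝ} (a0 : 0 < α) (a1 : α ≤ 1) (c0 : 0 < c) {r : ℕ}
    (hr : 2 / α ≤ r) (h : ∃ᶠ x : ℕ in atTop, ∃ T : Finset ℕ, c * x / Real.log x ^ 2 ≤ #T ∧
      ∀ p ∈ T, p.Prime ∧ p ≤ x ∧ ∃ S : Finset ι, r / α ≤ #S ∧ ∀ i ∈ S,
        ∃ P : Ideal (𝓞 (D i).K), Ideal.absNorm P = p ∧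
          (G i P ∨ ∃ l : ℕ, l.Prime ∧ l ∣ p - 1 ∧ (x : ℝ) ^ α ≤ l ∧
            (D i).u ^ ((p - 1) / l) - 1 ∈ P)) :
    ∃ i, ∃ b : ℝ, 0 < b ∧ ∃ᶠ x : ℕ in atTop, b * x / Real.log x ^ 2 ≤
      {E : Ideal (𝓞 (D i).K) | Ideal.absNorm E ≤ x ∧ G i E}.ncard := by
  have r1 : (0 : ℝ) < r := lt_of_lt_of_le (by positivity) hr
  have r0 : 0 < r := by exact_mod_cast r1
  obtain ⟨C, hC⟩ := gm_multi (fun i => (D i).K) (fun i => (D i).u)
    (fun i e => (D i).hu.ne_zero (by rw [e, map_zero])) hind r0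
  have k0 : (0 : ℝ) < Fintype.card ι := Nat.cast_pos.2 Fintype.card_pos
  by_contra hn
  have h1 : ∀ i, ∀ᶠ x : ℕ in atTop, ({E : Ideal (𝓞 (D i).K) | Ideal.absNorm E ≤ x ∧ G i E}.ncard : ℝ) <
        c / 2 / Fintype.card ι * x / Real.log x ^ 2 := fun i =>
    (not_frequently.1 fun g => hn ⟨i, _, by positivity, g⟩).mono fun x hx => not_le.1 hx
  have hβ : (1 - α) * (1 + 1 / (r : ℝ)) < 1 := by
    have : 1 / (r : ℝ) ≤ α / 2 :=
      (one_div_le_one_div_of_le (by positivity) hr).trans_eq (one_div_div _ _)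
    nlinarith only [this, a0, a1]
  obtain ⟨x, ⟨T, t1, t2⟩, x1, x2, x3⟩ := (h.and_eventually ((eventually_all.2 h1).and
    (tendsto_natCast_atTop_atTop.eventually ((small_ev (C := C) (half_pos c0) hβ).and
      (eventually_ge_atTop 1))))).exists
  have x0 : (0 : ℝ) < x := one_pos.trans_le x3
  have f : ∀ i, {E : Ideal (𝓞 (D i).K) | Ideal.absNorm E ≤ x ∧ G i E}.Finite := fun i =>
    (finite_norm_le x).subset fun E g => g.1
  set U : Finset ℕ := univ.biUnion fun i => (f i).toFinset.image Ideal.absNorm with hU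
  have u1 : (#U : ℝ) < c / 2 * x / Real.log x ^ 2 := by
    refine lt_of_le_of_lt (b := ∑ i, _) (by
      exact_mod_cast card_biUnion_le.trans (sum_le_sum fun i _ => card_image_le.trans
        (Set.ncard_eq_toFinset_card _ (f i)).ge)) ((sum_lt_sum_of_nonempty univ_nonempty
          fun i _ => x1 i).trans_eq ?_)
    rw [sum_const, card_univ, nsmul_eq_mul]
    field_simp
  have u2 := hC ((x : ℝ) ^ (1 - α)) (Real.one_le_rpow x3 (sub_nonneg.2 a1)) (T \ U) fun p hp => by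
    obtain ⟨p1, p2⟩ := mem_sdiff.1 hp
    obtain ⟨p3, p4, S, s1, s2⟩ := t2 p p1
    have s3 : ∀ i, ∃ l : ℕ, i ∈ S → (l.Prime ∧ l ∣ p - 1 ∧ (x : ℝ) ^ α ≤ l) ∧
        ∃ P : Ideal (𝓞 (D i).K), Ideal.absNorm P = p ∧ (D i).u ^ ((p - 1) / l) - 1 ∈ P :=
      fun i => by
        by_cases g : i ∈ S
        · obtain ⟨P, g1, g3 | ⟨l, g3, g4, g5, g6⟩⟩ := s2 i g
          · exact (p2 (mem_biUnion.2 ⟨i, mem_univ _, mem_image.2 ⟨P, (f i).mem_toFinset.2
              ⟨g1 ▸ p4, g3⟩, g1⟩⟩)).elim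
          · exact ⟨l, fun _ => ⟨⟨g3, g4, g5⟩, P, g1, g6⟩⟩
        · exact ⟨0, fun g' => (g g').elim⟩
    choose l hl using s3
    obtain ⟨q, q1, q2, q3, q4⟩ := pigeon S a0 p3.one_lt (x := x) (by exact_mod_cast p4) l
      (fun i hi => (hl i hi).1) r0 s1
    have p5 : 0 < p - 1 := Nat.sub_pos_of_lt p3.one_lt
    refine ⟨p3, (p - 1) / q, Nat.div_pos (Nat.le_of_dvd p5 q2) q1.pos, ?_, _, q4, fun i hi => ?_⟩
    · rw [Real.rpow_sub x0, Real.rpow_one]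
      refine Nat.cast_div_le.trans ?_
      gcongr
      exact (Nat.sub_le _ _).trans p4
    · obtain ⟨g1, rfl⟩ := mem_filter.1 hi
      obtain ⟨P, g2, g3⟩ := (hl i g1).2
      exact ⟨P, (Ideal.isPrime_of_irreducible_absNorm (g2 ▸ p3)).isMaximal fun e =>
        p3.ne_zero (by rw [← g2, e, Ideal.absNorm_bot]), g2 ▸ Ideal.absNorm_mem P, g3⟩
  rw [← Real.rpow_mul x0.le] at u2
  have u3 : (#T : ℝ) ≤ #(T \ U) + #U := by exact_mod_cast card_le_card_sdiff_add_card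
  have u4 : c * x / Real.log x ^ 2 = c / 2 * x / Real.log x ^ 2 + c / 2 * x / Real.log x ^ 2 := by
    ring
  linarith only [u1, u2, u3, u4, t1, x2]

theorem dense_of_union {K : Type} [Field K] [NumberField K] {R : Type} [CommRing R]
    [IsDedekindDomain R] [Algebra (𝓞 K) R] {s : 𝓞 K} (T : Finset (ClassGroup R)) {b : ℝ}
    (b0 : 0 < b) (h : ∃ᶠ x : ℕ in atTop, b * x / Real.log x ^ 2 ≤ {E : Ideal (𝓞 K) |
      Ideal.absNorm E ≤ x ∧ ∃ c ∈ T, cl (ex R E) = c ∧ Lw s c 1 E}.ncard) :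
    ∃ c ∈ T, DenseF s c 1 := by
  by_contra hn
  have h1 : ∀ c ∈ T, ∀ᶠ x : ℕ in atTop, ({E : Ideal (𝓞 K) | Ideal.absNorm E ≤ x ∧
      cl (ex R E) = c ^ 1 ∧ Lw s c 1 E}.ncard : ℝ) ≤ b / (#T + 1) * x / Real.log x ^ 2 :=
    fun c hc => (not_frequently.1 fun g => hn ⟨c, hc, _, by positivity, g⟩).mono fun x hx =>
      (not_le.1 hx).le
  obtain ⟨x, x1, x2, x3⟩ := (h.and_eventually (((eventually_all_finset T).2 h1).and
    (eventually_ge_atTop 2))).exists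
  have x4 : (2 : ℝ) ≤ x := by exact_mod_cast x3
  have x5 := Real.log_pos (one_lt_two.trans_le x4)
  have f : ∀ c : ClassGroup R, {E : Ideal (𝓞 K) | Ideal.absNorm E ≤ x ∧
      cl (ex R E) = c ^ 1 ∧ Lw s c 1 E}.Finite := fun c =>
    (finite_norm_le x).subset fun E g => g.1
  have u0 : {E : Ideal (𝓞 K) | Ideal.absNorm E ≤ x ∧ ∃ c ∈ T, cl (ex R E) = c ∧
      Lw s c 1 E}.ncard ≤ ∑ c ∈ T, {E : Ideal (𝓞 K) | Ideal.absNorm E ≤ x ∧
      cl (ex R E) = c ^ 1 ∧ Lw s c 1 E}.ncard := by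
    refine le_trans (b := #(T.biUnion fun c => (f c).toFinset)) ?_ (card_biUnion_le.trans
      (sum_le_sum fun c _ => (Set.ncard_eq_toFinset_card _ (f c)).ge))
    rw [← Set.ncard_coe_finset]
    exact Set.ncard_le_ncard (fun E ⟨g1, c, g2, g3, g4⟩ => mem_coe.2 (mem_biUnion.2
      ⟨c, g2, (f c).mem_toFinset.2 ⟨g1, by rw [g3, pow_one], g4⟩⟩)) (finite_toSet _)
  have u1 := (x1.trans (Nat.cast_le.2 u0)).trans ((Nat.cast_sum _ _).le.trans (sum_le_sum x2))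
  rw [sum_const, nsmul_eq_mul] at u1
  have u2 : b * x / Real.log x ^ 2 = #T * (b / (#T + 1) * x / Real.log x ^ 2) +
      b / (#T + 1) * x / Real.log x ^ 2 := by
    field_simp
  have u3 : 0 < b / (#T + 1) * x / Real.log x ^ 2 := by positivity
  linarith only [u1, u2, u3]

theorem keyG (n k : ℕ) : ∃ r₀ : ℕ, ∀ {ι : Type} [Fintype ι] (D : ι → Dat)
    (T : ∀ i, Finset (ClassGroup (D i).R)), r₀ ≤ Fintype.card ι →
    (∀ i, dg (D i).K ≤ n) → (∀ i, IsCyclic (ClassGroup (D i).R)) →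
    (∀ i, Nat.card (ClassGroup (D i).R) ≤ k * #(T i)) → (∀ i, ∀ c ∈ T i, Loc (D i).K c) →
    (∀ (τ : ∀ i, (D i).K →+* AlgebraicClosure ℚ) (d : ι → ℤ),
      ∏ i, τ i (D i).u ^ d i = 1 → d = 0) → ∃ i, ∃ c ∈ T i, DenseF (D i).s c 1 := by
  obtain ⟨s, hs, havg⟩ := average
  obtain ⟨θ, hθ⟩ : ∃ θ : ℝ, θ = 1 / (max 4 n : ℕ) := ⟨_, rfl⟩
  have m4 : (4 : ℝ) ≤ (max 4 n : ℕ) := by exact_mod_cast le_max_left _ _
  have t0 : 0 < θ := by rw [hθ]; positivity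
  have t1 : θ * (max 4 n : ℕ) = 1 := by rw [hθ]; field_simp
  have t2 : θ * 4 ≤ 1 := t1 ▸ mul_le_mul_of_nonneg_left m4 t0.le
  have a0 : 0 < θ / s := by positivity
  have a1 : θ / s ≤ 1 := (div_le_self t0.le hs).trans (by linarith only [t2, t0])
  obtain ⟨r, hr⟩ : ∃ r : ℕ, 2 / (θ / s) ≤ r := exists_nat_ge _
  obtain ⟨e, he⟩ : ∃ e : ℕ, r / (θ / s) ≤ e := exists_nat_ge _
  obtain ⟨B, hB⟩ : ∃ B, B = n.factorial + 1 + 2 * n := ⟨_, rfl⟩
  obtain ⟨h, hh⟩ : ∃ h, h = k * (600 * n * n.factorial) := ⟨_, rfl⟩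
  refine ⟨600 * n * n.factorial * B.factorial ^ 2 * (2800 * n * h * e) + 1,
    fun {ι} _ D T hι hn hcy hk hT hind => ?_⟩
  have : Nonempty ι := Fintype.card_pos_iff.1 (by omega)
  obtain ⟨i₀⟩ := id this
  have n0 : 0 < n := (dg_pos _).trans_le (hn i₀)
  have kT : ∀ i, 0 < k * #(T i) := fun i => by
    have := cls_finite (R := (D i).R) (D i).s
    exact Nat.card_pos.trans_le (hk i)
  have h0 : 0 < h := hh ▸ mul_pos (Nat.pos_of_mul_pos_right (kT i₀))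
    (mul_pos (mul_pos (by norm_num) n0) n.factorial_pos)
  choose Z z0 hZ using fun i c => local_step (D i).s (D i).hu c
  obtain ⟨M, hM⟩ : ∃ M, M = B.factorial ^ 2 * (DD ℚ * BB ℚ) *
    ∏ i, DD (D i).K * BB (D i).K * ∏ c ∈ T i, Z i c := ⟨_, rfl⟩
  have m0 : 0 < M := hM ▸ mul_pos (mul_pos (pow_pos B.factorial_pos 2)
    (mul_pos (DD_pos _) (BB_pos _))) (prod_pos fun i _ => mul_pos (mul_pos (DD_pos _) (BB_pos _))
      (prod_pos fun c _ => z0 i c))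
  have mQ : B.factorial ^ 2 ∣ M := hM ▸ (dvd_mul_right _ _).mul_right _
  have m1 : DD ℚ * BB ℚ ∣ M := hM ▸ (dvd_mul_left _ _).mul_right _
  have m2 : ∀ i, DD (D i).K * BB (D i).K * ∏ c ∈ T i, Z i c ∣ M := fun i =>
    hM ▸ (dvd_prod_of_mem _ (mem_univ i)).mul_left _
  have m3 : 2 ∣ M := ((Nat.dvd_factorial two_pos (by omega)).trans
    (dvd_pow_self _ two_ne_zero)).trans mQ
  obtain ⟨b, I, i1, b0, b1, hI⟩ := key_classG D hn hcy T
    (fun i => card_pos.1 (Nat.pos_of_mul_pos_left (kT i))) hT m0 ((dvd_mul_left _ _).trans m1)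
    (by omega) (by omega) mQ
  have i2 : 2800 * n * h * e < #I := Nat.lt_of_mul_lt_mul_left (hι.trans i1)
  have : Nonempty I := (card_pos.1 (Nat.zero_lt_of_lt i2)).to_subtype
  choose S J j0 j1 j2 using fun i : I => (hI i i.2).2
  have mB : ∀ i, BB (D i).K ∣ M := fun i => ((dvd_mul_left _ _).mul_right _).trans (m2 i)
  obtain ⟨c, c0, hc⟩ := havg (n := n) (h := h) (M := M) (b := b) (θ := θ)
    (fun (i : I) m => ∑ c ∈ S i, lamC (D i).R M (J i c) m) n0 h0 m0 m3 t0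
    (fun i p hp => ⟨(sum_le M _ (fun c q => (j2 i c q).2) p).1,
      ((sum_le M _ (fun c q => (j2 i c q).2) p).2.trans (lamK_le p)).trans (by
      rw [ArithmeticFunction.vonMangoldt_apply_prime hp]
      exact mul_le_mul_of_nonneg_right (Nat.cast_le.2 (hn i)) (Real.log_natCast_nonneg p))⟩)
    (fun i => by
      refine sum_bv (D i).s m0 _ (fun c q => (j2 i c q).1)
        (((dvd_mul_right _ _).mul_right _).trans (m2 i)) (mB i) t0 (lt_of_le_of_lt ?_ one_lt_two)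
      rw [← t1]
      exact mul_le_mul_of_nonneg_left (Nat.cast_le.2 (max_le_max_left 4 (hn i))) t0.le)
    (rat_bv m0 b0 b1 ((dvd_mul_right _ _).trans m1) ((dvd_mul_left _ _).trans m1) t0
      (t2.trans_lt one_lt_two))
    (rat_mass m0 ((dvd_mul_left _ _).trans m1) b1) (by
      refine ((scales (fun i : I => lamK (D i).K) (fun i => lamK_nonneg)
        fun i => mertens_lower _).and_eventually (tendsto_natCast_atTop_atTop.eventually
          (eventually_all.2 fun i : I => sum_mass (k := h) (D i).s m0 (mB i) _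
            (fun c q => (j2 i c q).1) ((hk i).trans (by
              rw [hh, mul_assoc k]
              exact Nat.mul_le_mul_left k (j1 i)))
            (by norm_num : (0 : ℝ) < 1 / 100)))).mono fun x ⟨x1, x2⟩ E => ?_
      have x3 := sum_le_sum fun (i : I) (_ : i ∈ univ) => x2 i E
      rw [sum_sub_distrib, sum_const, card_univ, nsmul_eq_mul, ← mul_sum] at x3
      rw [div_le_iff₀ (by positivity)]
      linarith only [x1, x3])
  obtain ⟨i, b', q0, q1⟩ := key_endG D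
    (fun i E => ∃ c ∈ T i, cl (ex (D i).R E) = c ∧ Lw (D i).s c 1 E) hind a0 a1 c0 hr
    (hc.mono fun x ⟨U, g1, g2⟩ => ⟨U, g1, fun p hp => by
      obtain ⟨p1, p2, p3, p4, p5⟩ := g2 p hp
      refine ⟨p1, p2, (univ.filter fun i : I => ∑ c ∈ S i, lamC (D i).R M (J i c) p ≠ 0).map
        (Function.Embedding.subtype _), he.trans (Nat.cast_le.2 ?_), fun i hi => ?_⟩
      · rw [card_map]
        rw [Fintype.card_coe] at p5
        exact (Nat.lt_of_mul_lt_mul_left (i2.trans_le p5)).le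
      · obtain ⟨j, g3, rfl⟩ := mem_map.1 hi
        obtain ⟨d, d1, d2⟩ := exists_ne_zero_of_sum_ne_zero (mem_filter.1 g3).2
        obtain ⟨P, rfl, -, g4⟩ := lamC_ne d2
        have g5 := g4.trans (j2 j d d1).2
        exact ⟨P, rfl, (hZ j d M b ((dvd_prod_of_mem _ (j0 j d1)).trans
          ((dvd_mul_left _ _).trans (m2 j)))
          (fun l l1 l2 => key_mul ((tors_dvd _).trans (Nat.factorial_dvd_factorial
            ((Nat.mul_le_mul_left 2 (hn j)).trans (by omega)))) mQ l1 l2) b0 b1 (hI j j.2).1 P p1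
          p3 g5).imp (fun g6 => ⟨d, j0 j d1, g5, g6⟩) fun ⟨l, l1, l2, l3, l4⟩ =>
            ⟨l, l1, l3, (p4 l l1 l3).resolve_left l2, l4⟩⟩⟩)
  exact ⟨i, dense_of_union _ q0 q1⟩

end Pool.Agent.MP_48b1c3_nt.H69
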