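import Pool.Agent.MP_48b1c3_nt.H69.Harper

/-! Row 12: the levels at infinitely many scales. -/

namespace Pool.Agent.MP_48b1c3_nt.H69

open Finset NumberField H54 H91 H48 Filter
open scoped Classical nonZeroDivisors Topology

variable {K : Type} [Field K] [NumberField K] {R : Type} [CommRing R] [IsDedekindDomain R]
  [Algebra (𝓞 K) R]

theorem DenseF.almost {s : 𝓞 K} [IsLocalization.Away s R] {u : 𝓞 K}
    (u1 : IsUnit (algebraMap (𝓞 K) R u)) (u2 : ∀ d : ℤ, (u : K) ^ d = 1 → d = 0)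
    {c : ClassGroup R} {j : ℕ} (h : DenseF s c j) : AlmostF s c (j + 1) := by
  have u0 : u ≠ 0 := fun h => u1.ne_zero (by rw [h, map_zero])
  obtain ⟨b, b0, h⟩ := h
  obtain ⟨A, a0, hA⟩ := exists_ex s (c ^ j)⁻¹
  obtain ⟨N, hN⟩ := exists_bdd (R := R) s
  have m0 : ∀ {P : Ideal (𝓞 K)}, P.IsMaximal → P ≠ ⊥ := fun h =>
    Ring.ne_bot_of_isMaximal_of_not_isField h (RingOfIntegers.not_isField K)
  have hD : ∀ E : Ideal (𝓞 K), ∃ D : Ideal (𝓞 K), cl (ex R E) = c ^ j ∧ Lw s c j E →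
      D ≠ ⊥ ∧ ex R D = ⊤ ∧ Ideal.absNorm D ≤ N ∧ cl (A * E * D) = 1 := fun E => by
    by_cases g : cl (ex R E) = c ^ j ∧ Lw s c j E
    · exact (hN _ (mul_ne_zero a0 (m0 g.2.1)) (by
        rw [ex, Ideal.map_mul, cl_mul (ex_ne s a0) (ex_ne s (m0 g.2.1)), hA, g.1,
          inv_mul_cancel])).imp fun _ h _ => h
    · exact ⟨⊤, fun h => (g h).elim⟩
  choose D hD using hD
  have e0 : ∀ E {D}, ex R D = ⊤ → ex R (A * E * D) = ex R A * ex R E := fun E D g => by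
    rw [ex, Ideal.map_mul, Ideal.map_mul, show Ideal.map _ _ = ⊤ from g, Ideal.mul_top]
  obtain ⟨n, hn⟩ : ∃ n, n = Ideal.absNorm A * (N + 1) := ⟨_, rfl⟩
  have n0 : 0 < n := hn ▸ mul_pos
    (Nat.pos_of_ne_zero fun h => a0 (Ideal.absNorm_eq_zero_iff.1 h)) N.succ_pos
  have n1 : (0 : ℝ) < n := by exact_mod_cast n0
  obtain ⟨C, hC⟩ := harperF
    (G := fun J => (∃ α ≠ 0, J = Ideal.span {α}) ∧ ∃ E D, Lw s c j E ∧ ex R D = ⊤ ∧ A * E * D = J)
    (fun _ h => h.1) u0 u2 (by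
      rintro r ⟨⟨α, h1, h2⟩, E, D, h3, h4, h5⟩
      rw [← Ideal.span_singleton_mul_span_singleton]
      refine ⟨⟨_, mul_ne_zero u0 h1, by rw [h2, Ideal.span_singleton_mul_span_singleton]⟩, E,
        D * Ideal.span {u}, h3, ?_, by rw [← h5]; ring⟩
      rw [ex, Ideal.map_mul, show Ideal.map _ _ = ⊤ from h4, Ideal.top_mul]
      exact (ex_span u).trans (Ideal.span_singleton_eq_top.2 u1))
    (c := b / (2 * n)) (by positivity) (by
      have t := Nat.tendsto_div_const_atTop n0.ne'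
      have t' : ∃ᶠ x : ℕ in atTop, b * (x / n : ℕ) / Real.log (x / n : ℕ) ^ 2 ≤
          {E : Ideal (𝓞 K) | Ideal.absNorm E ≤ x / n ∧ cl (ex R E) = c ^ j ∧
            Lw s c j E}.ncard := frequently_atTop.2 fun a => by
        obtain ⟨y, y1, y2⟩ := frequently_atTop.1 h a
        exact ⟨y * n, y1.trans (Nat.le_mul_of_pos_right _ n0), by
          rwa [Nat.mul_div_cancel _ n0]⟩
      refine (t'.and_eventually (t.eventually_ge_atTop 2)).mono fun x ⟨h1, h2⟩ => ?_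
      have y2 : (2 : ℝ) ≤ (x / n : ℕ) := by exact_mod_cast h2
      have y3 : ((x / n : ℕ) : ℝ) ≤ x := Nat.cast_le.2 (Nat.div_le_self _ _)
      have y4 : (x : ℝ) < n * ((x / n : ℕ) + 1) := by
        exact_mod_cast Nat.lt_mul_div_succ x n0
      refine le_trans ?_ (h1.trans (Nat.cast_le.2 (Set.ncard_le_ncard_of_injOn
        (fun E => A * E * D E) (fun E g => ⟨?_, cl_one (mul_ne_zero (mul_ne_zero a0
          (m0 g.2.2.1)) (hD E g.2).1) (hD E g.2).2.2.2, E, _, g.2.2, (hD E g.2).2.1, rfl⟩)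
        (fun E g E' g' e => ?_)
        ((finite_norm_le x).subset fun P hP => hP.1))))
      · have := Real.log_pos (one_lt_two.trans_le y2)
        rw [div_mul_eq_mul_div, mul_div_assoc]
        gcongr
        rw [div_le_iff₀ (by positivity)]
        nlinarith only [y2, y4]
      · refine le_trans ?_ ((Nat.le_div_iff_mul_le n0).1 g.1)
        rw [map_mul, map_mul, hn, mul_comm (Ideal.absNorm A), mul_assoc]
        gcongr
        exact (hD E g.2).2.2.1.trans N.le_succ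
      · have e1 := congrArg (ex R) e
        simp only [e0 E (hD E g.2).2.1, e0 E' (hD E' g'.2).2.1] at e1
        ext y
        rw [← mem_ex_max (R := R) s g.2.2.1 g.2.2.2.1, mul_left_cancel₀ (ex_ne s a0) e1,
          mem_ex_max s g'.2.2.1 g'.2.2.2.1])
  have a1 : A * Ideal.span {s} ≠ ⊥ :=
    mul_ne_zero a0 (mt Ideal.span_singleton_eq_bot.1 (s_ne (R := R) s))
  refine ⟨C + {P : Ideal (𝓞 K) | Ideal.absNorm P ≤ Ideal.absNorm (A * Ideal.span {s})}.ncard,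
    (hC.and_eventually (eventually_ge_atTop 1)).mono fun x ⟨hC, hx⟩ => ?_⟩
  rw [add_mul]
  refine le_trans ?_ (add_le_add hC (le_mul_of_one_le_right (Nat.cast_nonneg _)
    (Real.one_le_rpow (by exact_mod_cast hx) (by norm_num))))
  rw [← Nat.cast_add, Nat.cast_le]
  refine le_trans (Set.ncard_le_ncard (fun P ⟨p1, p2, p3, p4⟩ => ?_)
    (((finite_norm_le x).subset fun P hP => hP.2.1).union (finite_norm_le _))) (Set.ncard_union_le _ _)
  by_cases p5 : A * Ideal.span {s} ≤ P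
  · exact Or.inr (Nat.le_of_dvd (Nat.pos_of_ne_zero fun h => a1 (Ideal.absNorm_eq_zero_iff.1 h))
      (Ideal.absNorm_dvd_absNorm_of_le p5))
  rw [p1.isPrime.mul_le, not_or, Ideal.span_singleton_le_iff_mem] at p5
  have p7 := ex_max (R := R) s p1 p5.2
  have p0 := ex_ne (R := R) s (m0 p1)
  refine Or.inl ⟨p1, p2, fun p6 => p4 ⟨p1, p5.2, ⟨p7, p0⟩, fun A' a1 a2 =>
    Red.transfer a1 (ex_ne s a0) ?_ fun a a3 a4 => ?_⟩⟩
  · rw [hA, eq_inv_iff_mul_eq_one]
    rw [p3, pow_succ, ← mul_assoc] at a2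
    exact mul_eq_right.1 a2
  · have e : ex R A * ex R P = ex R A ⊓ ex R P := Ideal.mul_eq_inf_of_isCoprime
      (IsCoprime.map (Ideal.isCoprime_iff_sup_eq.2 (by
        rw [sup_comm]; exact p1.out.2 _ (left_lt_sup.2 p5.1))) (Ideal.mapHom _))
    rw [e] at a4 ⊢
    obtain ⟨a₀, h0⟩ := approx s p0 a
    obtain ⟨r, r1, -, E, D, r2, r5, r3⟩ := p6 (fun g => p7.ne_top (Ideal.eq_top_of_isUnit_mem _
      (Ideal.mem_map_of_mem _ g) u1)) a₀ fun g => a4
        ⟨a3, by simpa using (ex R P).sub_mem (Ideal.mem_map_of_mem _ g) h0⟩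
    have r4 := (ex_span r).symm.trans (r3 ▸ e0 E r5)
    refine ⟨_, _, ⟨(ex R A).sub_mem (gmem r4) a3, ?_⟩, r4, r2.2.2⟩
    simpa using (ex R P).add_mem (Ideal.mem_map_of_mem _ r1) h0

theorem AlmostF.many {s : 𝓞 K} [IsLocalization.Away s R] {c : ClassGroup R} {j : ℕ}
    (h : AlmostF s c j) {M : ℕ} {J : Ideal (𝓞 K)}
    (j0 : J ≠ ⊥) (hJ : cl (ex R J) = c ^ j) {α b : ℝ} (b0 : 0 < b) (hb : ∀ᶠ x : ℝ in atTop,
      b * x / Real.log x ^ 2 ≤ Set.ncard {p : ℕ | p.Prime ∧ (p : ℝ) ≤ x ∧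
        (∃ I : Ideal (𝓞 K), Ideal.absNorm I = p ∧ Ray M I J) ∧
          ∀ l : ℕ, l.Prime → l ∣ p - 1 → l ∣ M ∨ x ^ α < l}) :
    ∃ᶠ x : ℕ in atTop, b / 2 * x / Real.log x ^ 2 ≤
      {E : Ideal (𝓞 K) | Ideal.absNorm E ≤ x ∧ Ray M E J ∧ Lw s c j E}.ncard := by
  obtain ⟨C, hC⟩ := h
  refine (hC.and_eventually (tendsto_natCast_atTop_atTop.eventually (hb.and (small_ev (C := C)
    (β := 3 / 4) (half_pos b0) (by norm_num))))).mono fun x ⟨hC, h1, h2⟩ => ?_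
  have f1 := (finite_norm_le (K := K) x).subset (t := {E | Ideal.absNorm E ≤ x ∧ Ray M E J ∧
    Lw s c j E}) fun P hP => hP.1
  have f2 := (finite_norm_le (K := K) x).subset (t := {P | P.IsMaximal ∧ Ideal.absNorm P ≤ x ∧
    cl (ex R P) = c ^ j ∧ ¬ Lw s c j P}) fun P hP => hP.2.1
  have h4 := h1.trans (Nat.cast_le.2 (((Set.ncard_le_ncard ?_ ((f1.union f2).image
    Ideal.absNorm)).trans (Set.ncard_image_le (f1.union f2))).trans (Set.ncard_union_le _ _)))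
  · have h5 := hC.trans h2
    rw [Nat.cast_add] at h4
    have : b * x / Real.log x ^ 2 = b / 2 * x / Real.log x ^ 2 + b / 2 * x / Real.log x ^ 2 := by
      ring
    linarith only [h4, h5, this]
  · rintro _ ⟨p1, p2, ⟨I, rfl, p3⟩, -⟩
    refine ⟨I, ?_, rfl⟩
    by_cases p4 : Lw s c j I
    · exact Or.inl ⟨by exact_mod_cast p2, p3, p4⟩
    · exact Or.inr ⟨(Ideal.isPrime_of_irreducible_absNorm p1).isMaximal (p3.ne_bot j0), by exact_mod_cast p2,
        (cl_ex s (p3.ne_bot j0) j0 (p3.cl j0)).trans hJ, p4⟩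

theorem almost_allF {s : 𝓞 K} [IsLocalization.Away s R] {u : 𝓞 K}
    (u1 : IsUnit (algebraMap (𝓞 K) R u)) (u2 : ∀ d : ℤ, (u : K) ^ d = 1 → d = 0)
    {c : ClassGroup R} (h : DenseF s c 1) (j : ℕ) : AlmostF s c (j + 2) := by
  induction j with
  | zero => exact h.almost u1 u2
  | succ j ih =>
    obtain ⟨w, hw⟩ := core K
    obtain ⟨I, i0, i1⟩ := exists_ex s (c ^ (j + 2))
    obtain ⟨J, c1, r1⟩ := exists_ray w.factorial_pos i0
    have j0 := r1.ne_bot i0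
    have j1 := (cl_ex s j0 i0 (r1.cl i0)).trans i1
    obtain ⟨α, b, -, b0, hb⟩ := hw _ J w.factorial_pos
      (fun l hl h => Nat.dvd_factorial hl.pos h) j0 c1
    exact DenseF.almost u1 u2 ⟨_, half_pos b0, (ih.many j0 j1 b0 hb).mono fun x hx => hx.trans
      (Nat.cast_le.2 (Set.ncard_le_ncard (fun E g => ⟨g.1,
        (cl_ex s (g.2.1.ne_bot j0) j0 (g.2.1.cl j0)).trans j1, g.2.2⟩)
        ((finite_norm_le x).subset fun P hP => hP.1)))⟩

end Pool.Agent.MP_48b1c3_nt.H69
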