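import Pool.Agent.MP_48b1c3_nt.H69.Key
import Pool.Agent.MP_48b1c3_nt.H69.Euc
import Pool.Agent.MP_48b1c3_nt.Mg.H48_HypP

/-! Row 15: the greedy choice and the theorem. -/

namespace Pool.Agent.MP_48b1c3_nt.H69

open Finset NumberField H54 H91 H48 Filter
open scoped Classical nonZeroDivisors Topology

theorem ne_main (D : Dat) (τ : D.K →+* AlgebraicClosure ℚ) : τ D.u ≠ 0 := by
  have h : D.u ≠ 0 := fun h => D.hu.ne_zero (by rw [h, map_zero])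
  exact (map_ne_zero τ).2 (RingOfIntegers.coe_ne_zero_iff.2 h)

theorem greedy (P : Dat → Prop) (h : ∀ Γ : Subgroup (AlgebraicClosure ℚ)ˣ, Γ.FG → ∃ D : Dat, P D ∧
    ∀ (τ : D.K →+* AlgebraicClosure ℚ) (m : ℕ), 0 < m → ∀ γ ∈ Γ,
      (γ : AlgebraicClosure ℚ) ≠ τ D.u ^ m) (r : ℕ) :
    ∃ D : Fin r → Dat, (∀ i, P (D i)) ∧ ∀ (τ : ∀ i, (D i).K →+* AlgebraicClosure ℚ)
      (d : Fin r → ℤ), ∏ i, τ i (D i).u ^ d i = 1 → d = 0 := by
  induction r with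
  | zero => exact ⟨Fin.elim0, fun i => i.elim0, fun _ d _ => funext fun i => i.elim0⟩
  | succ r ih =>
    obtain ⟨D, h1, h2⟩ := ih
    have hf : {γ : (AlgebraicClosure ℚ)ˣ | ∃ (i : Fin r) (τ : (D i).K →+* AlgebraicClosure ℚ),
        γ = Units.mk0 _ (ne_main (D i) τ)}.Finite := by
      refine (Set.finite_iUnion fun i : Fin r => Set.finite_range
        fun τ : (D i).K →+* AlgebraicClosure ℚ => Units.mk0 _ (ne_main (D i) τ)).subset ?_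
      rintro _ ⟨i, τ, rfl⟩
      exact Set.mem_iUnion.2 ⟨i, τ, rfl⟩
    obtain ⟨E, e1, e2⟩ := h _ ((Subgroup.fg_iff _).2 ⟨_, rfl, hf⟩)
    refine ⟨Fin.cons E D, fun i => Fin.cases e1 h1 i, fun τ d hd => ?_⟩
    obtain ⟨τ₀, h0⟩ : ∃ τ₀ : E.K →+* AlgebraicClosure ℚ, τ₀ = τ 0 := ⟨_, rfl⟩
    obtain ⟨σ, hσ⟩ : ∃ σ : ∀ i : Fin r, (D i).K →+* AlgebraicClosure ℚ,
        σ = fun i : Fin r => (τ i.succ :) := ⟨fun i => τ i.succ, rfl⟩
    have e3 : τ₀ E.u ^ d 0 * ∏ i : Fin r, σ i (D i).u ^ d i.succ = 1 := by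
      rw [Fin.prod_univ_succ] at hd
      rw [h0, hσ]
      exact hd
    obtain ⟨g, g1, g2⟩ : ∃ g ∈ Subgroup.closure {γ : (AlgebraicClosure ℚ)ˣ | ∃ (i : Fin r)
        (τ : (D i).K →+* AlgebraicClosure ℚ), γ = Units.mk0 _ (ne_main (D i) τ)},
        (g : AlgebraicClosure ℚ) = ∏ i : Fin r, σ i (D i).u ^ d i.succ :=
      ⟨∏ i : Fin r, Units.mk0 _ (ne_main (D i) (σ i)) ^ d i.succ,
        prod_mem fun i _ => zpow_mem (Subgroup.subset_closure (by exact ⟨i, σ i, rfl⟩)) _, by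
          simp only [Units.coe_prod, Units.val_zpow_eq_zpow_val, Units.val_mk0]⟩
    have d0 : d 0 = 0 := by
      by_contra d0
      rw [← g2] at e3
      rcases Int.natAbs_eq (d 0) with e | e
      · refine e2 τ₀ _ (Int.natAbs_pos.2 d0) g⁻¹ (inv_mem g1) ?_
        rw [Units.val_inv_eq_inv_val, ← zpow_natCast, ← e]
        exact (eq_inv_of_mul_eq_one_left e3).symm
      · refine e2 τ₀ _ (Int.natAbs_pos.2 d0) g g1 ?_
        rw [e, zpow_neg, zpow_natCast] at e3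
        rw [eq_inv_of_mul_eq_one_right e3, inv_inv]
    rw [d0, zpow_zero, one_mul] at e3
    have d1 := h2 σ _ e3
    exact funext fun i => Fin.cases d0 (fun j => congrFun d1 j) i

theorem main (h : ℕ) : ∃ Γ : Subgroup (AlgebraicClosure ℚ)ˣ, Γ.FG ∧
    ∀ (K : Type) [Field K] [NumberField K] (s : 𝓞 K) (R : Type) [CommRing R]
      [IsDedekindDomain R] [Algebra (𝓞 K) R] [IsLocalization.Away s R],
      Nat.card (ClassGroup R) ≤ h →
      (∃ u : 𝓞 K, IsUnit (algebraMap (𝓞 K) R u) ∧ ∀ (τ : K →+* AlgebraicClosure ℚ) (m : ℕ),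
        0 < m → ∀ γ ∈ Γ, (γ : AlgebraicClosure ℚ) ≠ τ u ^ m) →
      GeneratorsEuclidean K R := by
  obtain ⟨r₀, δ, hδ, hl⟩ := core_thr
  obtain ⟨n, hn⟩ : ∃ n, n = max 8 ⌈((r₀ : ℝ) + 1) / δ⌉₊ := ⟨_, rfl⟩
  obtain ⟨r, hr⟩ := key n h
  have H : ¬ ∀ Γ : Subgroup (AlgebraicClosure ℚ)ˣ, Γ.FG → ∃ D : Dat,
      (dg D.K ≤ n ∧ Nat.card (ClassGroup D.R) ≤ h ∧ ¬ DenseF D.s D.c 1) ∧
      ∀ (τ : D.K →+* AlgebraicClosure ℚ) (m : ℕ), 0 < m → ∀ γ ∈ Γ,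
        (γ : AlgebraicClosure ℚ) ≠ τ D.u ^ m := fun H => by
    obtain ⟨D, d1, d2⟩ := greedy _ H r
    obtain ⟨i, hi⟩ := hr D (Fintype.card_fin r).ge (fun i => (d1 i).1) (fun i => (d1 i).2.1) d2
    exact (d1 i).2.2 hi
  obtain ⟨Γ, hΓ⟩ := not_forall.1 H
  obtain ⟨g1, g2⟩ := Classical.not_imp.1 hΓ
  refine ⟨Γ, g1, fun K _ _ s R _ _ _ _ hc ⟨u, u1, u2⟩ => ?_⟩
  rcases le_total n (Module.finrank ℚ K) with hK | hK
  · obtain ⟨h1, β, h2, h3⟩ := hl K _ (thr_of_degree hδ (hn ▸ hK))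
    exact euclid_of_core (s := s) h2 h1 (Nat.le_add_right _ _) h3
  intro C c1 c2
  have c0 : (C : Ideal R) ≠ ⊥ := mem_nonZeroDivisors_iff_ne_zero.1 C.2
  have u3 : ∀ d : ℤ, (u : K) ^ d = 1 → d = 0 := fun d hd => by
    by_contra d0
    obtain ⟨τ⟩ : Nonempty (K →+* AlgebraicClosure ℚ) := inferInstance
    refine u2 τ _ (Int.natAbs_pos.2 d0) 1 Γ.one_mem ?_
    rw [← map_pow, Units.val_one, ← map_one τ, ← zpow_natCast]
    congr 1
    rcases Int.natAbs_eq d with g | g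
    · exact (g ▸ hd).symm
    · rw [g, zpow_neg, inv_eq_one] at hd
      exact hd.symm
  refine euclid_of_almostF (s := s) C c1 (almost_allF u1 u3 ?_)
  by_contra hD
  refine g2 ⟨{ K := K, s := s, R := R, u := u, hu := u1, c := cl (C : Ideal R), hc := ?_ },
    ⟨hK, hc, hD⟩, u2⟩
  intro M hM
  obtain ⟨I, α, β, a0, b0, e, k1, k2⟩ := c2 M hM
  have b1 := mt Ideal.span_singleton_eq_bot.1 b0
  have i1 : ex R I ≠ ⊥ := right_ne_zero_of_mul (e ▸ mul_ne_zero b1 c0)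
  have e1 := congrArg cl e
  rw [cl_mul (mt Ideal.span_singleton_eq_bot.1 a0) i1, cl_mul b1 c0, cl_span, cl_span, one_mul,
    one_mul] at e1
  exact ⟨I, fun h => i1 (by rw [h, ex, Ideal.map_bot]), cop_iff.2 k1, e1, k2⟩

end Pool.Agent.MP_48b1c3_nt.H69
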