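import Pool.Agent.MP_48b1c3_nt.H69.KeyG
import Pool.Agent.MP_48b1c3_nt.H69.Cor

/-! Few generators of the class group are not Euclidean. -/

namespace Pool.Agent.MP_48b1c3_nt.H69

open Finset NumberField H54 H91 H48 Filter
open scoped Classical nonZeroDivisors Topology

theorem loc_of_cyc {K : Type} [Field K] [NumberField K] {R : Type} [CommRing R]
    [IsDedekindDomain R] [Algebra (𝓞 K) R] (C : (Ideal R)⁰) (h : CycLocal K (C : Ideal R)) :
    Loc K (ClassGroup.mk0 C) := fun M hM => by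
  have c0 : (C : Ideal R) ≠ ⊥ := mem_nonZeroDivisors_iff_ne_zero.1 C.2
  obtain ⟨I, α, β, a0, b0, e, k1, k2⟩ := h M hM
  have b1 := mt Ideal.span_singleton_eq_bot.1 b0
  have i1 : ex R I ≠ ⊥ := right_ne_zero_of_mul (e ▸ mul_ne_zero b1 c0)
  have e1 := congrArg cl e
  rw [cl_mul (mt Ideal.span_singleton_eq_bot.1 a0) i1, cl_mul b1 c0, cl_span, cl_span, one_mul,
    one_mul] at e1
  exact ⟨I, fun h => i1 (by rw [h, ex, Ideal.map_bot]), cop_iff.2 k1,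
    e1.trans (by rw [cl, dif_pos c0]), k2⟩

theorem mainG (k : ℕ) : ∃ Γ : Subgroup (AlgebraicClosure ℚ)ˣ, Γ.FG ∧
    ∀ (K : Type) [Field K] [NumberField K] (s : 𝓞 K) (R : Type) [CommRing R]
      [IsDedekindDomain R] [Algebra (𝓞 K) R] [IsLocalization.Away s R],
      (∃ u : 𝓞 K, IsUnit (algebraMap (𝓞 K) R u) ∧ ∀ (τ : K →+* AlgebraicClosure ℚ) (m : ℕ),
        0 < m → ∀ γ ∈ Γ, (γ : AlgebraicClosure ℚ) ≠ τ u ^ m) →
      k * {c : ClassGroup R | Subgroup.zpowers c = ⊤ ∧ ∃ C : (Ideal R)⁰, ClassGroup.mk0 C = c ∧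
        CycLocal K (C : Ideal R) ∧
        ¬ EuclideanIdeal ((C : Ideal R) : FractionalIdeal R⁰ (FractionRing R))}.ncard <
        Nat.card (ClassGroup R) := by
  obtain ⟨r₀, δ, hδ, hl⟩ := core_thr
  obtain ⟨n, hn⟩ : ∃ n, n = max 8 ⌈((r₀ : ℝ) + 1) / δ⌉₊ := ⟨_, rfl⟩
  obtain ⟨r, hr⟩ := keyG n k
  have H : ¬ ∀ Γ : Subgroup (AlgebraicClosure ℚ)ˣ, Γ.FG → ∃ D : Dat,
      (dg D.K ≤ n ∧ IsCyclic (ClassGroup D.R) ∧ ∃ T : Finset (ClassGroup D.R),
        Nat.card (ClassGroup D.R) ≤ k * #T ∧ ∀ c ∈ T, Loc D.K c ∧ ¬ DenseF D.s c 1) ∧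
      ∀ (τ : D.K →+* AlgebraicClosure ℚ) (m : ℕ), 0 < m → ∀ γ ∈ Γ,
        (γ : AlgebraicClosure ℚ) ≠ τ D.u ^ m := fun H => by
    obtain ⟨D, d1, d2⟩ := greedy _ H r
    choose T t1 t2 using fun i => (d1 i).2.2
    obtain ⟨i, c, hc, hi⟩ := hr D T (Fintype.card_fin r).ge (fun i => (d1 i).1)
      (fun i => (d1 i).2.1) t1 (fun i c hc => (t2 i c hc).1) d2
    exact (t2 i c hc).2 hi
  obtain ⟨Γ, hΓ⟩ := not_forall.1 H
  obtain ⟨g1, g2⟩ := Classical.not_imp.1 hΓ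
  refine ⟨Γ, g1, fun K _ _ s R _ _ _ _ ⟨u, u1, u2⟩ => ?_⟩
  have := cls_finite (R := R) s
  generalize hS : {c : ClassGroup R | Subgroup.zpowers c = ⊤ ∧ ∃ C : (Ideal R)⁰,
    ClassGroup.mk0 C = c ∧ CycLocal K (C : Ideal R) ∧
      ¬ EuclideanIdeal ((C : Ideal R) : FractionalIdeal R⁰ (FractionRing R))} = S
  replace hS : ∀ c ∈ S, Subgroup.zpowers c = ⊤ ∧ ∃ C : (Ideal R)⁰,
      ClassGroup.mk0 C = c ∧ CycLocal K (C : Ideal R) ∧
        ¬ EuclideanIdeal ((C : Ideal R) : FractionalIdeal R⁰ (FractionRing R)) :=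
    fun c hc => by rwa [← hS] at hc
  by_contra hk
  rw [not_lt] at hk
  obtain ⟨c₀, h0⟩ := Set.nonempty_of_ncard_ne_zero
    (Nat.pos_of_mul_pos_left (Nat.card_pos.trans_le hk)).ne'
  obtain ⟨z0, C₀, z1, z2, z3⟩ := hS c₀ h0
  rcases le_total n (Module.finrank ℚ K) with hK | hK
  · obtain ⟨h1, β, h2, h3⟩ := hl K _ (thr_of_degree hδ (hn ▸ hK))
    exact z3 (euclid_of_core (s := s) h2 h1 (Nat.le_add_right _ _) h3 C₀ (z1 ▸ z0) z2)
  have u3 : ∀ d : ℤ, (u : K) ^ d = 1 → d = 0 := fun d hd => by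
    by_contra d0
    obtain ⟨τ⟩ : Nonempty (K →+* AlgebraicClosure ℚ) := inferInstance
    refine u2 τ _ (Int.natAbs_pos.2 d0) 1 Γ.one_mem ?_
    rw [← map_pow, Units.val_one, ← map_one τ, ← zpow_natCast]
    congr 1
    rcases Int.natAbs_eq d with g | g
    · exact (g ▸ hd).symm
    · rw [g, zpow_neg, inv_eq_one] at hd
      exact hd.symm
  refine g2 ⟨{ K := K, s := s, R := R, u := u, hu := u1, c := _, hc := loc_of_cyc C₀ z2 },
    ⟨hK, isCyclic_iff_exists_zpowers_eq_top.2 ⟨c₀, z0⟩, S.toFinite.toFinset,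
      Set.ncard_eq_toFinset_card S S.toFinite ▸ hk, fun c hc => ?_⟩, u2⟩
  obtain ⟨y0, C, rfl, y2, y3⟩ := hS c (S.toFinite.mem_toFinset.1 hc)
  refine ⟨loc_of_cyc C y2, fun hD => y3 (euclid_of_almostF (s := s) C y0 (almost_allF u1 u3 ?_))⟩
  have c0 : (C : Ideal R) ≠ ⊥ := mem_nonZeroDivisors_iff_ne_zero.1 C.2
  rwa [cl, dif_pos c0]

/-- the discriminant form -/
theorem mainG_disc (k : ℕ) : ∃ D : ℕ, ∀ (K : Type) [Field K] [NumberField K] (s : 𝓞 K) (R : Type)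
    [CommRing R] [IsDedekindDomain R] [Algebra (𝓞 K) R] [IsLocalization.Away s R],
    D ≤ (discr K).natAbs → (IsCMField K → D ≤ (discr (maximalRealSubfield K)).natAbs) →
      k * {c : ClassGroup R | Subgroup.zpowers c = ⊤ ∧ ∃ C : (Ideal R)⁰, ClassGroup.mk0 C = c ∧
        CycLocal K (C : Ideal R) ∧
        ¬ EuclideanIdeal ((C : Ideal R) : FractionalIdeal R⁰ (FractionRing R))}.ncard <
        Nat.card (ClassGroup R) := by
  obtain ⟨Γ, hΓ, H⟩ := mainG k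
  obtain ⟨D, hD⟩ := exists_unit_fg Γ hΓ
  refine ⟨D, fun K _ _ s R _ _ _ _ h1 h2 => H K s R ?_⟩
  obtain ⟨u, hu⟩ := hD K h1 h2
  exact ⟨u, u.isUnit.map _, hu⟩

/-- the form with sign conditions -/
theorem formG (k : ℕ) : ∃ D : ℕ, ∀ (K : Type) [Field K] [NumberField K] (s : 𝓞 K) (R : Type)
    [CommRing R] [IsDedekindDomain R] [Algebra (𝓞 K) R] [IsLocalization.Away s R],
    D ≤ (discr K).natAbs → (IsCMField K → D ≤ (discr (maximalRealSubfield K)).natAbs) →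
    (IsTotallyComplex K → IsCyclic (ClassGroup (𝓞 K))) →
    (¬ IsTotallyComplex K → Odd (Nat.card (ClassGroup R))) →
      k * {c : ClassGroup R | Subgroup.zpowers c = ⊤ ∧ ∃ C : (Ideal R)⁰, ClassGroup.mk0 C = c ∧
        ¬ EuclideanIdeal ((C : Ideal R) : FractionalIdeal R⁰ (FractionRing R))}.ncard <
        Nat.card (ClassGroup R) := by
  obtain ⟨D, hD⟩ := mainG_disc k
  refine ⟨D, fun K _ _ s R _ _ _ _ d1 d2 c1 c2 => lt_of_le_of_lt (Nat.mul_le_mul_left k ?_)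
    (hD K s R d1 d2)⟩
  have := cls_finite (R := R) s
  refine Set.ncard_le_ncard (fun c ⟨hC, C, e, h⟩ => ⟨hC, C, e, ?_, h⟩) (Set.toFinite _)
  subst e
  by_cases hK : IsTotallyComplex K
  · have := c1 hK
    exact cycLocal_of_signCyclic s signCyclic_of_complex C hC
  · refine cycLocal_of_real s (not_not.1 fun g => hK ⟨fun w => ?_⟩) C ?_
    · exact InfinitePlace.not_isReal_iff_isComplex.1 fun hw => g ⟨w, hw⟩
    · rw [orderOf_eq_card_of_zpowers_eq_top hC]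
      exact c2 hK

/-- existence of a Euclidean ideal class if the generators have proportion at least `1 / k` -/
theorem exists_class (k : ℕ) : ∃ D : ℕ, ∀ (K : Type) [Field K] [NumberField K] (s : 𝓞 K)
    (R : Type) [CommRing R] [IsDedekindDomain R] [Algebra (𝓞 K) R] [IsLocalization.Away s R],
    D ≤ (discr K).natAbs → (IsCMField K → D ≤ (discr (maximalRealSubfield K)).natAbs) →
    (IsTotallyComplex K → IsCyclic (ClassGroup (𝓞 K))) →
    (¬ IsTotallyComplex K → Odd (Nat.card (ClassGroup R))) → IsCyclic (ClassGroup R) →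
    Nat.card (ClassGroup R) ≤ k * (Nat.card (ClassGroup R)).totient →
    ∃ C : (Ideal R)⁰, EuclideanIdeal ((C : Ideal R) : FractionalIdeal R⁰ (FractionRing R)) := by
  obtain ⟨D, hD⟩ := formG k
  refine ⟨D, fun K _ _ s R _ _ _ _ d1 d2 c1 c2 c3 c4 => by_contra fun hn =>
    (hD K s R d1 d2 c1 c2).not_ge (c4.trans (Nat.mul_le_mul_left k ?_))⟩
  have := cls_finite (R := R) s
  let _ := Fintype.ofFinite (ClassGroup R)
  rw [← IsCyclic.card_orderOf_eq_totient (α := ClassGroup R) (by rw [Nat.card_eq_fintype_card]),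
    ← Set.ncard_coe_finset]
  refine Set.ncard_le_ncard (fun c hc => ?_) (Set.toFinite _)
  obtain ⟨C, rfl⟩ := ClassGroup.mk0_surjective c
  refine ⟨Subgroup.eq_top_of_card_eq _ ?_, C, rfl, fun h => hn ⟨C, h⟩⟩
  rw [Nat.card_zpowers]
  exact (mem_filter.1 hc).2

end Pool.Agent.MP_48b1c3_nt.H69
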