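import Pool.Agent.MP_48b1c3_nt.H69.BV

/-! Row 4: the mass of a class. -/

namespace Pool.Agent.MP_48b1c3_nt.H69

open Finset NumberField H54 H91 H48 Filter
open scoped Classical nonZeroDivisors Topology

variable {K : Type} [Field K] [NumberField K] {R : Type} [CommRing R] [IsDedekindDomain R]
  [Algebra (𝓞 K) R]

theorem window_ms (K : Type) [Field K] [NumberField K] {q : ℕ} (hq : 0 < q) {ε : ℝ}
    (hε : 0 < ε) : ∀ᶠ x : ℝ in atTop,
      0 ≤ (sm (pushL fun I : Ideal (𝓞 K) => if Cop q I then 1 else 0) bmp x).re ∧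
      psi (lamK K) x - ε * x ≤
        (sm (pushL fun I : Ideal (𝓞 K) => if Cop q I then 1 else 0) bmp x).re := by
  filter_upwards [cheb_np K hε, eventually_ge_atTop (q * Real.exp 4)] with x h1 x4
  have x0 : 0 < x := lt_of_lt_of_le (by positivity) x4
  rw [cheb_re (fun m => if m.Coprime q then lamK K m else 0) fun m _ => by
    simp only [cop_iff]
    rw [pushL_norm fun m => if m.Coprime q then 1 else 0]
    split_ifs <;> simp]
  have s1 : ∑ m ∈ Icc 1 ⌊x⌋₊, lamK K m * bump (Real.log (m / x)) ≤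
      ∑ m ∈ Icc 1 ⌊x⌋₊, (if m.Coprime q then lamK K m else 0) * bump (Real.log (m / x)) +
        ∑ m ∈ Icc 1 ⌊x⌋₊, if m.Prime then 0 else lamK K m := by
    rw [← sum_add_distrib]
    refine sum_le_sum fun m _ => ?_
    have l0 := lamK_nonneg (K := K) m
    split_ifs with c1 c2 c2
    · exact (add_zero _).ge
    · exact le_add_of_nonneg_right l0
    · have m1 : (m : ℝ) ≤ q := Nat.cast_le.2 (Nat.le_of_dvd hq (c2.dvd_iff_not_coprime.2 c1))
      have m0 : (0 : ℝ) < m := Nat.cast_pos.2 c2.pos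
      rw [bump_eq_zero (Or.inl ((Real.log_le_iff_le_exp (by positivity)).2 ?_)), mul_zero, mul_zero,
        add_zero]
      rw [Real.exp_neg, div_le_iff₀ x0, inv_mul_eq_div, le_div_iff₀ (Real.exp_pos 4)]
      exact (mul_le_mul_of_nonneg_right m1 (Real.exp_pos 4).le).trans x4
    · rw [zero_mul, zero_add]
      exact mul_le_of_le_one_right l0 bump.le_one
  refine ⟨sum_nonneg fun m _ => mul_nonneg ?_ bump.nonneg, ?_⟩
  · split_ifs
    exacts [lamK_nonneg m, le_rfl]
  · unfold psi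
    linarith only [h1 x le_rfl, s1]

theorem class_ms {ι : Type} [Fintype ι] {q : ℕ} (hB : BB K ∣ q)
    (ξ : ι → Ideal (𝓞 K) → ℂ) (h : ∀ i, HC q (ξ i)) (c : ι → ℂ)
    (hc : ∀ i, (∀ I, I ≠ ⊥ → Cop q I → ξ i I = 1) → c i = 1)
    (h0 : ∃ i, ∀ I, I ≠ ⊥ → Cop q I → ξ i I = 1) {ε : ℝ} (hε : 0 < ε) :
    ∀ᶠ x : ℝ in atTop,
      psi (lamK K) x - ε * x ≤ (∑ i, c i * sm (pushL (ξ i)) bmp x).re := by
  obtain ⟨i0, h0⟩ := h0
  have hF : Fam ((fun i => (q, ξ i)) '' {i | kap (ξ i) = 0}) := by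
    refine ⟨?_, fun p _ => ((Set.toFinite _).image _).subset fun _ h => h.1⟩
    rintro _ ⟨i, hi, rfl⟩
    exact ⟨h i, hB, hi⟩
  obtain ⟨C, hC, hs⟩ := swK hF test_bmp 1 1
  have t2 := Real.tendsto_log_atTop
  filter_upwards [window_ms K (h i0).pos (half_pos hε), eventually_ge_atTop 3,
    t2.eventually_ge_atTop q, t2.eventually_ge_atTop ((∑ i, ‖c i‖) * C / (ε / 2))]
    with x ⟨w0, x3⟩ x4 h2 h3
  have l0 : 0 < Real.log x := Real.log_pos (by linarith only [x4])
  have x0 : 0 < x := by linarith only [x4]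
  have E0 : 0 ≤ C * x / Real.log x := by positivity
  have s1 (i : ι) : (if i = i0 then psi (lamK K) x - ε / 2 * x else 0) -
      ‖c i‖ * (C * x / Real.log x) ≤ (c i * sm (pushL (ξ i)) bmp x).re := by
    have n0 := mul_nonneg (norm_nonneg (c i)) E0
    by_cases hi : ∀ I, I ≠ ⊥ → Cop q I → ξ i I = 1
    · have e : pushL (ξ i) = pushL fun I : Ideal (𝓞 K) => if Cop q I then 1 else 0 := by
        ext m
        rcases eq_or_ne m 0 with rfl | hm
        · simp
        rw [pushL, pushL, push_apply _ hm, push_apply _ hm]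
        refine sum_congr rfl fun I hI => congrArg _ ?_
        split_ifs with h4
        · exact hi I (fun h5 => hm (by rw [← (mem_idN K).1 hI, h5, Ideal.absNorm_bot])) h4
        · exact not_not.1 fun h5 => h4 ((h i).cop I h5)
      rw [hc i hi] at n0 ⊢
      rw [one_mul, e]
      split_ifs <;> linarith only [x3, n0, w0]
    · have hk : kap (ξ i) = 0 := not_not.1 fun hk => hi fun I h4 h5 => dichotomy (h i) hB hk h4 h5
      have a1 := hs x x4 (q, ξ i) ⟨i, hk, rfl⟩ (by rw [pow_one]; exact h2)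
      rw [pow_one] at a1
      rw [if_neg fun h4 : i = i0 => hi (h4 ▸ h0)]
      have a2 := (abs_le.1 (Complex.abs_re_le_norm (c i * sm (pushL (ξ i)) bmp x))).1
      rw [norm_mul] at a2
      linarith only [mul_le_mul_of_nonneg_left a1 (norm_nonneg (c i)), a2]
  have s2 := sum_le_sum fun i (_ : i ∈ univ) => s1 i
  rw [sum_sub_distrib, sum_ite_eq', if_pos (mem_univ _), ← sum_mul, ← Complex.re_sum] at s2
  have s3 : (∑ i, ‖c i‖) * (C * x / Real.log x) ≤ ε / 2 * x := by
    have a1 := (div_le_iff₀ (half_pos hε)).1 h3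
    rw [← mul_div_assoc, ← mul_assoc, div_le_iff₀ l0]
    exact (mul_le_mul_of_nonneg_right a1 x0.le).trans (le_of_eq (by ring))
  linarith only [s2, s3]

theorem mass_lower (s : 𝓞 K) [IsLocalization.Away s R] {M : ℕ} (hM : 0 < M) (hB : BB K ∣ M)
    {J : Ideal (𝓞 K)} (h0 : J ≠ ⊥) (hJ : Cop M J) {ε : ℝ} (hε : 0 < ε) :
    ∀ᶠ x : ℝ in atTop, ∀ D : ℝ, psi (lamK K) x - ε * x ≤ M.totient * Nat.card (ClassGroup R) *
      (prob (lamC R M J) M (Ideal.absNorm J) x D).X := by
  obtain ⟨ι, _, ξ, hc, h1, h2, ⟨i0, h3⟩, h4⟩ := lamC_eq (R := R) s hM h0 hJ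
  have h := class_ms hB ξ h1 (fun i => (ξ i J)⁻¹)
    (fun i h => by rw [h J h0 hJ, inv_one]) ⟨i0, h3⟩ (half_pos hε)
  have t0 : (0 : ℝ) < Fintype.card ι := Nat.cast_pos.2 (Fintype.card_pos_iff.2 ⟨i0⟩)
  have k0 : 0 < ε / 2 / Fintype.card ι := by positivity
  filter_upwards [h, cheb_np K k0] with x x3 h1 D
  have e := h4 1 x
  simp only [Pi.one_apply, mul_one] at e
  rw [e, cheb_re (fun m => Fintype.card ι * lamC R M J m) fun m _ => rfl] at x3
  simp only [mul_assoc, ← mul_sum] at x3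
  have s1 : ∑ m ∈ Icc 1 ⌊x⌋₊, lamC R M J m * bump (Real.log (m / x)) ≤
      (prob (lamC R M J) M (Ideal.absNorm J) x D).X +
        ∑ m ∈ Icc 1 ⌊x⌋₊, if m.Prime then 0 else lamK K m := by
    simp only [prob, Om]
    rw [sum_filter, ← sum_add_distrib]
    refine sum_le_sum fun m _ => ?_
    obtain ⟨l0, l1⟩ := lamC_bd (R := R) M J m
    rw [abs_of_nonneg l0]
    by_cases c2 : m.Prime
    · rw [if_pos c2, add_zero]
      split_ifs with c1
      · rfl
      · rw [show lamC R M J m = 0 from not_not.1 fun h5 => c1 ⟨c2, by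
          obtain ⟨I, rfl, h6⟩ := lamC_ne h5
          exact h6.1⟩, zero_mul]
    · rw [if_neg c2, if_neg fun h => c2 h.1, zero_add]
      exact (mul_le_of_le_one_right l0 bump.le_one).trans l1
  have s2 := mul_le_mul_of_nonneg_left (s1.trans (add_le_add le_rfl (h1 x le_rfl))) t0.le
  have s3 : (Fintype.card ι : ℝ) * (ε / 2 / Fintype.card ι * x) = ε / 2 * x := by field_simp
  rw [← Nat.cast_mul, ← hc]
  rw [mul_add, s3] at s2
  linarith only [x3, s2]

end Pool.Agent.MP_48b1c3_nt.H69
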