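import Pool.Agent.MP_48b1c3_nt.H69.Mass

/-! Row 5: primes in a progression, upper bound. -/

namespace Pool.Agent.MP_48b1c3_nt.H69

open Finset NumberField H54 H91 H48 Filter
open scoped Classical nonZeroDivisors Topology

theorem norm_span_Rat (b : ℕ) : Ideal.absNorm (Ideal.span {(b : 𝓞 ℚ)}) = b := by
  rw [Ideal.absNorm_span_natCast, RingOfIntegers.rank, Module.finrank_self, pow_one]

theorem cop_span_Rat {M b : ℕ} (hb : b.Coprime M) : Cop M (Ideal.span {(b : 𝓞 ℚ)}) := by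
  have h := (Nat.isCoprime_iff_coprime.2 hb).map (Int.castRingHom (𝓞 ℚ))
  simp only [eq_intCast, Int.cast_natCast] at h
  exact Ideal.isCoprime_iff_sup_eq.1 ((Ideal.isCoprime_span_singleton_iff _ _).2 h)

theorem X_eq_Rat (M b : ℕ) (x D : ℝ) :
    (prob (lamC (𝓞 ℚ) M (Ideal.span {(b : 𝓞 ℚ)})) M b x D).X =
      (prob (fun m => Real.log m) M b x D).X := by
  simp only [prob]
  refine sum_congr rfl fun p hp => ?_
  rw [lamC_rat (mem_filter.1 hp).2.1 (mem_filter.1 hp).2.2]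

theorem lower_Rat {M b : ℕ} (hM : 0 < M) (hB : BB ℚ ∣ M) (b0 : 0 < b) (hb : b.Coprime M) {ε : ℝ}
    (hε : 0 < ε) : ∀ᶠ x : ℝ in atTop, ∀ D : ℝ, psi (lamK ℚ) x - ε * x ≤
      M.totient * (prob (fun m => Real.log m) M b x D).X := by
  have : IsLocalization.Away (1 : 𝓞 ℚ) (𝓞 ℚ) :=
    IsLocalization.away_of_isUnit_of_bijective _ isUnit_one Function.bijective_id
  have c1 : Nat.card (ClassGroup (𝓞 ℚ)) = 1 := by
    rw [Nat.card_eq_fintype_card]
    exact Rat.classNumber_eq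
  have h0 : Ideal.span {(b : 𝓞 ℚ)} ≠ ⊥ := by
    rw [Ne, Ideal.span_singleton_eq_bot]
    exact Nat.cast_ne_zero.2 b0.ne'
  filter_upwards [mass_lower (R := 𝓞 ℚ) 1 hM hB h0 (cop_span_Rat hb) hε] with x h D
  have := h D
  rwa [c1, norm_span_Rat, X_eq_Rat, Nat.cast_one, mul_one] at this

theorem sum_Rat {M : ℕ} (x D : ℝ) :
    ∑ b ∈ (Ico 1 (1 + M)).filter M.Coprime, (prob (fun m => Real.log m) M b x D).X ≤
      psi (lamK ℚ) x := by
  have e : ∀ b, (prob (fun m => Real.log m) M b x D).X = ∑ p ∈ Icc 1 ⌊x⌋₊,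
      if p.Prime ∧ p ≡ b [MOD M] then |Real.log p| * bump (Real.log (p / x)) else 0 :=
    fun b => by simp only [prob, Om, sum_filter]
  simp only [e]
  rw [sum_comm]
  refine sum_le_sum fun p _ => ?_
  rw [← sum_filter, sum_const, nsmul_eq_mul]
  by_cases hp : p.Prime
  · have c : (((Ico 1 (1 + M)).filter M.Coprime).filter
        fun b => p.Prime ∧ p ≡ b [MOD M]).card ≤ 1 := by
      refine card_le_one.2 fun a ha b hb => ?_
      obtain ⟨a1, -, a2⟩ := mem_filter.1 ha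
      obtain ⟨b1, -, b2⟩ := mem_filter.1 hb
      have a3 := mem_Ico.1 (mem_filter.1 a1).1
      have b3 := mem_Ico.1 (mem_filter.1 b1).1
      refine (a2.symm.trans b2).eq_of_abs_lt ?_
      rw [abs_lt]
      omega
    have l : |Real.log p| ≤ lamK ℚ p := by
      rw [abs_of_nonneg (Real.log_natCast_nonneg p), ← lamC_rat (M := M) hp rfl]
      exact (lamC_bd _ _ _).2
    calc _ ≤ 1 * (|Real.log p| * bump (Real.log (p / x))) :=
          mul_le_mul_of_nonneg_right (by exact_mod_cast c) (mul_nonneg (abs_nonneg _) bump.nonneg)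
      _ ≤ _ := by
          rw [one_mul]
          exact mul_le_mul_of_nonneg_right l bump.nonneg
  · rw [filter_false_of_mem fun b _ h => hp h.1, card_empty, Nat.cast_zero, zero_mul]
    exact mul_nonneg (lamK_nonneg p) bump.nonneg

theorem psi_le_Rat {x : ℝ} (hx : 0 ≤ x) : psi (lamK ℚ) x ≤ 11 / 2 * x := by
  have h := cheb_upper (K := ℚ) hx
  have l : Real.log 4 ≤ 3 / 2 := by
    rw [show (4 : ℝ) = 2 ^ 2 by norm_num, Real.log_pow, Nat.cast_ofNat]
    linarith only [Real.log_two_lt_d9]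
  rw [show dg ℚ = 1 from Module.finrank_self ℚ, Nat.cast_one, one_mul] at h
  refine (sum_le_sum fun m _ => mul_le_of_le_one_right (lamK_nonneg m) bump.le_one).trans
    (h.trans (mul_le_mul_of_nonneg_right (by linarith only [l]) hx))

theorem rat_mass {M b : ℕ} (hM : 0 < M) (hB : BB ℚ ∣ M) (hb : b.Coprime M) :
    ∀ᶠ x : ℝ in atTop, ∀ D : ℝ,
      M.totient * (prob (fun m => Real.log m) M b x D).X ≤ 6 * x := by
  have f0 : (0 : ℝ) < M.totient := Nat.cast_pos.2 (Nat.totient_pos.2 hM)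
  have hT : ((Ico 1 (1 + M)).filter M.Coprime).card = M.totient :=
    Nat.filter_coprime_Ico_eq_totient M 1
  obtain ⟨a, ha, ab⟩ : ∃ a ∈ (Ico 1 (1 + M)).filter M.Coprime, b ≡ a [MOD M] := by
    have e : b ≡ (b + (M - 1)) % M + 1 [MOD M] := by
      refine Nat.ModEq.symm (((Nat.mod_modEq _ M).add_right 1).trans ?_)
      rw [show b + (M - 1) + 1 = b + M by omega]
      exact Nat.add_mod_right b M
    have := Nat.mod_lt (b + (M - 1)) hM
    refine ⟨_, mem_filter.2 ⟨mem_Ico.2 ⟨by omega, by omega⟩, ?_⟩, e⟩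
    exact Nat.Coprime.symm (e.gcd_eq.symm.trans hb)
  have all := (eventually_all_finset ((Ico 1 (1 + M)).filter M.Coprime)).2 fun c hc =>
    lower_Rat hM hB (mem_Ico.1 (mem_filter.1 hc).1).1 (mem_filter.1 hc).2.symm
      (show 0 < 1 / 2 / (M.totient : ℝ) by positivity)
  filter_upwards [all, eventually_ge_atTop 0] with x h x0 D
  have s1 := mul_le_mul_of_nonneg_left (sum_Rat (M := M) x D) f0.le
  rw [mul_sum, ← add_sum_erase _ _ ha] at s1
  have s2 := card_nsmul_le_sum _ _ _ fun c (hc : c ∈ ((Ico 1 (1 + M)).filter M.Coprime).erase a) =>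
    h c (mem_of_mem_erase hc) D
  rw [card_erase_of_mem ha, hT, nsmul_eq_mul, Nat.cast_pred (Nat.totient_pos.2 hM)] at s2
  have e : (M.totient : ℝ) * (1 / 2 / M.totient * x) = x / 2 := by field_simp
  have p0 : 0 ≤ 1 / 2 / (M.totient : ℝ) * x := by positivity
  rw [prob_congr _ ab]
  nlinarith only [s1, s2, e, p0, psi_le_Rat x0]

end Pool.Agent.MP_48b1c3_nt.H69
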